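import Mathlib

open MvPolynomial Set
open scoped LinearAlgebra.Projectivization Matrix

noncomputable section

namespace Pool.Agent.Helper31

/-- A smooth projective plane curve over `ℂ` of degree `e + 3`, given by a homogeneous polynomial
`F` of degree `e + 3` in `X₀, X₁, X₂` whose gradient vanishes at no nonzero zero of `F`.
(Such a curve is automatically irreducible; its genus is `(e + 1)(e + 2)/2`.) -/
structure PlaneCurve (e : ℕ) where
  /-- the equation -/
  F : MvPolynomial (Fin 3) ℂ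
  homogeneous : F.IsHomogeneous (e + 3)
  smooth : ∀ p : Fin 3 → ℂ, p ≠ 0 → eval p F = 0 → ∃ i, eval p (pderiv i F) ≠ 0

namespace PlaneCurve

variable {e : ℕ} (C : PlaneCurve e)

/-- The gradient `∇F(p)`. -/
def grad (p : Fin 3 → ℂ) : Fin 3 → ℂ := fun i => eval p (pderiv i C.F)

/-- The homogeneous coordinate vectors of the points of `C`. -/
def cone : Set (Fin 3 → ℂ) := {p | p ≠ 0 ∧ eval p C.F = 0}

/-- The points of `C` in the complex projective plane. -/
def points : Set (ℙ ℂ (Fin 3 → ℂ)) := {P | P.rep ∈ C.cone}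

/-- Let `G` be homogeneous of degree `e`. The holomorphic 1-form `ω_G` on `C` (the Poincaré residue
of `G`) is `G (X₁ dX₂ - X₂ dX₁)/F₀ = G (X₂ dX₀ - X₀ dX₂)/F₁ = G (X₀ dX₁ - X₁ dX₀)/F₂`, where
`Fᵢ = ∂F/∂Xᵢ`; every holomorphic 1-form on `C` is `ω_G` for a unique such `G`.
`C.form G p v` is its value at the point with coordinate vector `p` on the tangent vector `v`
(`∇F(p) · v = 0`): the vector `p × v` is then `w ∇F(p)` for a unique scalar `w`, and the value is
`G(p) w`. -/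
def form (G : MvPolynomial (Fin 3) ℂ) (p v : Fin 3 → ℂ) : ℂ :=
  eval p G * ((crossProduct p v ⬝ᵥ star (C.grad p)) / (C.grad p ⬝ᵥ star (C.grad p)))

/-- A `C¹` arc `[0,1] → C`, in homogeneous coordinates. -/
structure Arc where
  /-- the arc, on `[0,1]` -/
  toFun : ℝ → Fin 3 → ℂ
  contDiffOn : ContDiffOn ℝ 1 toFun (Icc 0 1)
  mem_cone : ∀ t ∈ Icc (0 : ℝ) 1, toFun t ∈ C.cone

variable {C}

/-- The point of the arc at time `t`. -/
def Arc.pt (Γ : C.Arc) (t : Icc (0 : ℝ) 1) : ℙ ℂ (Fin 3 → ℂ) :=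
  Projectivization.mk ℂ (Γ.toFun t) (Γ.mem_cone t t.2).1

/-- The integral of `ω_G` along an arc. -/
def Arc.integral (Γ : C.Arc) (G : MvPolynomial (Fin 3) ℂ) : ℂ :=
  ∫ t in (0 : ℝ)..1, C.form G (Γ.toFun t) (derivWithin Γ.toFun (Icc 0 1) t)

variable (C)

/-- The boundary (a finite formal sum of points) of a 1-chain (a finite formal sum of arcs). -/
def boundary (c : C.Arc →₀ ℤ) : ℙ ℂ (Fin 3 → ℂ) →₀ ℤ :=
  c.sum fun Γ n => Finsupp.single (Γ.pt 1) n - Finsupp.single (Γ.pt 0) n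

/-- The integral of `ω_G` over a 1-chain. -/
def integral (G : MvPolynomial (Fin 3) ℂ) (c : C.Arc →₀ ℤ) : ℂ :=
  c.sum fun Γ n => n * Γ.integral G

/-- The zeros of `ω_G`. -/
def zeros (G : MvPolynomial (Fin 3) ℂ) : Set (ℙ ℂ (Fin 3 → ℂ)) :=
  {P | P ∈ C.points ∧ eval P.rep G = 0}

/-- `(C, [ω_G])` is an arithmetic point: `C` and `ω_G` are defined over `ℚ̄`, and `ω_G` can be
rescaled so that all its relative periods (its integrals over 1-chains whose boundary is supported
on the zeros of `ω_G`) lie in `ℚ̄`. -/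
def IsArithmetic (G : MvPolynomial (Fin 3) ℂ) : Prop :=
  (∀ m, IsAlgebraic ℚ (coeff m C.F)) ∧ (∀ m, IsAlgebraic ℚ (coeff m G)) ∧
    ∃ a : ℂ, a ≠ 0 ∧ ∀ c : C.Arc →₀ ℤ,
      (∀ P ∈ (C.boundary c).support, P ∈ C.zeros G) → IsAlgebraic ℚ (a * C.integral G c)

/-- The period vectors `(∫_c ω_{B 0}, …, ∫_c ω_{B (k-1)})` over all 1-cycles `c`. -/
def periodVectors {k : ℕ} (B : Fin k → MvPolynomial (Fin 3) ℂ) : Set (Fin k → ℂ) :=
  {v | ∃ c : C.Arc →₀ ℤ, C.boundary c = 0 ∧ v = fun i => C.integral (B i) c}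

/-- The degree of `(C, [ω_G])`: the least dimension of an abelian variety `A` which is a quotient
of the Jacobian of `C` such that `ω_G` is pulled back from `A`. Such an `A` is given by its
space of 1-forms, with a basis `ω_{B 0}, …, ω_{B (k-1)}`; a space of holomorphic 1-forms on `C`
comes from a quotient of the Jacobian if and only if its period vectors form a discrete set. -/
def degree (G : MvPolynomial (Fin 3) ℂ) : ℕ :=
  sInf {k | ∃ B : Fin k → MvPolynomial (Fin 3) ℂ, (∀ i, (B i).IsHomogeneous e) ∧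
    LinearIndependent ℂ B ∧ G ∈ Submodule.span ℂ (Set.range B) ∧
    DiscreteTopology (C.periodVectors B)}

end PlaneCurve

/-- The values of a triple of polynomials. -/
def evalMap (H : Fin 3 → MvPolynomial (Fin 3) ℂ) (q : Fin 3 → ℂ) : Fin 3 → ℂ :=
  fun i => eval q (H i)

/-- The derivative of `evalMap H` at `q` in the direction `v`. -/
def evalDeriv (H : Fin 3 → MvPolynomial (Fin 3) ℂ) (q v : Fin 3 → ℂ) : Fin 3 → ℂ :=
  fun i => ∑ j, eval q (pderiv j (H i)) * v j

/-- `(C, [ω_G])` and `(C', [ω_{G'}])` are isomorphic: there is a bijection `f : C → C'` which,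
near every point, is given by a triple `H` of homogeneous polynomials of the same degree, and
`f^* ω_{G'} = a ω_G` for some `a ≠ 0`. -/
def Isomorphic {e e' : ℕ} (C : PlaneCurve e) (G : MvPolynomial (Fin 3) ℂ)
    (C' : PlaneCurve e') (G' : MvPolynomial (Fin 3) ℂ) : Prop :=
  ∃ (f : ℙ ℂ (Fin 3 → ℂ) → ℙ ℂ (Fin 3 → ℂ)) (a : ℂ), a ≠ 0 ∧ BijOn f C.points C'.points ∧
    ∀ p ∈ C.cone, ∃ (d : ℕ) (H : Fin 3 → MvPolynomial (Fin 3) ℂ),
      (∀ i, (H i).IsHomogeneous d) ∧ evalMap H p ≠ 0 ∧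
        ∀ (q : Fin 3 → ℂ) (hq : q ∈ C.cone) (h : evalMap H q ≠ 0),
          f (Projectivization.mk ℂ q hq.1) = Projectivization.mk ℂ (evalMap H q) h ∧
            ∀ v, C.grad q ⬝ᵥ v = 0 →
              C'.form G' (evalMap H q) (evalDeriv H q v) = a * C.form G q v

end Pool.Agent.Helper31
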