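import Mathlib
import Pool.Agent.Helper31.Defs

open MvPolynomial Set
open scoped LinearAlgebra.Projectivization Matrix

noncomputable section

namespace Pool.Agent.Helper31

namespace PlaneCurve

variable {e : ℕ} {C : PlaneCurve e}

/-! ### basic lemmas -/

lemma grad_ne_zero {p : Fin 3 → ℂ} (hp : p ∈ C.cone) : C.grad p ≠ 0 := by
  obtain ⟨i, hi⟩ := C.smooth p hp.1 hp.2
  intro h
  exact hi (congrFun h i)

lemma hasDerivWithinAt_eval (F : MvPolynomial (Fin 3) ℂ) {γ : ℝ → Fin 3 → ℂ} {v : Fin 3 → ℂ}
    {s : Set ℝ} {t : ℝ} (h : HasDerivWithinAt γ v s t) :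
    HasDerivWithinAt (fun t => eval (γ t) F) (∑ i, eval (γ t) (pderiv i F) * v i) s t := by
  have hi : ∀ i, HasDerivWithinAt (fun t => γ t i) (v i) s t := fun i =>
    (hasDerivWithinAt_pi.mp h) i
  induction F using MvPolynomial.induction_on with
  | C a => simpa using hasDerivWithinAt_const t s a
  | add p q hp hq =>
    have := hp.add hq
    simp only [map_add, add_mul, Finset.sum_add_distrib]
    exact this
  | mul_X p i hp =>
    have := hp.mul (hi i)
    simp only [map_mul, eval_X]
    refine this.congr_deriv ?_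
    simp only [Derivation.leibniz, pderiv_X, smul_eq_mul, map_add, map_mul, eval_X, add_mul,
      Finset.sum_add_distrib]
    rw [add_comm]
    congr 1
    · rw [Finset.sum_eq_single i]
      · simp
      · intro j _ hj
        simp [hj.symm]
      · simp
    · rw [Finset.sum_mul]
      refine Finset.sum_congr rfl fun j _ => ?_
      ring

lemma continuous_eval' (G : MvPolynomial (Fin 3) ℂ) : Continuous (fun p : Fin 3 → ℂ => eval p G) :=
  MvPolynomial.continuous_eval G

lemma contDiff_eval (G : MvPolynomial (Fin 3) ℂ) :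
    ContDiff ℝ 1 (fun p : Fin 3 → ℂ => eval p G) := by
  induction G using MvPolynomial.induction_on with
  | C a => simpa using contDiff_const
  | add p q hp hq => simpa using hp.add hq
  | mul_X p i hp =>
    simp only [map_mul, eval_X]
    exact hp.mul (contDiff_apply ℝ ℂ i)

lemma euler {p : Fin 3 → ℂ} {G : MvPolynomial (Fin 3) ℂ} {d : ℕ} (hG : G.IsHomogeneous d) :
    ∑ i, p i * eval p (pderiv i G) = d * eval p G := by
  have := congrArg (eval p) hG.sum_X_mul_pderiv
  simpa using this

lemma grad_dot_self {p : Fin 3 → ℂ} (hp : p ∈ C.cone) : C.grad p ⬝ᵥ p = 0 := by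
  have := euler (p := p) C.homogeneous
  rw [hp.2, mul_zero] at this
  rw [dotProduct_comm, dotProduct]
  exact this

open scoped ComplexOrder in
lemma star_dot_ne_zero {g : Fin 3 → ℂ} (hg : g ≠ 0) : g ⬝ᵥ star g ≠ 0 := by
  intro h
  rw [dotProduct_comm] at h
  exact hg (dotProduct_star_self_eq_zero.mp h)

/-- The scalar `w` with `p × v = w ∇F(p)`. -/
def res (C : PlaneCurve e) (p v : Fin 3 → ℂ) : ℂ :=
  (crossProduct p v ⬝ᵥ star (C.grad p)) / (C.grad p ⬝ᵥ star (C.grad p))

lemma form_eq (G : MvPolynomial (Fin 3) ℂ) (p v : Fin 3 → ℂ) :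
    C.form G p v = eval p G * C.res p v := rfl

lemma parallel_aux {p v g : Fin 3 → ℂ} (hg : g ≠ 0) (h1 : g ⬝ᵥ p = 0) (h2 : g ⬝ᵥ v = 0) :
    crossProduct p v = ((crossProduct p v ⬝ᵥ star g) / (g ⬝ᵥ star g)) • g := by
  have h0 := star_dot_ne_zero hg
  have hpar : ∀ i j, g i * (crossProduct p v) j = g j * (crossProduct p v) i := by
    have e1 : g 0 * p 0 + g 1 * p 1 + g 2 * p 2 = 0 := by
      simpa [dotProduct, Fin.sum_univ_three] using h1
    have e2 : g 0 * v 0 + g 1 * v 1 + g 2 * v 2 = 0 := by
      simpa [dotProduct, Fin.sum_univ_three] using h2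
    intro i j
    fin_cases i <;> fin_cases j <;> simp [cross_apply]
    · linear_combination -(v 2) * e1 + (p 2) * e2
    · linear_combination (v 1) * e1 - (p 1) * e2
    · linear_combination (v 2) * e1 - (p 2) * e2
    · linear_combination -(v 0) * e1 + (p 0) * e2
    · linear_combination -(v 1) * e1 + (p 1) * e2
    · linear_combination (v 0) * e1 - (p 0) * e2
  ext i
  simp only [Pi.smul_apply, smul_eq_mul]
  rw [div_mul_eq_mul_div, eq_div_iff h0]
  simp only [dotProduct, Finset.mul_sum, Finset.sum_mul]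
  refine Finset.sum_congr rfl fun j _ => ?_
  linear_combination (-(star g j)) * hpar i j

lemma res_spec {p v : Fin 3 → ℂ} (hp : p ∈ C.cone) (hv : C.grad p ⬝ᵥ v = 0) :
    crossProduct p v = C.res p v • C.grad p :=
  parallel_aux (grad_ne_zero hp) (grad_dot_self hp) hv

lemma res_unique {p v : Fin 3 → ℂ} (hp : p ∈ C.cone) {w : ℂ}
    (h : crossProduct p v = w • C.grad p) : C.res p v = w := by
  rw [res, h, smul_dotProduct, smul_eq_mul]
  exact mul_div_cancel_right₀ _ (star_dot_ne_zero (grad_ne_zero hp))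

end PlaneCurve

end Pool.Agent.Helper31
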