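import Mathlib

open Set Filter Topology

noncomputable section

namespace Pool.Agent.Helper31

/-- Uniqueness for `y' = c(t) F(y)` with `F` of class `C¹` on `ℂ × ℂ`, two-sided. -/
lemma ode_unique {F : ℂ × ℂ → ℂ × ℂ} (hF : ContDiff ℝ 1 F) {a b t₀ : ℝ} (ht₀ : t₀ ∈ Icc a b)
    {c : ℝ → ℂ} (hc : ContinuousOn c (Icc a b)) {f g : ℝ → ℂ × ℂ}
    (hf : ∀ t ∈ Icc a b, HasDerivWithinAt f (c t • F (f t)) (Icc a b) t)
    (hg : ∀ t ∈ Icc a b, HasDerivWithinAt g (c t • F (g t)) (Icc a b) t)
    (h0 : f t₀ = g t₀) : EqOn f g (Icc a b) := by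
  have hfc : ContinuousOn f (Icc a b) := fun t ht => (hf t ht).continuousWithinAt
  have hgc : ContinuousOn g (Icc a b) := fun t ht => (hg t ht).continuousWithinAt
  obtain ⟨Rf, hRf⟩ := isCompact_Icc.exists_bound_of_continuousOn hfc
  obtain ⟨Rg, hRg⟩ := isCompact_Icc.exists_bound_of_continuousOn hgc
  obtain ⟨Cc, hCc⟩ := isCompact_Icc.exists_bound_of_continuousOn hc
  set R := max Rf Rg with hR
  have hcomp : IsCompact (Metric.closedBall (0 : ℂ × ℂ) R) := isCompact_closedBall _ _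
  obtain ⟨K, hK⟩ := (hF.locallyLipschitz.locallyLipschitzOn
    (s := Metric.closedBall (0 : ℂ × ℂ) R)).exists_lipschitzOnWith_of_compact hcomp
  set C : NNReal := Real.toNNReal Cc with hC
  have hlip : ∀ t ∈ Icc a b, LipschitzOnWith (C * K) (fun y => c t • F y)
      (Metric.closedBall (0 : ℂ × ℂ) R) := by
    intro t ht
    have h1 : LipschitzOnWith (‖c t‖₊ * K) (fun y => c t • F y)
        (Metric.closedBall (0 : ℂ × ℂ) R) := by
      have := (lipschitzWith_smul (c t) (β := ℂ × ℂ)).comp_lipschitzOnWith hK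
      exact this
    refine h1.weaken ?_
    gcongr
    rw [hC]
    rw [← NNReal.coe_le_coe, coe_nnnorm]
    exact (hCc t ht).trans (Real.le_coe_toNNReal _)
  have hfs : ∀ t ∈ Icc a b, f t ∈ Metric.closedBall (0 : ℂ × ℂ) R := by
    intro t ht
    rw [mem_closedBall_zero_iff]
    exact (hRf t ht).trans (le_max_left _ _)
  have hgs : ∀ t ∈ Icc a b, g t ∈ Metric.closedBall (0 : ℂ × ℂ) R := by
    intro t ht
    rw [mem_closedBall_zero_iff]
    exact (hRg t ht).trans (le_max_right _ _)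
  have hsubR : Icc t₀ b ⊆ Icc a b := Icc_subset_Icc_left ht₀.1
  have hsubL : Icc a t₀ ⊆ Icc a b := Icc_subset_Icc_right ht₀.2
  have hright : EqOn f g (Icc t₀ b) := by
    refine ODE_solution_unique_of_mem_Icc_right (v := fun t y => c t • F y)
      (s := fun _ => Metric.closedBall (0 : ℂ × ℂ) R) (K := C * K) ?_
      (hfc.mono hsubR) ?_ ?_ (hgc.mono hsubR) ?_ ?_ h0
    · intro t ht
      exact hlip t (hsubR (Ico_subset_Icc_self ht))
    · intro t ht
      refine (hf t (hsubR (Ico_subset_Icc_self ht))).mono_of_mem_nhdsWithin ?_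
      refine mem_of_superset (Icc_mem_nhdsGE ht.2) (Icc_subset_Icc_left (ht₀.1.trans ht.1))
    · intro t ht
      exact hfs t (hsubR (Ico_subset_Icc_self ht))
    · intro t ht
      refine (hg t (hsubR (Ico_subset_Icc_self ht))).mono_of_mem_nhdsWithin ?_
      refine mem_of_superset (Icc_mem_nhdsGE ht.2) (Icc_subset_Icc_left (ht₀.1.trans ht.1))
    · intro t ht
      exact hgs t (hsubR (Ico_subset_Icc_self ht))
  have hleft : EqOn f g (Icc a t₀) := by
    refine ODE_solution_unique_of_mem_Icc_left (v := fun t y => c t • F y)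
      (s := fun _ => Metric.closedBall (0 : ℂ × ℂ) R) (K := C * K) ?_
      (hfc.mono hsubL) ?_ ?_ (hgc.mono hsubL) ?_ ?_ h0
    · intro t ht
      exact hlip t (hsubL (Ioc_subset_Icc_self ht))
    · intro t ht
      refine (hf t (hsubL (Ioc_subset_Icc_self ht))).mono_of_mem_nhdsWithin ?_
      refine mem_of_superset (Icc_mem_nhdsLE ht.1) (Icc_subset_Icc_right (ht.2.trans ht₀.2))
    · intro t ht
      exact hfs t (hsubL (Ioc_subset_Icc_self ht))
    · intro t ht
      refine (hg t (hsubL (Ioc_subset_Icc_self ht))).mono_of_mem_nhdsWithin ?_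
      refine mem_of_superset (Icc_mem_nhdsLE ht.1) (Icc_subset_Icc_right (ht.2.trans ht₀.2))
    · intro t ht
      exact hgs t (hsubL (Ioc_subset_Icc_self ht))
  intro t ht
  rcases le_total t₀ t with h | h
  · exact hright ⟨h, ht.2⟩
  · exact hleft ⟨ht.1, h⟩

end Pool.Agent.Helper31
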