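import Mathlib

open Complex Filter Topology PeriodPair

noncomputable section

namespace Pool.Agent.Helper31

/-- The primitive cube root of unity `(-1 + √3 i)/2`. -/
def zeta : ℂ := ⟨-1 / 2, Real.sqrt 3 / 2⟩

lemma zeta_rel : zeta ^ 2 + zeta + 1 = 0 := by
  have h3 : Real.sqrt 3 * Real.sqrt 3 = 3 := Real.mul_self_sqrt (by norm_num)
  apply Complex.ext
  · simp [zeta, pow_two]; nlinarith
  · simp [zeta, pow_two]; ring

lemma zeta_ne_zero : zeta ≠ 0 := by
  intro h
  have := zeta_rel
  rw [h] at this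
  norm_num at this

lemma zeta_cube : zeta ^ 3 = 1 := by
  linear_combination (zeta - 1) * zeta_rel

lemma zeta_ne_one : zeta ≠ 1 := by
  intro h
  have := zeta_rel
  rw [h] at this
  norm_num at this

/-- The hexagonal period pair `(1, ζ)`. -/
def hexPair : PeriodPair where
  ω₁ := 1
  ω₂ := zeta
  indep := by
    rw [LinearIndependent.pair_iff]
    intro s t h
    have h3 : Real.sqrt 3 ≠ 0 := by positivity
    have him := congrArg Complex.im h
    have hre := congrArg Complex.re h
    simp [zeta] at him hre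
    have ht : t = 0 := by simpa using him
    rw [ht] at hre
    refine ⟨by simpa using hre, ht⟩

lemma zeta_mul_mem {z : ℂ} (hz : z ∈ hexPair.lattice) : zeta * z ∈ hexPair.lattice := by
  rw [PeriodPair.mem_lattice] at hz ⊢
  obtain ⟨m, n, rfl⟩ := hz
  refine ⟨-n, m - n, ?_⟩
  simp only [hexPair]
  push_cast
  linear_combination (-(n : ℂ)) * zeta_rel

/-- Multiplication by `ζ` as a permutation of the hexagonal lattice. -/
def zetaEquiv : hexPair.lattice ≃ hexPair.lattice where
  toFun l := ⟨zeta * l, zeta_mul_mem l.2⟩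
  invFun l := ⟨zeta * (zeta * l), zeta_mul_mem (zeta_mul_mem l.2)⟩
  left_inv l := by
    ext
    simp only
    linear_combination (l : ℂ) * zeta_cube
  right_inv l := by
    ext
    simp only
    linear_combination (l : ℂ) * zeta_cube

lemma hex_G4 : hexPair.G 4 = 0 := by
  have h : hexPair.G 4 = zeta⁻¹ * hexPair.G 4 := by
    conv_lhs => rw [PeriodPair.G, ← zetaEquiv.tsum_eq]
    rw [PeriodPair.G, ← tsum_mul_left]
    congr 1
    ext l
    simp only [zetaEquiv, Equiv.coe_fn_mk]
    rw [mul_pow, mul_inv]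
    congr 2
    linear_combination zeta * zeta_cube
  have h2 : (1 - zeta⁻¹) * hexPair.G 4 = 0 := by linear_combination h
  rcases mul_eq_zero.mp h2 with h3 | h3
  · exfalso
    apply zeta_ne_one
    have : zeta⁻¹ = 1 := by linear_combination -h3
    rw [inv_eq_one] at this
    exact this
  · exact h3

lemma hex_g2 : hexPair.g₂ = 0 := by
  rw [PeriodPair.g₂, hex_G4, mul_zero]

lemma half_notMem : hexPair.ω₁ / 2 ∉ hexPair.lattice := hexPair.ω₁_div_two_notMem_lattice

lemma derivP_half : ℘'[hexPair] (hexPair.ω₁ / 2) = 0 := by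
  have h1 := hexPair.derivWeierstrassP_add_coe (-(hexPair.ω₁ / 2)) ⟨_, hexPair.ω₁_mem_lattice⟩
  simp only at h1
  rw [show -(hexPair.ω₁ / 2) + hexPair.ω₁ = hexPair.ω₁ / 2 by ring,
    hexPair.derivWeierstrassP_neg] at h1
  rw [← CharZero.eq_neg_self_iff]
  exact h1

/-- the complement of a lattice is preconnected -/
lemma isPreconnected_compl_lattice (L : PeriodPair) : IsPreconnected ((L.lattice : Set ℂ)ᶜ) := by
  refine (Set.Countable.isConnected_compl_of_one_lt_rank (by simp) ?_).2
  exact (countable_of_Lindelof_of_discrete (X := L.lattice))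

lemma P_not_eventually_zero (L : PeriodPair) (z : ℂ) (hz : z ∉ L.lattice) (c : ℂ) :
    ¬ (∀ᶠ w in 𝓝 z, ℘[L] w = c) := by
  intro h
  have hA : AnalyticOnNhd ℂ ℘[L] (L.lattice : Set ℂ)ᶜ := L.analyticOnNhd_weierstrassP
  have hEq : Set.EqOn ℘[L] (fun _ => c) (L.lattice : Set ℂ)ᶜ :=
    hA.eqOn_of_preconnected_of_eventuallyEq analyticOnNhd_const
      (isPreconnected_compl_lattice L) hz h
  -- order at 0 is -2
  have ho := L.order_weierstrassP 0 (zero_mem _)
  have h2 : ℘[L] =ᶠ[𝓝[≠] 0] (fun _ => c) := by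
    have := L.compl_lattice_sdiff_singleton_mem_nhds 0
    filter_upwards [self_mem_nhdsWithin, mem_nhdsWithin_of_mem_nhds this] with w hw hw'
    apply hEq
    intro hmem
    exact hw' ⟨hmem, hw⟩
  rw [meromorphicOrderAt_congr h2] at ho
  have : (0 : WithTop ℤ) ≤ meromorphicOrderAt (fun _ : ℂ => c) 0 :=
    (analyticAt_const (v := c)).meromorphicOrderAt_nonneg
  rw [ho] at this
  exact absurd this (by decide)

lemma hex_g3 : hexPair.g₃ ≠ 0 := by
  intro h3
  set z0 := hexPair.ω₁ / 2 with hz0
  have hmem : z0 ∉ hexPair.lattice := half_notMem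
  have hrel := hexPair.derivWeierstrassP_sq z0 hmem
  rw [derivP_half, hex_g2, h3] at hrel
  have hP0 : ℘[hexPair] z0 = 0 := by
    have : ℘[hexPair] z0 ^ 3 = 0 := by linear_combination (-1/4) * hrel
    exact pow_eq_zero_iff (by norm_num) |>.mp this
  have hA : AnalyticAt ℂ ℘[hexPair] z0 := hexPair.analyticOnNhd_weierstrassP z0 hmem
  have hA' : AnalyticAt ℂ ℘'[hexPair] z0 := hexPair.analyticOnNhd_derivWeierstrassP z0 hmem
  have hord := hA.analyticOrderAt_deriv_add_one
  simp only [hP0, sub_zero, deriv_weierstrassP] at hord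
  have heq : (fun w => ℘'[hexPair] w ^ 2) =ᶠ[𝓝 z0] (fun w => 4 * ℘[hexPair] w ^ 3) := by
    filter_upwards [hexPair.isClosed_lattice.isOpen_compl.mem_nhds hmem] with w hw
    have := hexPair.derivWeierstrassP_sq w hw
    rw [hex_g2, h3] at this
    linear_combination this
  have ho2 : 2 * analyticOrderAt ℘'[hexPair] z0 = 3 * analyticOrderAt ℘[hexPair] z0 := by
    have e1 : analyticOrderAt (fun w => ℘'[hexPair] w ^ 2) z0
        = 2 * analyticOrderAt ℘'[hexPair] z0 := by
      have := analyticOrderAt_pow hA' 2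
      simpa [Pi.pow_def] using this
    have e2 : analyticOrderAt (fun w => 4 * ℘[hexPair] w ^ 3) z0
        = 3 * analyticOrderAt ℘[hexPair] z0 := by
      have hc : AnalyticAt ℂ (fun _ : ℂ => (4 : ℂ)) z0 := analyticAt_const
      have := analyticOrderAt_mul hc (hA.pow 3)
      have h4 : analyticOrderAt (fun _ : ℂ => (4 : ℂ)) z0 = 0 := by
        rw [hc.analyticOrderAt_eq_zero]; norm_num
      rw [h4, zero_add] at this
      have h5 := analyticOrderAt_pow hA 3
      rw [h5] at this
      simpa [Pi.mul_def, Pi.pow_def] using this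
    rw [← e1, ← e2]
    exact analyticOrderAt_congr heq
  have hfin : analyticOrderAt ℘[hexPair] z0 ≠ ⊤ := by
    intro htop
    rw [analyticOrderAt_eq_top] at htop
    exact P_not_eventually_zero hexPair z0 hmem 0 htop
  have hne0 : analyticOrderAt ℘[hexPair] z0 ≠ 0 := by
    rw [hA.analyticOrderAt_ne_zero]
    exact hP0
  generalize analyticOrderAt ℘[hexPair] z0 = n at *
  generalize analyticOrderAt ℘'[hexPair] z0 = k at *
  have hk : k ≠ ⊤ := by
    rintro rfl
    simp at hord
    exact hfin hord.symm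
  lift n to ℕ using hfin
  lift k to ℕ using hk
  norm_cast at *
  omega

end Pool.Agent.Helper31
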