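import Mathlib
import Pool.Agent.Helper31.Weier
import Pool.Agent.Helper31.Ode

open Complex Filter Topology PeriodPair

noncomputable section

namespace Pool.Agent.Helper31

lemma hex_rel {z : ℂ} (hz : z ∉ hexPair.lattice) :
    ℘'[hexPair] z ^ 2 = 4 * ℘[hexPair] z ^ 3 - hexPair.g₃ := by
  have := hexPair.derivWeierstrassP_sq z hz
  rw [hex_g2] at this
  linear_combination this

lemma hasDerivAt_P {z : ℂ} (hz : z ∉ hexPair.lattice) :
    HasDerivAt ℘[hexPair] (℘'[hexPair] z) z := by
  have := (hexPair.analyticOnNhd_weierstrassP z hz).differentiableAt.hasDerivAt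
  rwa [deriv_weierstrassP] at this

lemma compl_lattice_mem_nhds {z : ℂ} (hz : z ∉ hexPair.lattice) :
    ((hexPair.lattice : Set ℂ)ᶜ) ∈ 𝓝 z :=
  hexPair.isClosed_lattice.isOpen_compl.mem_nhds hz

lemma hasDerivAt_P' {z : ℂ} (hz : z ∉ hexPair.lattice) :
    HasDerivAt ℘'[hexPair] (6 * ℘[hexPair] z ^ 2) z := by
  have hA : AnalyticAt ℂ ℘[hexPair] z := hexPair.analyticOnNhd_weierstrassP z hz
  have hA' : AnalyticAt ℂ ℘'[hexPair] z := hexPair.analyticOnNhd_derivWeierstrassP z hz
  have key : ∀ᶠ w in 𝓝 z, ℘'[hexPair] w * (deriv ℘'[hexPair] w - 6 * ℘[hexPair] w ^ 2) = 0 := by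
    filter_upwards [compl_lattice_mem_nhds hz] with w hw
    have hw' : w ∉ hexPair.lattice := hw
    have h1 : HasDerivAt (fun w => ℘'[hexPair] w ^ 2)
        (2 * ℘'[hexPair] w * deriv ℘'[hexPair] w) w := by
      have := ((hexPair.analyticOnNhd_derivWeierstrassP w hw').differentiableAt.hasDerivAt).pow 2
      simpa [Pi.pow_def] using this
    have h2 : HasDerivAt (fun w => 4 * ℘[hexPair] w ^ 3 - hexPair.g₃)
        (4 * (3 * ℘[hexPair] w ^ 2 * ℘'[hexPair] w)) w := by
      have := (((hasDerivAt_P hw').pow 3).const_mul 4).sub_const hexPair.g₃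
      simpa using this
    have h3 : (fun w => ℘'[hexPair] w ^ 2) =ᶠ[𝓝 w]
        (fun w => 4 * ℘[hexPair] w ^ 3 - hexPair.g₃) := by
      filter_upwards [compl_lattice_mem_nhds hw'] with x hx
      exact hex_rel hx
    have h4 := (h1.congr_of_eventuallyEq h3.symm).unique h2
    linear_combination h4 / 2
  have hd : deriv ℘'[hexPair] z = 6 * ℘[hexPair] z ^ 2 := by
    rcases hA'.eventually_eq_zero_or_eventually_ne_zero with h0 | hne
    · exfalso
      have hord := hA.analyticOrderAt_deriv_add_one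
      rw [deriv_weierstrassP, analyticOrderAt_eq_top.mpr h0, top_add] at hord
      have := analyticOrderAt_eq_top.mp hord.symm
      refine P_not_eventually_zero hexPair z hz (℘[hexPair] z) ?_
      filter_upwards [this] with w hw
      linear_combination hw
    · have hB : AnalyticAt ℂ (fun w => deriv ℘'[hexPair] w - 6 * ℘[hexPair] w ^ 2) z := by
        have := hA'.deriv
        fun_prop
      have hz0 : ∃ᶠ w in 𝓝[≠] z, deriv ℘'[hexPair] w - 6 * ℘[hexPair] w ^ 2 = 0 := by
        apply Eventually.frequently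
        filter_upwards [hne, mem_nhdsWithin_of_mem_nhds key] with w hw1 hw2
        rcases mul_eq_zero.mp hw2 with h | h
        · exact absurd h hw1
        · exact h
      have := (hB.frequently_zero_iff_eventually_zero.mp hz0).self_of_nhds
      linear_combination this
  rw [← hd]
  exact hA'.differentiableAt.hasDerivAt

/-- `κ` with `κ⁶ g₃ = -4`. -/
lemma exists_kappa : ∃ k : ℂ, k ^ 6 = -4 / hexPair.g₃ := IsAlgClosed.exists_pow_nat_eq _ (by norm_num)

def kappa : ℂ := exists_kappa.choose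

lemma kappa_pow : kappa ^ 6 * hexPair.g₃ = -4 := by
  have h := exists_kappa.choose_spec
  rw [show kappa = exists_kappa.choose from rfl, h]
  field_simp [hex_g3]

lemma kappa_ne_zero : kappa ≠ 0 := by
  intro h
  have := kappa_pow
  rw [h] at this
  norm_num at this

/-- `u = κ² ℘`. -/
def uu (z : ℂ) : ℂ := kappa ^ 2 * ℘[hexPair] z
/-- `v = κ³ ℘' / 2`. -/
def vv (z : ℂ) : ℂ := kappa ^ 3 * ℘'[hexPair] z / 2

lemma vv_sq {z : ℂ} (hz : z ∉ hexPair.lattice) : vv z ^ 2 = uu z ^ 3 + 1 := by
  have h1 := hex_rel hz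
  have h2 := kappa_pow
  rw [uu, vv]
  linear_combination (kappa ^ 6 / 4) * h1 - h2 / 4

lemma hasDerivAt_uu {z : ℂ} (hz : z ∉ hexPair.lattice) :
    HasDerivAt uu (kappa⁻¹ * (2 * vv z)) z := by
  have := (hasDerivAt_P hz).const_mul (kappa ^ 2)
  refine HasDerivAt.congr_deriv this ?_
  have hk := kappa_ne_zero
  simp only [vv]
  field_simp

lemma hasDerivAt_vv {z : ℂ} (hz : z ∉ hexPair.lattice) :
    HasDerivAt vv (kappa⁻¹ * (3 * uu z ^ 2)) z := by
  have := ((hasDerivAt_P' hz).const_mul (kappa ^ 3)).div_const 2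
  refine HasDerivAt.congr_deriv this ?_
  have hk := kappa_ne_zero
  simp only [uu]
  field_simp
  ring

lemma uu_add_mem (z : ℂ) {l : ℂ} (hl : l ∈ hexPair.lattice) : uu (z + l) = uu z := by
  have := hexPair.weierstrassP_add_coe z ⟨l, hl⟩
  simp only at this
  rw [uu, uu, this]

lemma vv_add_mem (z : ℂ) {l : ℂ} (hl : l ∈ hexPair.lattice) : vv (z + l) = vv z := by
  have := hexPair.derivWeierstrassP_add_coe z ⟨l, hl⟩
  simp only at this
  rw [vv, vv, this]

lemma uu_neg (z : ℂ) : uu (-z) = uu z := by rw [uu, uu, hexPair.weierstrassP_neg]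
lemma vv_neg (z : ℂ) : vv (-z) = - vv z := by rw [vv, vv, hexPair.derivWeierstrassP_neg]; ring

lemma continuousAt_uu {z : ℂ} (hz : z ∉ hexPair.lattice) : ContinuousAt uu z :=
  (hasDerivAt_uu hz).continuousAt
lemma continuousAt_vv {z : ℂ} (hz : z ∉ hexPair.lattice) : ContinuousAt vv z :=
  (hasDerivAt_vv hz).continuousAt

/-- `℘` and `℘'` near `0`: principal parts. -/
lemma exists_near_zero : ∃ h k : ℂ → ℂ, AnalyticAt ℂ h 0 ∧ AnalyticAt ℂ k 0 ∧
    (∀ z, ℘[hexPair] z = h z + 1 / z ^ 2) ∧ (∀ z, ℘'[hexPair] z = k z - 2 / z ^ 3) := by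
  refine ⟨hexPair.weierstrassPExcept 0, hexPair.derivWeierstrassPExcept 0,
    hexPair.analyticAt_weierstrassPExcept 0, hexPair.analyticAt_derivWeierstrassPExcept 0, ?_, ?_⟩
  · intro z
    have := hexPair.weierstrassPExcept_def ⟨0, zero_mem _⟩ z
    simp only at this
    rw [this]
    simp
  · intro z
    have := hexPair.derivWeierstrassPExcept_def ⟨0, zero_mem _⟩ z
    simp only at this
    rw [this]
    simp

open scoped Classical in
/-- `u/v`, extended by `0` on the lattice. -/
def qq (z : ℂ) : ℂ := if z ∈ hexPair.lattice then 0 else uu z / vv z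
open scoped Classical in
/-- `1/v`, extended by `0` on the lattice. -/
def rr (z : ℂ) : ℂ := if z ∈ hexPair.lattice then 0 else 1 / vv z

lemma qq_add_mem (z : ℂ) {l : ℂ} (hl : l ∈ hexPair.lattice) : qq (z + l) = qq z := by
  have : z + l ∈ hexPair.lattice ↔ z ∈ hexPair.lattice := by
    constructor
    · intro h; simpa using sub_mem h hl
    · intro h; exact add_mem h hl
  by_cases h : z ∈ hexPair.lattice
  · simp [qq, h, this.mpr h]
  · simp [qq, h, mt this.mp h, uu_add_mem z hl, vv_add_mem z hl]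

lemma rr_add_mem (z : ℂ) {l : ℂ} (hl : l ∈ hexPair.lattice) : rr (z + l) = rr z := by
  have : z + l ∈ hexPair.lattice ↔ z ∈ hexPair.lattice := by
    constructor
    · intro h; simpa using sub_mem h hl
    · intro h; exact add_mem h hl
  by_cases h : z ∈ hexPair.lattice
  · simp [rr, h, this.mpr h]
  · simp [rr, h, mt this.mp h, vv_add_mem z hl]

lemma eventually_notMem_lattice : ∀ᶠ z in 𝓝[≠] (0 : ℂ), z ∉ hexPair.lattice := by
  filter_upwards [self_mem_nhdsWithin,
    mem_nhdsWithin_of_mem_nhds (hexPair.compl_lattice_sdiff_singleton_mem_nhds 0)] with w hw hw'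
  exact fun hmem => hw' ⟨hmem, hw⟩

lemma near_zero_package : HasDerivAt qq (kappa⁻¹ * (-1)) 0 ∧ HasDerivAt rr 0 0 ∧
    (∀ᶠ z in 𝓝[≠] (0 : ℂ), vv z ≠ 0) ∧ Tendsto (fun z => ‖uu z‖) (𝓝[≠] 0) atTop := by
  obtain ⟨h, k, hh, hk, hP, hP'⟩ := exists_near_zero
  have hk0 := kappa_ne_zero
  set Q : ℂ → ℂ := fun z => z * (kappa⁻¹ * 2 * (z ^ 2 * h z + 1) / (z ^ 3 * k z - 2)) with hQ
  set R : ℂ → ℂ := fun z => z * (z ^ 2 * (kappa⁻¹ ^ 3 * 2) / (z ^ 3 * k z - 2)) with hR
  have hden : ∀ᶠ z in 𝓝 (0 : ℂ), z ^ 3 * k z - 2 ≠ 0 := by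
    have hc : ContinuousAt (fun z => z ^ 3 * k z - 2) 0 := by
      have := hk.continuousAt
      fun_prop
    apply hc.eventually_ne
    norm_num
  have hvv : ∀ᶠ z in 𝓝[≠] (0 : ℂ), vv z ≠ 0 := by
    filter_upwards [self_mem_nhdsWithin, mem_nhdsWithin_of_mem_nhds hden] with z hz hz2
    have hz' : z ≠ 0 := hz
    rw [vv, hP']
    have : kappa ^ 3 * (k z - 2 / z ^ 3) / 2 = kappa ^ 3 * (z ^ 3 * k z - 2) / (2 * z ^ 3) := by
      field_simp
    rw [this]
    refine div_ne_zero (mul_ne_zero (pow_ne_zero _ hk0) hz2) (mul_ne_zero two_ne_zero (pow_ne_zero _ hz'))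
  have hqQ : qq =ᶠ[𝓝 0] Q := by
    have h1 : ∀ᶠ z in 𝓝[≠] (0 : ℂ), qq z = Q z := by
      filter_upwards [self_mem_nhdsWithin, mem_nhdsWithin_of_mem_nhds hden,
        eventually_notMem_lattice] with z hz hz2 hz3
      have hz' : z ≠ 0 := hz
      simp only [qq, hz3, if_false, hQ, uu, vv, hP, hP']
      have e1 : kappa ^ 3 * (k z - 2 / z ^ 3) / 2 = kappa ^ 3 * (z ^ 3 * k z - 2) / (2 * z ^ 3) := by
        field_simp
      rw [e1]
      field_simp
    rw [eventually_nhdsWithin_iff] at h1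
    filter_upwards [h1] with z hz
    by_cases h0 : z = 0
    · subst h0
      simp [qq, hQ]
    · exact hz h0
  have hrR : rr =ᶠ[𝓝 0] R := by
    have h1 : ∀ᶠ z in 𝓝[≠] (0 : ℂ), rr z = R z := by
      filter_upwards [self_mem_nhdsWithin, mem_nhdsWithin_of_mem_nhds hden,
        eventually_notMem_lattice] with z hz hz2 hz3
      have hz' : z ≠ 0 := hz
      simp only [rr, hz3, if_false, hR, vv, hP']
      have e1 : kappa ^ 3 * (k z - 2 / z ^ 3) / 2 = kappa ^ 3 * (z ^ 3 * k z - 2) / (2 * z ^ 3) := by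
        field_simp
      rw [e1]
      field_simp
    rw [eventually_nhdsWithin_iff] at h1
    filter_upwards [h1] with z hz
    by_cases h0 : z = 0
    · subst h0
      simp [rr, hR]
    · exact hz h0
  have hhd := hh.differentiableAt
  have hkd := hk.differentiableAt
  refine ⟨?_, ?_, hvv, ?_⟩
  · have hG : DifferentiableAt ℂ (fun z => kappa⁻¹ * 2 * (z ^ 2 * h z + 1) / (z ^ 3 * k z - 2)) 0 := by
      refine DifferentiableAt.div (by fun_prop) (by fun_prop) (by norm_num)
    have := (hasDerivAt_id (0 : ℂ)).mul hG.hasDerivAt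
    have h2 : HasDerivAt Q (kappa⁻¹ * (-1)) 0 := by
      refine HasDerivAt.congr_deriv this ?_
      simp
      ring
    exact h2.congr_of_eventuallyEq hqQ
  · have hG : DifferentiableAt ℂ (fun z => z ^ 2 * (kappa⁻¹ ^ 3 * 2) / (z ^ 3 * k z - 2)) 0 := by
      refine DifferentiableAt.div (by fun_prop) (by fun_prop) (by norm_num)
    have := (hasDerivAt_id (0 : ℂ)).mul hG.hasDerivAt
    have h2 : HasDerivAt R 0 0 := by
      refine HasDerivAt.congr_deriv this ?_
      simp
    exact h2.congr_of_eventuallyEq hrR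
  · -- `|u| → ∞`
    have h1 : Tendsto (fun z : ℂ => ‖kappa ^ 2 * (z ^ 2 * h z + 1)‖) (𝓝[≠] 0) (𝓝 ‖kappa ^ 2‖) := by
      have hc : ContinuousAt (fun z : ℂ => ‖kappa ^ 2 * (z ^ 2 * h z + 1)‖) 0 := by
        have := hh.continuousAt
        fun_prop
      have := hc.tendsto.mono_left (nhdsWithin_le_nhds (s := {0}ᶜ))
      simpa using this
    have h2 : Tendsto (fun z : ℂ => ‖z ^ 2‖⁻¹) (𝓝[≠] 0) atTop := by
      have h3 : Tendsto (fun z : ℂ => ‖z ^ 2‖) (𝓝[≠] 0) (𝓝[>] 0) := by
        rw [tendsto_nhdsWithin_iff]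
        constructor
        · have hc : ContinuousAt (fun z : ℂ => ‖z ^ 2‖) 0 := by fun_prop
          have := hc.tendsto.mono_left (nhdsWithin_le_nhds (s := {0}ᶜ))
          simpa using this
        · filter_upwards [self_mem_nhdsWithin] with z hz
          have hz' : z ≠ 0 := hz
          simp [hz']
      exact tendsto_inv_nhdsGT_zero.comp h3
    have h4 := h1.pos_mul_atTop (norm_pos_iff.mpr (pow_ne_zero 2 hk0)) h2
    refine h4.congr' ?_
    filter_upwards [self_mem_nhdsWithin] with z hz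
    have hz' : z ≠ 0 := hz
    rw [uu, hP, ← norm_inv, ← norm_mul]
    congr 1
    field_simp


lemma qq_of_mem {z : ℂ} (hz : z ∈ hexPair.lattice) : qq z = 0 := by simp [qq, hz]
lemma rr_of_mem {z : ℂ} (hz : z ∈ hexPair.lattice) : rr z = 0 := by simp [rr, hz]
lemma qq_of_notMem {z : ℂ} (hz : z ∉ hexPair.lattice) : qq z = uu z / vv z := by simp [qq, hz]
lemma rr_of_notMem {z : ℂ} (hz : z ∉ hexPair.lattice) : rr z = 1 / vv z := by simp [rr, hz]

/-- Points where the chart at infinity is valid. -/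
def Good (z : ℂ) : Prop := z ∈ hexPair.lattice ∨ vv z ≠ 0

lemma hasDerivAt_qq {z : ℂ} (hz : Good z) :
    HasDerivAt qq (kappa⁻¹ * (-1 + 3 * rr z ^ 2)) z := by
  by_cases hmem : z ∈ hexPair.lattice
  · have h := near_zero_package.1
    have h2 : HasDerivAt (fun w => qq (w + (-z))) (kappa⁻¹ * (-1)) z := by
      have h3 : HasDerivAt qq (kappa⁻¹ * (-1)) (z + (-z)) := by simpa using h
      exact h3.comp_add_const z (-z)
    have h4 : (fun w => qq (w + (-z))) = qq := by
      ext w
      exact qq_add_mem w (neg_mem hmem)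
    rw [h4] at h2
    rw [rr_of_mem hmem]
    simpa using h2
  · have hv : vv z ≠ 0 := by
      rcases hz with h | h
      · exact absurd h hmem
      · exact h
    have h1 := (hasDerivAt_uu hmem).div (hasDerivAt_vv hmem) hv
    have h2 : qq =ᶠ[𝓝 z] (uu / vv) := by
      filter_upwards [compl_lattice_mem_nhds hmem] with w hw
      exact qq_of_notMem hw
    have h3 := h1.congr_of_eventuallyEq h2
    refine h3.congr_deriv ?_
    rw [rr_of_notMem hmem]
    have hk := kappa_ne_zero
    have hsq := vv_sq hmem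
    field_simp
    linear_combination 3 * hsq

lemma hasDerivAt_rr {z : ℂ} (hz : Good z) :
    HasDerivAt rr (kappa⁻¹ * (-3 * qq z ^ 2)) z := by
  by_cases hmem : z ∈ hexPair.lattice
  · have h := near_zero_package.2.1
    have h2 : HasDerivAt (fun w => rr (w + (-z))) 0 z := by
      have h3 : HasDerivAt rr 0 (z + (-z)) := by simpa using h
      exact h3.comp_add_const z (-z)
    have h4 : (fun w => rr (w + (-z))) = rr := by
      ext w
      exact rr_add_mem w (neg_mem hmem)
    rw [h4] at h2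
    rw [qq_of_mem hmem]
    simpa using h2
  · have hv : vv z ≠ 0 := by
      rcases hz with h | h
      · exact absurd h hmem
      · exact h
    have h1 := (hasDerivAt_const z (1 : ℂ)).div (hasDerivAt_vv hmem) hv
    have h2 : rr =ᶠ[𝓝 z] ((fun _ => (1:ℂ)) / vv) := by
      filter_upwards [compl_lattice_mem_nhds hmem] with w hw
      exact rr_of_notMem hw
    have h3 := h1.congr_of_eventuallyEq h2
    refine h3.congr_deriv ?_
    rw [qq_of_notMem hmem]
    have hk := kappa_ne_zero
    field_simp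
    ring

lemma eventually_good {z : ℂ} (hz : Good z) : ∀ᶠ w in 𝓝 z, Good w := by
  by_cases hmem : z ∈ hexPair.lattice
  · have h := near_zero_package.2.2.1
    rw [eventually_nhdsWithin_iff] at h
    have h2 : Tendsto (fun w => w - z) (𝓝 z) (𝓝 0) := by
      have : ContinuousAt (fun w => w - z) z := by fun_prop
      simpa using this.tendsto
    filter_upwards [h2.eventually h] with w hw
    by_cases hwz : w = z
    · left; rwa [hwz]
    · right
      have h3 := hw (by simpa [sub_eq_zero] using hwz)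
      have h4 := vv_add_mem (w - z) hmem
      rw [sub_add_cancel] at h4
      rwa [h4]
  · have hv : vv z ≠ 0 := by
      rcases hz with h | h
      · exact absurd h hmem
      · exact h
    filter_upwards [(continuousAt_vv hmem).eventually_ne hv] with w hw
    exact Or.inr hw

end Pool.Agent.Helper31
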