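import Mathlib
import Pool.Agent.Helper31.Weier2

open Complex Filter Topology PeriodPair Set

noncomputable section

namespace Pool.Agent.Helper31

/-- finite chart vector field -/
def FF (y : ℂ × ℂ) : ℂ × ℂ := (2 * y.2, 3 * y.1 ^ 2)
/-- infinite chart vector field -/
def GG (y : ℂ × ℂ) : ℂ × ℂ := (-1 + 3 * y.2 ^ 2, -3 * y.1 ^ 2)

lemma contDiff_FF : ContDiff ℝ 1 FF := by
  unfold FF; fun_prop

lemma contDiff_GG : ContDiff ℝ 1 GG := by
  unfold GG; fun_prop

/-- derivative of `(u,v)` along a real path -/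
lemma hasDerivWithinAt_uv {s : Set ℝ} {ζ : ℝ → ℂ} {c : ℂ} {t : ℝ}
    (hζ : HasDerivWithinAt ζ (kappa * c) s t) (ht : ζ t ∉ hexPair.lattice) :
    HasDerivWithinAt (fun t => (uu (ζ t), vv (ζ t))) (c • FF (uu (ζ t), vv (ζ t))) s t := by
  have hk := kappa_ne_zero
  have h1 := (hasDerivAt_uu ht).comp_hasDerivWithinAt t hζ
  have h2 := (hasDerivAt_vv ht).comp_hasDerivWithinAt t hζ
  have h3 := h1.prodMk h2
  refine h3.congr_deriv ?_
  ext
  · simp only [FF, Prod.smul_mk, smul_eq_mul]
    field_simp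
  · simp only [FF, Prod.smul_mk, smul_eq_mul]
    field_simp

lemma hasDerivWithinAt_qr {s : Set ℝ} {ζ : ℝ → ℂ} {c : ℂ} {t : ℝ}
    (hζ : HasDerivWithinAt ζ (kappa * c) s t) (ht : Good (ζ t)) :
    HasDerivWithinAt (fun t => (qq (ζ t), rr (ζ t))) (c • GG (qq (ζ t), rr (ζ t))) s t := by
  have hk := kappa_ne_zero
  have h1 := (hasDerivAt_qq ht).comp_hasDerivWithinAt t hζ
  have h2 := (hasDerivAt_rr ht).comp_hasDerivWithinAt t hζ
  have h3 := h1.prodMk h2
  refine h3.congr_deriv ?_
  ext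
  · simp only [GG, Prod.smul_mk, smul_eq_mul]
    field_simp
  · simp only [GG, Prod.smul_mk, smul_eq_mul]
    field_simp

lemma uv_inj {z₁ z₂ : ℂ} (h₁ : z₁ ∉ hexPair.lattice) (h₂ : z₂ ∉ hexPair.lattice)
    (hu : uu z₁ = uu z₂) (hv : vv z₁ = vv z₂) : z₂ - z₁ ∈ hexPair.lattice := by
  by_contra hd
  set d := z₂ - z₁ with hd'
  have hz2 : z₂ = z₁ + d := by rw [hd']; ring
  -- local equality
  have hloc : ∀ᶠ w in 𝓝 z₁, uu w = uu (w + d) := by
    obtain ⟨e1, he1, hb1⟩ := Metric.mem_nhds_iff.mp (compl_lattice_mem_nhds h₁)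
    obtain ⟨e2, he2, hb2⟩ := Metric.mem_nhds_iff.mp (compl_lattice_mem_nhds h₂)
    filter_upwards [Metric.ball_mem_nhds z₁ (lt_min he1 he2)] with w hw
    have hk := kappa_ne_zero
    set c : ℂ := kappa⁻¹ * (w - z₁) with hc
    have hseg : ∀ t ∈ Icc (0:ℝ) 1, ‖(t : ℂ) * (w - z₁)‖ < min e1 e2 := by
      intro t ht
      rw [Metric.mem_ball, dist_eq_norm] at hw
      rw [norm_mul, Complex.norm_real, Real.norm_of_nonneg ht.1]
      calc t * ‖w - z₁‖ ≤ 1 * ‖w - z₁‖ := by gcongr; exact ht.2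
        _ = ‖w - z₁‖ := one_mul _
        _ < _ := hw
    have hder : ∀ (p : ℂ) (s : Set ℝ) (t : ℝ),
        HasDerivWithinAt (fun t : ℝ => p + (t : ℂ) * (w - z₁)) (kappa * c) s t := by
      intro p s t
      have : HasDerivAt (fun t : ℝ => p + (t : ℂ) * (w - z₁)) (1 * (w - z₁)) t := by
        exact ((Complex.ofRealCLM.hasDerivAt (x := t)).mul_const (w - z₁)).const_add p
      refine (this.congr_deriv ?_).hasDerivWithinAt
      rw [hc]; field_simp
    have hmem1 : ∀ t ∈ Icc (0:ℝ) 1, z₁ + (t : ℂ) * (w - z₁) ∉ hexPair.lattice := by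
      intro t ht
      apply hb1
      rw [Metric.mem_ball, dist_eq_norm, add_sub_cancel_left]
      exact (hseg t ht).trans_le (min_le_left _ _)
    have hmem2 : ∀ t ∈ Icc (0:ℝ) 1, z₂ + (t : ℂ) * (w - z₁) ∉ hexPair.lattice := by
      intro t ht
      apply hb2
      rw [Metric.mem_ball, dist_eq_norm, add_sub_cancel_left]
      exact (hseg t ht).trans_le (min_le_right _ _)
    have := ode_unique contDiff_FF (a := 0) (b := 1) (t₀ := 0) (by simp) (c := fun _ => c)
      continuousOn_const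
      (f := fun t => (uu (z₁ + (t : ℂ) * (w - z₁)), vv (z₁ + (t : ℂ) * (w - z₁))))
      (g := fun t => (uu (z₂ + (t : ℂ) * (w - z₁)), vv (z₂ + (t : ℂ) * (w - z₁))))
      (fun t ht => hasDerivWithinAt_uv (hder z₁ _ t) (hmem1 t ht))
      (fun t ht => hasDerivWithinAt_uv (hder z₂ _ t) (hmem2 t ht))
      (by simp [hu, hv])
    have h1 := this (show (1:ℝ) ∈ Icc (0:ℝ) 1 by simp)
    simp only [Prod.mk.injEq] at h1
    have h2 := h1.1
    push_cast at h2
    rw [show z₁ + 1 * (w - z₁) = w by ring, show z₂ + 1 * (w - z₁) = w + d by rw [hd']; ring] at h2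
    exact h2
  -- identity theorem
  set S : Set ℂ := ((hexPair.lattice : Set ℂ) ∪ (fun w => w + d) ⁻¹' (hexPair.lattice : Set ℂ))ᶜ
    with hS
  have hcount : (hexPair.lattice : Set ℂ).Countable :=
    countable_of_Lindelof_of_discrete (X := hexPair.lattice)
  have hpre : IsPreconnected S := by
    refine (Set.Countable.isConnected_compl_of_one_lt_rank (by simp) ?_).2
    refine hcount.union (hcount.preimage_of_injOn ?_)
    intro a _ b _ hab
    simpa using hab
  have hA1 : AnalyticOnNhd ℂ uu S := by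
    intro w hw
    have hw' : w ∉ hexPair.lattice := fun h => hw (Or.inl h)
    have := hexPair.analyticOnNhd_weierstrassP w hw'
    unfold uu
    fun_prop
  have hA2 : AnalyticOnNhd ℂ (fun w => uu (w + d)) S := by
    intro w hw
    have hw' : w + d ∉ hexPair.lattice := fun h => hw (Or.inr h)
    have h1 := hexPair.analyticOnNhd_weierstrassP (w + d) hw'
    have h2 : AnalyticAt ℂ (fun w => w + d) w := by fun_prop
    have h3 : AnalyticAt ℂ (fun w => ℘[hexPair] (w + d)) w := AnalyticAt.fun_comp h1 h2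
    unfold uu
    fun_prop
  have hz1S : z₁ ∈ S := by
    intro h
    rcases h with h | h
    · exact h₁ h
    · apply h₂
      rw [hz2]
      exact h
  have hEq : EqOn uu (fun w => uu (w + d)) S :=
    hA1.eqOn_of_preconnected_of_eventuallyEq hA2 hpre hz1S hloc
  -- contradiction at `0`
  have hdc : ContinuousAt (fun w => ‖uu (w + d)‖) 0 := by
    have h1 : ContinuousAt uu (0 + d) := by
      rw [zero_add]
      exact continuousAt_uu hd
    have h2 : ContinuousAt (fun w : ℂ => w + d) 0 := by fun_prop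
    exact (ContinuousAt.comp (f := fun w : ℂ => w + d) (x := (0:ℂ)) h1 h2).norm
  have hnear : ∀ᶠ w in 𝓝[≠] (0:ℂ), ‖uu w‖ = ‖uu (w + d)‖ := by
    have h1 : ∀ᶠ w in 𝓝 (0:ℂ), w + d ∉ hexPair.lattice := by
      have h2 : ContinuousAt (fun w : ℂ => w + d) 0 := by fun_prop
      have h3 : (hexPair.lattice : Set ℂ)ᶜ ∈ 𝓝 ((0:ℂ) + d) := by
        rw [zero_add]; exact compl_lattice_mem_nhds hd
      exact h2 h3
    filter_upwards [eventually_notMem_lattice, mem_nhdsWithin_of_mem_nhds h1] with w hw hw2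
    have : w ∈ S := by
      intro h
      rcases h with h | h
      · exact hw h
      · exact hw2 h
    have h4 := hEq this
    simp only at h4
    rw [h4]
  have hT := near_zero_package.2.2.2
  have hT2 : Tendsto (fun w => ‖uu (w + d)‖) (𝓝[≠] 0) atTop := hT.congr' hnear
  have hT3 : Tendsto (fun w => ‖uu (w + d)‖) (𝓝[≠] 0) (𝓝 ‖uu (0 + d)‖) :=
    hdc.tendsto.mono_left nhdsWithin_le_nhds
  exact not_tendsto_atTop_of_tendsto_nhds hT3 hT2

lemma uu_surj (c : ℂ) : ∃ z, z ∉ hexPair.lattice ∧ uu z = c := by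
  classical
  by_contra hcon
  push Not at hcon
  set H : ℂ → ℂ := fun z => if z ∈ hexPair.lattice then 0 else 1 / (uu z - c) with hH
  have hper : ∀ z l, l ∈ hexPair.lattice → H (z + l) = H z := by
    intro z l hl
    have : z + l ∈ hexPair.lattice ↔ z ∈ hexPair.lattice := by
      constructor
      · intro h; simpa using sub_mem h hl
      · intro h; exact add_mem h hl
    by_cases h : z ∈ hexPair.lattice
    · simp [hH, h, this.mpr h]
    · simp [hH, h, mt this.mp h, uu_add_mem z hl]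
  have hoff : ∀ z, z ∉ hexPair.lattice → DifferentiableAt ℂ H z := by
    intro z hz
    have h1 : DifferentiableAt ℂ (fun z => 1 / (uu z - c)) z := by
      have := (hasDerivAt_uu hz).differentiableAt
      refine DifferentiableAt.div (by fun_prop) (by fun_prop) (sub_ne_zero.mpr (hcon z hz))
    refine h1.congr_of_eventuallyEq ?_
    filter_upwards [compl_lattice_mem_nhds hz] with w hw
    have hw' : w ∉ hexPair.lattice := hw
    simp [hH, hw']
  have hcont0 : ContinuousAt H 0 := by
    have h0 : H 0 = 0 := by simp [hH]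
    rw [continuousAt_iff_punctured_nhds, h0]
    have h1 : Tendsto (fun z => ‖uu z - c‖) (𝓝[≠] 0) atTop := by
      have h2 : Tendsto (fun z => ‖uu z‖ - ‖c‖) (𝓝[≠] 0) atTop :=
        tendsto_atTop_add_const_right _ _ near_zero_package.2.2.2
      exact tendsto_atTop_mono (fun z => norm_sub_norm_le _ _) h2
    have h3 : Tendsto (fun z => ‖uu z - c‖⁻¹) (𝓝[≠] 0) (𝓝 0) := h1.inv_tendsto_atTop
    rw [tendsto_zero_iff_norm_tendsto_zero]
    refine h3.congr' ?_
    filter_upwards [eventually_notMem_lattice] with z hz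
    simp [hH, hz]
  have hcont : ∀ l ∈ hexPair.lattice, ContinuousAt H l := by
    intro l hl
    have h1 : H = fun z => H (z + (-l)) := by
      ext z; exact (hper z (-l) (neg_mem hl)).symm
    rw [h1]
    have h2 : ContinuousAt H (l + (-l)) := by simpa using hcont0
    have h3 : ContinuousAt (fun z : ℂ => z + (-l)) l := by fun_prop
    exact ContinuousAt.comp (f := fun z : ℂ => z + (-l)) (x := l) h2 h3
  have hdiff : Differentiable ℂ H := by
    intro z
    by_cases hz : z ∈ hexPair.lattice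
    · apply AnalyticAt.differentiableAt
      apply Complex.analyticAt_of_differentiable_on_punctured_nhds_of_continuousAt _ (hcont z hz)
      filter_upwards [self_mem_nhdsWithin,
        mem_nhdsWithin_of_mem_nhds (hexPair.compl_lattice_sdiff_singleton_mem_nhds z)] with w hw hw'
      exact hoff w (fun hmem => hw' ⟨hmem, hw⟩)
    · exact hoff z hz
  have hb := (IsZLattice.isCompact_range_of_periodic hexPair.lattice H hdiff.continuous
    (fun z w hw => hper z w hw)).isBounded
  have hconst := hdiff.apply_eq_apply_of_bounded hb (hexPair.ω₁ / 2) 0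
  have h1 : H (hexPair.ω₁ / 2) = 1 / (uu (hexPair.ω₁ / 2) - c) := by
    simp [hH, half_notMem]
  have h2 : H 0 = 0 := by simp [hH]
  rw [h1, h2] at hconst
  have := hcon _ half_notMem
  have h3 := sub_ne_zero.mpr this
  simp [h3] at hconst

lemma uv_surj {u v : ℂ} (h : v ^ 2 = u ^ 3 + 1) :
    ∃ z, z ∉ hexPair.lattice ∧ uu z = u ∧ vv z = v := by
  obtain ⟨z, hz, hu⟩ := uu_surj u
  have h1 := vv_sq hz
  rw [hu, ← h] at h1
  rcases sq_eq_sq_iff_eq_or_eq_neg.mp h1 with h2 | h2
  · exact ⟨z, hz, hu, h2⟩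
  · refine ⟨-z, fun hm => hz (by simpa using neg_mem hm), by rw [uu_neg, hu], by rw [vv_neg, h2, neg_neg]⟩

end Pool.Agent.Helper31
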