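import Mathlib
import Pool.Agent.Helper31.Weier3

open Complex Filter Topology PeriodPair Set

noncomputable section

namespace Pool.Agent.Helper31

/-- homogeneous coordinate vectors of points of `E : Y² Z = X³ + Z³` -/
def OnE (p : Fin 3 → ℂ) : Prop := p ≠ 0 ∧ p 1 ^ 2 * p 2 = p 0 ^ 3 + p 2 ^ 3

/-- `z` is a parameter of the point `[p]` of `E`. -/
def Match (z : ℂ) (p : Fin 3 → ℂ) : Prop :=
  (p 2 ≠ 0 ∧ z ∉ hexPair.lattice ∧ uu z = p 0 / p 2 ∧ vv z = p 1 / p 2) ∨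
  (p 2 = 0 ∧ z ∈ hexPair.lattice)

lemma OnE.ne {p : Fin 3 → ℂ} (h : OnE p) (h2 : p 2 = 0) : p 0 = 0 ∧ p 1 ≠ 0 := by
  obtain ⟨hp, he⟩ := h
  rw [h2] at he
  have h0 : p 0 = 0 := by
    have : p 0 ^ 3 = 0 := by linear_combination -he
    exact pow_eq_zero_iff (by norm_num) |>.mp this
  refine ⟨h0, fun h1 => hp ?_⟩
  ext i
  fin_cases i
  · exact h0
  · exact h1
  · exact h2

lemma exists_match {p : Fin 3 → ℂ} (h : OnE p) : ∃ z, Match z p := by
  by_cases h2 : p 2 = 0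
  · exact ⟨0, Or.inr ⟨h2, zero_mem _⟩⟩
  · obtain ⟨z, hz, hu, hv⟩ := uv_surj (u := p 0 / p 2) (v := p 1 / p 2) (by
      have := h.2
      field_simp
      linear_combination this)
    exact ⟨z, Or.inl ⟨h2, hz, hu, hv⟩⟩

lemma match_unique {z z' : ℂ} {p p' : Fin 3 → ℂ} (h : Match z p) (h' : Match z' p')
    {c : ℂ} (hc : c ≠ 0) (hp : p' = c • p) : z' - z ∈ hexPair.lattice := by
  subst hp
  rcases h with ⟨h2, hz, hu, hv⟩ | ⟨h2, hz⟩
  · rcases h' with ⟨h2', hz', hu', hv'⟩ | ⟨h2', hz'⟩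
    · refine uv_inj hz hz' ?_ ?_
      · rw [hu, hu']
        simp only [Pi.smul_apply, smul_eq_mul]
        field_simp
      · rw [hv, hv']
        simp only [Pi.smul_apply, smul_eq_mul]
        field_simp
    · exfalso
      simp only [Pi.smul_apply, smul_eq_mul] at h2'
      rcases mul_eq_zero.mp h2' with h | h
      · exact hc h
      · exact h2 h
  · rcases h' with ⟨h2', hz', hu', hv'⟩ | ⟨h2', hz'⟩
    · exfalso
      apply h2'
      simp [h2]
    · exact sub_mem hz' hz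

lemma match_add_mem {z : ℂ} {p : Fin 3 → ℂ} (h : Match z p) {l : ℂ} (hl : l ∈ hexPair.lattice) :
    Match (z + l) p := by
  rcases h with ⟨h2, hz, hu, hv⟩ | ⟨h2, hz⟩
  · refine Or.inl ⟨h2, fun hm => hz (by simpa using sub_mem hm hl), ?_, ?_⟩
    · rw [uu_add_mem z hl, hu]
    · rw [vv_add_mem z hl, hv]
  · exact Or.inr ⟨h2, add_mem hz hl⟩

lemma match_iff_inf {z : ℂ} {p : Fin 3 → ℂ} (h : OnE p) (h1 : p 1 ≠ 0) :
    Match z p ↔ Good z ∧ qq z = p 0 / p 1 ∧ rr z = p 2 / p 1 := by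
  constructor
  · rintro (⟨h2, hz, hu, hv⟩ | ⟨h2, hz⟩)
    · have hv0 : vv z ≠ 0 := by rw [hv]; exact div_ne_zero h1 h2
      refine ⟨Or.inr hv0, ?_, ?_⟩
      · rw [qq_of_notMem hz, hu, hv]; field_simp
      · rw [rr_of_notMem hz, hv]; field_simp
    · have h0 := (h.ne h2).1
      refine ⟨Or.inl hz, ?_, ?_⟩
      · rw [qq_of_mem hz, h0]; simp
      · rw [rr_of_mem hz, h2]; simp
  · rintro ⟨hg, hq, hr⟩
    by_cases hz : z ∈ hexPair.lattice
    · right
      rw [rr_of_mem hz] at hr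
      refine ⟨?_, hz⟩
      have := hr.symm
      rw [div_eq_zero_iff] at this
      exact this.resolve_right h1
    · left
      have hv0 : vv z ≠ 0 := hg.resolve_left hz
      rw [rr_of_notMem hz] at hr
      rw [qq_of_notMem hz] at hq
      have h2 : p 2 ≠ 0 := by
        intro h2
        rw [h2, zero_div, div_eq_zero_iff] at hr
        rcases hr with hr | hr
        · exact one_ne_zero hr
        · exact hv0 hr
      have hv : vv z = p 1 / p 2 := by
        field_simp at hr ⊢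
        linear_combination -hr
      refine ⟨h2, hz, ?_, hv⟩
      rw [hv] at hq
      field_simp at hq ⊢
      linear_combination hq

/-- shrinking neighbourhoods in `[0,1]` to closed intervals -/
lemma exists_Icc {P : ℝ → Prop} {t₀ : ℝ} (ht₀ : t₀ ∈ Icc (0:ℝ) 1)
    (h : ∀ᶠ t in 𝓝[Icc 0 1] t₀, P t) :
    ∃ a b, t₀ ∈ Icc a b ∧ Icc a b ⊆ Icc (0:ℝ) 1 ∧ Icc a b ∈ 𝓝[Icc 0 1] t₀ ∧ ∀ t ∈ Icc a b, P t := by
  rw [Filter.Eventually, Metric.mem_nhdsWithin_iff] at h
  obtain ⟨e, he, hP'⟩ := h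
  have hP : ∀ t, dist t t₀ < e → t ∈ Icc (0:ℝ) 1 → P t := fun t h1 h2 => hP' ⟨h1, h2⟩
  refine ⟨max 0 (t₀ - e / 2), min 1 (t₀ + e / 2), ?_, ?_, ?_, ?_⟩
  · constructor
    · exact max_le ht₀.1 (by linarith)
    · exact le_min ht₀.2 (by linarith)
  · exact Icc_subset_Icc (le_max_left _ _) (min_le_left _ _)
  · rw [Metric.mem_nhdsWithin_iff]
    refine ⟨e / 2, by linarith, ?_⟩
    rintro t ⟨ht, ht1⟩
    rw [Metric.mem_ball, Real.dist_eq, abs_lt] at ht
    exact ⟨max_le ht1.1 (by linarith), le_min ht1.2 (by linarith)⟩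
  · intro t ht
    have h1 := (le_max_right _ _).trans ht.1
    have h2 := ht.2.trans (min_le_right _ _)
    refine hP t ?_ ⟨(le_max_left _ _).trans ht.1, ht.2.trans (min_le_left _ _)⟩
    rw [Real.dist_eq, abs_lt]
    constructor <;> linarith

lemma cross_eqs {p v g : Fin 3 → ℂ} {w : ℂ} (h : crossProduct p v = w • g) :
    p 1 * v 2 - p 2 * v 1 = w * g 0 ∧ p 2 * v 0 - p 0 * v 2 = w * g 1 ∧
      p 0 * v 1 - p 1 * v 0 = w * g 2 := by
  refine ⟨?_, ?_, ?_⟩
  · have := congrFun h 0; simpa [cross_apply] using this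
  · have := congrFun h 1; simpa [cross_apply] using this
  · have := congrFun h 2; simpa [cross_apply] using this

/-- gradient of `Y² Z - X³ - Z³` -/
def gradE (p : Fin 3 → ℂ) : Fin 3 → ℂ := ![-3 * p 0 ^ 2, 2 * p 1 * p 2, p 1 ^ 2 - 3 * p 2 ^ 2]

/-- The local lifting lemma. -/
lemma local_lift {δ δ' : ℝ → Fin 3 → ℂ} {w J : ℝ → ℂ} {t₀ : ℝ} (ht₀ : t₀ ∈ Icc (0:ℝ) 1)
    {T : Set ℝ} (hT : T ∈ 𝓝[Icc 0 1] t₀) 
    (hE : ∀ t ∈ T ∩ Icc 0 1, OnE (δ t))
    (hδ : ∀ t ∈ T ∩ Icc (0:ℝ) 1, HasDerivWithinAt δ (δ' t) (Icc 0 1) t)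
    (hcross : ∀ t ∈ T ∩ Icc (0:ℝ) 1, crossProduct (δ t) (δ' t) = w t • gradE (δ t))
    (hJ : ∀ t ∈ Icc (0:ℝ) 1, HasDerivWithinAt J (w t) (Icc 0 1) t)
    (hw : ContinuousOn w (Icc 0 1)) {z₀ : ℂ} (hz₀ : Match z₀ (δ t₀)) :
    ∀ᶠ t in 𝓝[Icc 0 1] t₀, Match (z₀ + kappa * (J t - J t₀)) (δ t) := by
  have ht₀T : t₀ ∈ T ∩ Icc 0 1 := ⟨mem_of_mem_nhdsWithin ht₀ hT, ht₀⟩
  have hcontδ : ContinuousWithinAt δ (Icc 0 1) t₀ := (hδ t₀ ht₀T).continuousWithinAt
  have hcontJ : ContinuousWithinAt J (Icc 0 1) t₀ := (hJ t₀ ht₀).continuousWithinAt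
  have hci : ∀ i, ContinuousWithinAt (fun t => δ t i) (Icc 0 1) t₀ := fun i =>
    (continuous_apply i).continuousAt.comp_continuousWithinAt hcontδ
  have hζc : ContinuousWithinAt (fun t => z₀ + kappa * (J t - J t₀)) (Icc 0 1) t₀ := by
    fun_prop
  have hζ0 : z₀ + kappa * (J t₀ - J t₀) = z₀ := by ring
  by_cases h2 : δ t₀ 2 = 0
  · -- chart at infinity
    have hE0 := hE t₀ ht₀T
    obtain ⟨h0, h1⟩ := hE0.ne h2
    have hm := (match_iff_inf hE0 h1).mp hz₀
    have hev : ∀ᶠ t in 𝓝[Icc 0 1] t₀, t ∈ T ∧ δ t 1 ≠ 0 ∧ Good (z₀ + kappa * (J t - J t₀)) := by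
      refine (eventually_mem_set.mpr hT).and (((hci 1).eventually_ne h1).and ?_)
      have : Tendsto (fun t => z₀ + kappa * (J t - J t₀)) (𝓝[Icc 0 1] t₀) (𝓝 z₀) := by
        have := hζc.tendsto
        rwa [hζ0] at this
      exact this.eventually (eventually_good hm.1)
    obtain ⟨a, b, hab, hsub, hnh, hP⟩ := exists_Icc ht₀ hev
    have := ode_unique contDiff_GG (t₀ := t₀) hab (c := w) (hw.mono hsub)
      (f := fun t => (δ t 0 / δ t 1, δ t 2 / δ t 1))
      (g := fun t => (qq (z₀ + kappa * (J t - J t₀)), rr (z₀ + kappa * (J t - J t₀)))) ?_ ?_ ?_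
    · filter_upwards [hnh] with t ht
      have hPt := hP t ht
      have hEt := hE t ⟨hPt.1, hsub ht⟩
      rw [match_iff_inf hEt hPt.2.1]
      have h3 := this ht
      simp only [Prod.mk.injEq] at h3
      exact ⟨hPt.2.2, h3.1.symm, h3.2.symm⟩
    · intro t ht
      have hPt := hP t ht
      have hmemT : t ∈ T ∩ Icc 0 1 := ⟨hPt.1, hsub ht⟩
      have hd := (hδ t hmemT).mono hsub
      have hdi : ∀ i, HasDerivWithinAt (fun t => δ t i) (δ' t i) (Icc a b) t := by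
        intro i
        exact (hasDerivWithinAt_pi.mp hd) i
      have hq := ((hdi 0).div (hdi 1) hPt.2.1).prodMk ((hdi 2).div (hdi 1) hPt.2.1)
      refine hq.congr_deriv ?_
      obtain ⟨c0, c1, c2⟩ := cross_eqs (hcross t hmemT)
      simp [gradE] at c0 c1 c2
      have h1t := hPt.2.1
      ext
      · simp only [GG, Prod.smul_mk, smul_eq_mul]
        field_simp
        linear_combination -c2
      · simp only [GG, Prod.smul_mk, smul_eq_mul]
        field_simp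
        linear_combination c0
    · intro t ht
      have hPt := hP t ht
      refine hasDerivWithinAt_qr ?_ hPt.2.2
      have := ((hJ t (hsub ht)).mono hsub).sub_const (J t₀)
      exact (this.const_mul kappa).const_add z₀
    · simp only [hζ0]
      rw [hm.2.1, hm.2.2]
  · have hz₀' : z₀ ∉ hexPair.lattice ∧ uu z₀ = δ t₀ 0 / δ t₀ 2 ∧ vv z₀ = δ t₀ 1 / δ t₀ 2 := by
      rcases hz₀ with ⟨_, a, b, c⟩ | ⟨a, _⟩
      · exact ⟨a, b, c⟩
      · exact absurd a h2
    have hev : ∀ᶠ t in 𝓝[Icc 0 1] t₀, t ∈ T ∧ δ t 2 ≠ 0 ∧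
        z₀ + kappa * (J t - J t₀) ∉ hexPair.lattice := by
      refine (eventually_mem_set.mpr hT).and (((hci 2).eventually_ne h2).and ?_)
      have : Tendsto (fun t => z₀ + kappa * (J t - J t₀)) (𝓝[Icc 0 1] t₀) (𝓝 z₀) := by
        have := hζc.tendsto
        rwa [hζ0] at this
      exact this.eventually (compl_lattice_mem_nhds hz₀'.1)
    obtain ⟨a, b, hab, hsub, hnh, hP⟩ := exists_Icc ht₀ hev
    have := ode_unique contDiff_FF (t₀ := t₀) hab (c := w) (hw.mono hsub)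
      (f := fun t => (δ t 0 / δ t 2, δ t 1 / δ t 2))
      (g := fun t => (uu (z₀ + kappa * (J t - J t₀)), vv (z₀ + kappa * (J t - J t₀)))) ?_ ?_ ?_
    · filter_upwards [hnh] with t ht
      have hPt := hP t ht
      have h3 := this ht
      simp only [Prod.mk.injEq] at h3
      exact Or.inl ⟨hPt.2.1, hPt.2.2, h3.1.symm, h3.2.symm⟩
    · intro t ht
      have hPt := hP t ht
      have hmemT : t ∈ T ∩ Icc 0 1 := ⟨hPt.1, hsub ht⟩
      have hd := (hδ t hmemT).mono hsub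
      have hdi : ∀ i, HasDerivWithinAt (fun t => δ t i) (δ' t i) (Icc a b) t := by
        intro i
        exact (hasDerivWithinAt_pi.mp hd) i
      have hq := ((hdi 0).div (hdi 2) hPt.2.1).prodMk ((hdi 1).div (hdi 2) hPt.2.1)
      refine hq.congr_deriv ?_
      obtain ⟨c0, c1, c2⟩ := cross_eqs (hcross t hmemT)
      simp [gradE] at c0 c1 c2
      have h1t := hPt.2.1
      ext
      · simp only [FF, Prod.smul_mk, smul_eq_mul]
        field_simp
        linear_combination c1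
      · simp only [FF, Prod.smul_mk, smul_eq_mul]
        field_simp
        linear_combination -c0
    · intro t ht
      have hPt := hP t ht
      refine hasDerivWithinAt_uv ?_ hPt.2.2
      have := ((hJ t (hsub ht)).mono hsub).sub_const (J t₀)
      exact (this.const_mul kappa).const_add z₀
    · simp only [hζ0]
      rw [hz₀'.2.1, hz₀'.2.2]

end Pool.Agent.Helper31
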