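import Mathlib
import Pool.Agent.Helper31.Lift

open Complex Filter Topology PeriodPair Set

noncomputable section

namespace Pool.Agent.Helper31

lemma match_smul {z : ℂ} {p : Fin 3 → ℂ} {c : ℂ} (hc : c ≠ 0) (h : Match z p) :
    Match z (c • p) := by
  rcases h with ⟨h2, hz, hu, hv⟩ | ⟨h2, hz⟩
  · refine Or.inl ⟨?_, hz, ?_, ?_⟩
    · simp [hc, h2]
    · rw [hu]; simp only [Pi.smul_apply, smul_eq_mul]; field_simp
    · rw [hv]; simp only [Pi.smul_apply, smul_eq_mul]; field_simp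
  · exact Or.inr ⟨by simp [h2], hz⟩

/-- The global lifting lemma. -/
lemma period_lift {P : ℝ → Fin 3 → ℂ} (hP : ∀ t ∈ Icc (0:ℝ) 1, OnE (P t)) {w J : ℝ → ℂ}
    (hJ : ∀ t ∈ Icc (0:ℝ) 1, HasDerivWithinAt J (w t) (Icc 0 1) t)
    (hw : ContinuousOn w (Icc 0 1))
    (hloc : ∀ t₀ ∈ Icc (0:ℝ) 1, ∃ T ∈ 𝓝[Icc 0 1] t₀, ∃ δ δ' : ℝ → Fin 3 → ℂ,
      ∀ t ∈ T ∩ Icc (0:ℝ) 1, HasDerivWithinAt δ (δ' t) (Icc 0 1) t ∧
        crossProduct (δ t) (δ' t) = w t • gradE (δ t) ∧ ∃ c : ℂ, c ≠ 0 ∧ P t = c • δ t)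
    {z₀ z₁ : ℂ} (hz₀ : Match z₀ (P 0)) (hz₁ : Match z₁ (P 1)) :
    z₁ - z₀ - kappa * (J 1 - J 0) ∈ hexPair.lattice := by
  classical
  have hch : ∀ t : ℝ, ∃ z, t ∈ Icc (0:ℝ) 1 → Match z (P t) := by
    intro t
    by_cases ht : t ∈ Icc (0:ℝ) 1
    · obtain ⟨z, hz⟩ := exists_match (hP t ht)
      exact ⟨z, fun _ => hz⟩
    · exact ⟨0, fun h => absurd h ht⟩
  choose z hz using hch
  have h01 : (0:ℝ) ∈ Icc (0:ℝ) 1 := by simp
  have h11 : (1:ℝ) ∈ Icc (0:ℝ) 1 := by simp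
  have key : z 1 - z 0 - kappa * (J 1 - J 0) ∈ hexPair.lattice := by
    refine isPreconnected_Icc.induction₂
      (fun x y => z y - z x - kappa * (J y - J x) ∈ hexPair.lattice) ?_ ?_ ?_ h01 h11
    · intro x hx
      obtain ⟨T, hT, δ, δ', hloc'⟩ := hloc x hx
      have hxT : x ∈ T ∩ Icc 0 1 := ⟨mem_of_mem_nhdsWithin hx hT, hx⟩
      obtain ⟨c, hc, hPc⟩ := (hloc' x hxT).2.2
      have hinv : ∀ {t : ℝ} {c : ℂ}, c ≠ 0 → P t = c • δ t → δ t = c⁻¹ • P t := by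
        intro t c hc h
        rw [h, smul_smul, inv_mul_cancel₀ hc, one_smul]
      have hm : Match (z x) (δ x) := by
        rw [hinv hc hPc]
        exact match_smul (inv_ne_zero hc) (hz x hx)
      have hEδ : ∀ t ∈ T ∩ Icc (0:ℝ) 1, OnE (δ t) := by
        intro t ht
        obtain ⟨c, hc, hPc⟩ := (hloc' t ht).2.2
        rw [hinv hc hPc]
        obtain ⟨h0, h1⟩ := hP t ht.2
        refine ⟨smul_ne_zero (inv_ne_zero hc) h0, ?_⟩
        simp only [Pi.smul_apply, smul_eq_mul]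
        linear_combination (c⁻¹ ^ 3) * h1
      have hev := local_lift hx hT hEδ (fun t ht => (hloc' t ht).1) (fun t ht => (hloc' t ht).2.1)
        hJ hw hm
      filter_upwards [hev, hT, self_mem_nhdsWithin] with y hy hyT hyI
      obtain ⟨c, hc, hPc⟩ := (hloc' y ⟨hyT, hyI⟩).2.2
      have := match_unique hy (hz y hyI) hc hPc
      convert this using 1
      ring
    · intro x y u _ _ _ h1 h2
      have := add_mem h1 h2
      convert this using 1
      ring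
    · intro x y _ _ h1
      have := neg_mem h1
      convert this using 1
      ring
  have e0 := match_unique hz₀ (hz 0 h01) one_ne_zero (by simp)
  have e1 := match_unique hz₁ (hz 1 h11) one_ne_zero (by simp)
  have := add_mem (sub_mem key e1) e0
  convert this using 1
  ring

end Pool.Agent.Helper31
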