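import Mathlib
import Pool.Agent.Helper31.Curve
import Pool.Agent.Helper31.Lift2

open MvPolynomial Set
open scoped LinearAlgebra.Projectivization Matrix Topology

noncomputable section

namespace Pool.Agent.Helper31

namespace PlaneCurve

variable {e : ℕ} {C : PlaneCurve e}

/-! ### arcs -/

namespace Arc

lemma hasDeriv (Γ : C.Arc) {t : ℝ} (ht : t ∈ Icc (0:ℝ) 1) :
    HasDerivWithinAt Γ.toFun (derivWithin Γ.toFun (Icc 0 1) t) (Icc 0 1) t :=
  ((Γ.contDiffOn.differentiableOn (by norm_num)) t ht).hasDerivWithinAt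

lemma continuousOn (Γ : C.Arc) : ContinuousOn Γ.toFun (Icc 0 1) := Γ.contDiffOn.continuousOn

lemma continuousOn_deriv (Γ : C.Arc) :
    ContinuousOn (derivWithin Γ.toFun (Icc 0 1)) (Icc 0 1) :=
  Γ.contDiffOn.continuousOn_derivWithin (uniqueDiffOn_Icc zero_lt_one) le_rfl

lemma tangent (Γ : C.Arc) {t : ℝ} (ht : t ∈ Icc (0:ℝ) 1) :
    C.grad (Γ.toFun t) ⬝ᵥ derivWithin Γ.toFun (Icc 0 1) t = 0 := by
  have h1 := hasDerivWithinAt_eval C.F (Γ.hasDeriv ht)
  have h2 : HasDerivWithinAt (fun t => eval (Γ.toFun t) C.F) 0 (Icc 0 1) t := by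
    refine (hasDerivWithinAt_const t (Icc (0:ℝ) 1) (0:ℂ)).congr ?_ ?_
    · intro s hs
      exact (Γ.mem_cone s hs).2
    · exact (Γ.mem_cone t ht).2
  exact ((uniqueDiffOn_Icc zero_lt_one) t ht).eq_deriv _ h1 h2

/-- `w(t)` -/
def dens (Γ : C.Arc) (t : ℝ) : ℂ := C.res (Γ.toFun t) (derivWithin Γ.toFun (Icc 0 1) t)

lemma cross (Γ : C.Arc) {t : ℝ} (ht : t ∈ Icc (0:ℝ) 1) :
    crossProduct (Γ.toFun t) (derivWithin Γ.toFun (Icc 0 1) t) = Γ.dens t • C.grad (Γ.toFun t) :=
  res_spec (Γ.mem_cone t ht) (Γ.tangent ht)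

lemma continuous_grad : Continuous C.grad := by
  refine continuous_pi fun i => ?_
  exact MvPolynomial.continuous_eval _

lemma continuousOn_cross {a b : ℝ → Fin 3 → ℂ} {s : Set ℝ} (ha : ContinuousOn a s)
    (hb : ContinuousOn b s) : ContinuousOn (fun t => crossProduct (a t) (b t)) s := by
  have hai : ∀ i, ContinuousOn (fun t => a t i) s := fun i => continuousOn_pi.mp ha i
  have hbi : ∀ i, ContinuousOn (fun t => b t i) s := fun i => continuousOn_pi.mp hb i
  have h0 := hai 0
  have h1 := hai 1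
  have h2 := hai 2
  have k0 := hbi 0
  have k1 := hbi 1
  have k2 := hbi 2
  refine continuousOn_pi.mpr fun i => ?_
  fin_cases i
  · exact ((h1.mul k2).sub (h2.mul k1)).congr fun t _ => by simp [cross_apply]
  · exact ((h2.mul k0).sub (h0.mul k2)).congr fun t _ => by simp [cross_apply]
  · exact ((h0.mul k1).sub (h1.mul k0)).congr fun t _ => by simp [cross_apply]

lemma continuousOn_dot {a b : ℝ → Fin 3 → ℂ} {s : Set ℝ} (ha : ContinuousOn a s)
    (hb : ContinuousOn b s) : ContinuousOn (fun t => a t ⬝ᵥ b t) s := by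
  have hai : ∀ i, ContinuousOn (fun t => a t i) s := fun i => continuousOn_pi.mp ha i
  have hbi : ∀ i, ContinuousOn (fun t => b t i) s := fun i => continuousOn_pi.mp hb i
  simp only [dotProduct]
  exact continuousOn_finsetSum _ fun i _ => (hai i).mul (hbi i)

lemma continuousOn_dens (Γ : C.Arc) : ContinuousOn Γ.dens (Icc 0 1) := by
  have h1 := Γ.continuousOn
  have h2 := Γ.continuousOn_deriv
  have hg : ContinuousOn (fun t => C.grad (Γ.toFun t)) (Icc 0 1) :=
    continuous_grad.comp_continuousOn h1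
  have hs : ContinuousOn (fun t => star (C.grad (Γ.toFun t))) (Icc 0 1) := hg.star
  have hc := continuousOn_cross h1 h2
  have hn := continuousOn_dot hc hs
  have hd := continuousOn_dot hg hs
  exact hn.div hd fun t ht => star_dot_ne_zero (grad_ne_zero (Γ.mem_cone t ht))

lemma integral_eq (Γ : C.Arc) (G : MvPolynomial (Fin 3) ℂ) :
    Γ.integral G = ∫ t in (0:ℝ)..1, eval (Γ.toFun t) G * Γ.dens t := rfl

lemma continuousOn_form (Γ : C.Arc) (G : MvPolynomial (Fin 3) ℂ) :
    ContinuousOn (fun t => eval (Γ.toFun t) G * Γ.dens t) (Icc 0 1) :=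
  ((MvPolynomial.continuous_eval G).comp_continuousOn Γ.continuousOn).mul Γ.continuousOn_dens

lemma intervalIntegrable (Γ : C.Arc) (G : MvPolynomial (Fin 3) ℂ) :
    IntervalIntegrable (fun t => eval (Γ.toFun t) G * Γ.dens t) MeasureTheory.volume 0 1 := by
  apply ContinuousOn.intervalIntegrable
  rw [uIcc_of_le zero_le_one]
  exact Γ.continuousOn_form G

lemma integral_add (Γ : C.Arc) (G H : MvPolynomial (Fin 3) ℂ) :
    Γ.integral (G + H) = Γ.integral G + Γ.integral H := by
  simp only [integral_eq, map_add, add_mul]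
  exact intervalIntegral.integral_add (Γ.intervalIntegrable G) (Γ.intervalIntegrable H)

lemma integral_smul (Γ : C.Arc) (a : ℂ) (G : MvPolynomial (Fin 3) ℂ) :
    Γ.integral (a • G) = a * Γ.integral G := by
  simp only [integral_eq, smul_eval, mul_assoc]
  exact intervalIntegral.integral_const_mul a _

end Arc

/-- A primitive of a continuous function on `[0,1]`. -/
lemma exists_primitive {w : ℝ → ℂ} (hw : ContinuousOn w (Icc 0 1)) :
    ∃ J : ℝ → ℂ, (∀ t ∈ Icc (0:ℝ) 1, HasDerivWithinAt J (w t) (Icc 0 1) t) ∧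
      J 1 - J 0 = ∫ t in (0:ℝ)..1, w t := by
  set w' : ℝ → ℂ := IccExtend zero_le_one ((Icc (0:ℝ) 1).domRestrict w) with hw'
  have hc : Continuous w' := (continuousOn_iff_continuous_domRestrict.mp hw).Icc_extend'
  have heq : ∀ t ∈ Icc (0:ℝ) 1, w' t = w t := by
    intro t ht
    rw [hw', IccExtend_of_mem _ _ ht]
    rfl
  refine ⟨fun t => ∫ s in (0:ℝ)..t, w' s, ?_, ?_⟩
  · intro t ht
    have := (hc.integral_hasStrictDerivAt 0 t).hasDerivAt.hasDerivWithinAt (s := Icc 0 1)
    rwa [heq t ht] at this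
  · simp only [intervalIntegral.integral_same, sub_zero]
    apply intervalIntegral.integral_congr
    intro t ht
    rw [uIcc_of_le zero_le_one] at ht
    exact heq t ht

/-! ### chains -/

variable (C)

/-- `boundary` as an additive map -/
def boundaryHom : (C.Arc →₀ ℤ) →+ (ℙ ℂ (Fin 3 → ℂ) →₀ ℤ) :=
  Finsupp.liftAddHom fun Γ =>
    (Finsupp.singleAddHom (Γ.pt 1) : ℤ →+ _) - (Finsupp.singleAddHom (Γ.pt 0) : ℤ →+ _)

lemma boundary_eq (c : C.Arc →₀ ℤ) : C.boundary c = C.boundaryHom c := rfl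

/-- `integral` as an additive map -/
def integralHom (G : MvPolynomial (Fin 3) ℂ) : (C.Arc →₀ ℤ) →+ ℂ :=
  Finsupp.liftAddHom fun Γ => ((AddMonoidHom.mulRight (Γ.integral G)).comp (Int.castAddHom ℂ))

lemma integral_eq (G : MvPolynomial (Fin 3) ℂ) (c : C.Arc →₀ ℤ) :
    C.integral G c = C.integralHom G c := rfl

@[simp] lemma boundary_zero : C.boundary 0 = 0 := by simp [boundary_eq]
lemma boundary_add (c d : C.Arc →₀ ℤ) : C.boundary (c + d) = C.boundary c + C.boundary d := by
  simp [boundary_eq]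
lemma boundary_sub (c d : C.Arc →₀ ℤ) : C.boundary (c - d) = C.boundary c - C.boundary d := by
  simp [boundary_eq]
lemma boundary_neg (c : C.Arc →₀ ℤ) : C.boundary (-c) = - C.boundary c := by
  simp [boundary_eq]
lemma boundary_single (Γ : C.Arc) (n : ℤ) : C.boundary (Finsupp.single Γ n) =
    Finsupp.single (Γ.pt 1) n - Finsupp.single (Γ.pt 0) n := by
  simp [boundary]

variable (G : MvPolynomial (Fin 3) ℂ)

@[simp] lemma integral_zero : C.integral G 0 = 0 := by simp [integral_eq]
lemma integral_add (c d : C.Arc →₀ ℤ) : C.integral G (c + d) = C.integral G c + C.integral G d := by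
  simp [integral_eq]
lemma integral_sub (c d : C.Arc →₀ ℤ) : C.integral G (c - d) = C.integral G c - C.integral G d := by
  simp [integral_eq]
lemma integral_neg (c : C.Arc →₀ ℤ) : C.integral G (-c) = - C.integral G c := by
  simp [integral_eq]
lemma integral_single (Γ : C.Arc) (n : ℤ) : C.integral G (Finsupp.single Γ n) =
    n * Γ.integral G := by
  simp [integral]

lemma integral_add_form (G H : MvPolynomial (Fin 3) ℂ) (c : C.Arc →₀ ℤ) :
    C.integral (G + H) c = C.integral G c + C.integral H c := by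
  simp only [integral, Arc.integral_add, mul_add]
  exact Finsupp.sum_add

lemma integral_smul_form (a : ℂ) (G : MvPolynomial (Fin 3) ℂ) (c : C.Arc →₀ ℤ) :
    C.integral (a • G) c = a * C.integral G c := by
  simp only [integral, Arc.integral_smul]
  rw [Finsupp.mul_sum]
  refine Finsupp.sum_congr fun Γ _ => ?_
  ring

/-- the integral over a fixed chain, as a linear functional of the form -/
def integralLin (c : C.Arc →₀ ℤ) : MvPolynomial (Fin 3) ℂ →ₗ[ℂ] ℂ where
  toFun G := C.integral G c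
  map_add' G H := C.integral_add_form G H c
  map_smul' a G := C.integral_smul_form a G c

/-- The degree of a boundary is zero. -/
lemma degree_boundary (c : C.Arc →₀ ℤ) : (C.boundary c).sum (fun _ n => n) = 0 := by
  have h : ∀ d : (ℙ ℂ (Fin 3 → ℂ) →₀ ℤ), d.sum (fun _ n => n) =
      (Finsupp.liftAddHom (fun _ : ℙ ℂ (Fin 3 → ℂ) => AddMonoidHom.id ℤ)) d := by
    intro d
    rfl
  rw [h]
  induction c using Finsupp.induction_linear with
  | zero => simp
  | add c d hc hd => rw [boundary_add, map_add, hc, hd, add_zero]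
  | single Γ n => rw [boundary_single, map_sub]; simp

/-- pairing of a function on points with a boundary -/
lemma sum_boundary (z : ℙ ℂ (Fin 3 → ℂ) → ℂ) (c : C.Arc →₀ ℤ) :
    (C.boundary c).sum (fun P n => (n : ℂ) * z P) =
      c.sum (fun Γ n => (n : ℂ) * (z (Γ.pt 1) - z (Γ.pt 0))) := by
  have h : ∀ d : (ℙ ℂ (Fin 3 → ℂ) →₀ ℤ), d.sum (fun P n => (n : ℂ) * z P) =
      (Finsupp.liftAddHom (fun P : ℙ ℂ (Fin 3 → ℂ) =>
        (AddMonoidHom.mulRight (z P)).comp (Int.castAddHom ℂ))) d := by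
    intro d
    rfl
  have h' : ∀ d : (C.Arc →₀ ℤ), d.sum (fun Γ n => (n : ℂ) * (z (Γ.pt 1) - z (Γ.pt 0))) =
      (Finsupp.liftAddHom (fun Γ : C.Arc =>
        (AddMonoidHom.mulRight (z (Γ.pt 1) - z (Γ.pt 0))).comp (Int.castAddHom ℂ))) d := by
    intro d
    rfl
  rw [h, h']
  induction c using Finsupp.induction_linear with
  | zero => simp
  | add c d hc hd => rw [boundary_add, map_add, map_add, hc, hd]
  | single Γ n => rw [boundary_single, map_sub]; simp; ring

end PlaneCurve

end Pool.Agent.Helper31
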