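import Mathlib
import Pool.Agent.Helper31.Curve2

open MvPolynomial Set
open scoped LinearAlgebra.Projectivization Matrix Topology

noncomputable section

namespace Pool.Agent.Helper31

/-- `Y⁶ - X Z (X⁴ + p X² Z² + Z⁴)` -/
def sexticPoly (p : ℂ) : MvPolynomial (Fin 3) ℂ :=
  X 1 ^ 6 - X 0 ^ 5 * X 2 - MvPolynomial.C p * X 0 ^ 3 * X 2 ^ 3 - X 0 * X 2 ^ 5

lemma sexticPoly_hom (p : ℂ) : (sexticPoly p).IsHomogeneous (3 + 3) := by
  have hX : ∀ i : Fin 3, (X i : MvPolynomial (Fin 3) ℂ).IsHomogeneous 1 :=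
    fun i => isHomogeneous_X ℂ i
  have h1 : (X 1 ^ 6 : MvPolynomial (Fin 3) ℂ).IsHomogeneous 6 := by
    simpa using (hX 1).pow 6
  have h2 : (X 0 ^ 5 * X 2 : MvPolynomial (Fin 3) ℂ).IsHomogeneous 6 := by
    simpa using ((hX 0).pow 5).mul (hX 2)
  have h3 : (MvPolynomial.C p * X 0 ^ 3 * X 2 ^ 3 : MvPolynomial (Fin 3) ℂ).IsHomogeneous 6 := by
    have := ((isHomogeneous_C (Fin 3) p).mul ((hX 0).pow 3)).mul ((hX 2).pow 3)
    simpa using this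
  have h4 : (X 0 * X 2 ^ 5 : MvPolynomial (Fin 3) ℂ).IsHomogeneous 6 := by
    simpa using (hX 0).mul ((hX 2).pow 5)
  exact ((h1.sub h2).sub h3).sub h4

lemma eval_sexticPoly (p : ℂ) (q : Fin 3 → ℂ) : eval q (sexticPoly p) =
    q 1 ^ 6 - (q 0 ^ 5 * q 2 + p * q 0 ^ 3 * q 2 ^ 3 + q 0 * q 2 ^ 5) := by
  simp [sexticPoly]; ring

lemma eval_pderiv0 (p : ℂ) (q : Fin 3 → ℂ) : eval q (pderiv 0 (sexticPoly p)) =
    -(5 * q 0 ^ 4 * q 2 + 3 * p * q 0 ^ 2 * q 2 ^ 3 + q 2 ^ 5) := by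
  simp [sexticPoly, pderiv_X, Derivation.leibniz_pow]
  ring

lemma eval_pderiv1 (p : ℂ) (q : Fin 3 → ℂ) : eval q (pderiv 1 (sexticPoly p)) =
    6 * q 1 ^ 5 := by
  simp [sexticPoly, pderiv_X, Derivation.leibniz_pow]

lemma eval_pderiv2 (p : ℂ) (q : Fin 3 → ℂ) : eval q (pderiv 2 (sexticPoly p)) =
    -(q 0 ^ 5 + 3 * p * q 0 ^ 3 * q 2 ^ 2 + 5 * q 0 * q 2 ^ 4) := by
  simp [sexticPoly, pderiv_X, Derivation.leibniz_pow]
  ring

/-- The plane sextic `Y⁶ = X Z (X⁴ + p X² Z² + Z⁴)`. -/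
def sextic (p : ℂ) (hp : p ^ 2 ≠ 4) : PlaneCurve 3 where
  F := sexticPoly p
  homogeneous := sexticPoly_hom p
  smooth q hq0 hq := by
    by_contra hcon
    push Not at hcon
    have h0 := hcon 0
    have h1 := hcon 1
    have h2 := hcon 2
    rw [eval_pderiv0] at h0
    rw [eval_pderiv1] at h1
    rw [eval_pderiv2] at h2
    rw [eval_sexticPoly] at hq
    have hY : q 1 = 0 := by
      have : q 1 ^ 5 = 0 := by linear_combination h1 / 6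
      exact pow_eq_zero_iff (by norm_num) |>.mp this
    apply hq0
    by_cases hZ : q 2 = 0
    · have hX : q 0 = 0 := by
        have : q 0 ^ 5 = 0 := by rw [hZ] at h2; linear_combination -h2
        exact pow_eq_zero_iff (by norm_num) |>.mp this
      ext i; fin_cases i
      · exact hX
      · exact hY
      · exact hZ
    · by_cases hX : q 0 = 0
      · exfalso
        rw [hX] at h0
        have : q 2 ^ 5 = 0 := by linear_combination -h0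
        exact hZ (pow_eq_zero_iff (by norm_num) |>.mp this)
      · exfalso
        have e1 : 5 * q 0 ^ 4 + 3 * p * q 0 ^ 2 * q 2 ^ 2 + q 2 ^ 4 = 0 := by
          have : q 2 * (5 * q 0 ^ 4 + 3 * p * q 0 ^ 2 * q 2 ^ 2 + q 2 ^ 4) = 0 := by
            linear_combination -h0
          exact (mul_eq_zero.mp this).resolve_left hZ
        have e2 : q 0 ^ 4 + 3 * p * q 0 ^ 2 * q 2 ^ 2 + 5 * q 2 ^ 4 = 0 := by
          have : q 0 * (q 0 ^ 4 + 3 * p * q 0 ^ 2 * q 2 ^ 2 + 5 * q 2 ^ 4) = 0 := by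
            linear_combination -h2
          exact (mul_eq_zero.mp this).resolve_left hX
        have e3 : q 0 ^ 4 = q 2 ^ 4 := by linear_combination (e1 - e2) / 4
        have e4 : 2 * q 0 ^ 2 + p * q 2 ^ 2 = 0 := by
          have : q 0 ^ 2 * (2 * q 0 ^ 2 + p * q 2 ^ 2) = 0 := by
            linear_combination (e1 + e2) / 6 + e3
          exact (mul_eq_zero.mp this).resolve_left (pow_ne_zero 2 hX)
        have e5 : (p ^ 2 - 4) * q 2 ^ 4 = 0 := by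
          linear_combination (p * q 2 ^ 2 - 2 * q 0 ^ 2) * e4 + 4 * e3
        rcases mul_eq_zero.mp e5 with h | h
        · exact hp (by linear_combination h)
        · exact hZ (pow_eq_zero_iff (by norm_num) |>.mp h)

lemma mem_cone_sextic {p : ℂ} {hp : p ^ 2 ≠ 4} {q : Fin 3 → ℂ} :
    q ∈ (sextic p hp).cone ↔ q ≠ 0 ∧
      q 1 ^ 6 = q 0 ^ 5 * q 2 + p * q 0 ^ 3 * q 2 ^ 3 + q 0 * q 2 ^ 5 := by
  show q ≠ 0 ∧ eval q (sexticPoly p) = 0 ↔ _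
  rw [eval_sexticPoly, sub_eq_zero]

lemma grad_sextic (p : ℂ) (hp : p ^ 2 ≠ 4) (q : Fin 3 → ℂ) : (sextic p hp).grad q =
    ![-(5 * q 0 ^ 4 * q 2 + 3 * p * q 0 ^ 2 * q 2 ^ 3 + q 2 ^ 5), 6 * q 1 ^ 5,
      -(q 0 ^ 5 + 3 * p * q 0 ^ 3 * q 2 ^ 2 + 5 * q 0 * q 2 ^ 4)] := by
  ext i
  fin_cases i
  · exact eval_pderiv0 p q
  · exact eval_pderiv1 p q
  · exact eval_pderiv2 p q

/-- The binary cubic form `j₃ X³ + j₂ X² Z + j₁ X Z² + j₀ Z³`. -/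
def cub (j3 j2 j1 j0 : ℂ) : MvPolynomial (Fin 3) ℂ :=
  MvPolynomial.C j3 * X 0 ^ 3 + MvPolynomial.C j2 * X 0 ^ 2 * X 2 +
    MvPolynomial.C j1 * X 0 * X 2 ^ 2 + MvPolynomial.C j0 * X 2 ^ 3

lemma eval_cub (j3 j2 j1 j0 : ℂ) (q : Fin 3 → ℂ) : eval q (cub j3 j2 j1 j0) =
    j3 * q 0 ^ 3 + j2 * q 0 ^ 2 * q 2 + j1 * q 0 * q 2 ^ 2 + j0 * q 2 ^ 3 := by
  simp [cub]

lemma cub_hom (j3 j2 j1 j0 : ℂ) : (cub j3 j2 j1 j0).IsHomogeneous 3 := by
  have hX : ∀ i : Fin 3, (X i : MvPolynomial (Fin 3) ℂ).IsHomogeneous 1 :=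
    fun i => isHomogeneous_X ℂ i
  have h3 : (MvPolynomial.C j3 * X 0 ^ 3 : MvPolynomial (Fin 3) ℂ).IsHomogeneous 3 := by
    simpa using (isHomogeneous_C (Fin 3) j3).mul ((hX 0).pow 3)
  have h2 : (MvPolynomial.C j2 * X 0 ^ 2 * X 2 : MvPolynomial (Fin 3) ℂ).IsHomogeneous 3 := by
    simpa using ((isHomogeneous_C (Fin 3) j2).mul ((hX 0).pow 2)).mul (hX 2)
  have h1 : (MvPolynomial.C j1 * X 0 * X 2 ^ 2 : MvPolynomial (Fin 3) ℂ).IsHomogeneous 3 := by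
    simpa using ((isHomogeneous_C (Fin 3) j1).mul (hX 0)).mul ((hX 2).pow 2)
  have h0 : (MvPolynomial.C j0 * X 2 ^ 3 : MvPolynomial (Fin 3) ℂ).IsHomogeneous 3 := by
    simpa using (isHomogeneous_C (Fin 3) j0).mul ((hX 2).pow 3)
  exact ((h3.add h2).add h1).add h0

/-- A pair of binary forms `U = a X² + b X Z + c Z²`, `V = d X³ + g X² Z + h X Z² + k Z³`
with `V² - U³ = X Z (X⁴ + p X² Z² + Z⁴)`. -/
structure Sec (p : ℂ) where
  (a b c d g h k : ℂ)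
  c6 : d ^ 2 = a ^ 3
  c5 : 2 * d * g - 3 * a ^ 2 * b = 1
  c4 : g ^ 2 + 2 * d * h - 3 * a ^ 2 * c - 3 * a * b ^ 2 = 0
  c3 : 2 * d * k + 2 * g * h - 6 * a * b * c - b ^ 3 = p
  c2 : h ^ 2 + 2 * g * k - 3 * a * c ^ 2 - 3 * b ^ 2 * c = 0
  c1 : 2 * h * k - 3 * b * c ^ 2 = 1
  c0 : k ^ 2 = c ^ 3

namespace Sec

variable {p : ℂ} (σ : Sec p)

/-- `U` -/
def U (x z : ℂ) : ℂ := σ.a * x ^ 2 + σ.b * x * z + σ.c * z ^ 2
/-- `V` -/
def V (x z : ℂ) : ℂ := σ.d * x ^ 3 + σ.g * x ^ 2 * z + σ.h * x * z ^ 2 + σ.k * z ^ 3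
/-- `U_X` -/
def Ux (x z : ℂ) : ℂ := 2 * σ.a * x + σ.b * z
/-- `U_Z` -/
def Uz (x z : ℂ) : ℂ := σ.b * x + 2 * σ.c * z
/-- `V_X` -/
def Vx (x z : ℂ) : ℂ := 3 * σ.d * x ^ 2 + 2 * σ.g * x * z + σ.h * z ^ 2
/-- `V_Z` -/
def Vz (x z : ℂ) : ℂ := σ.g * x ^ 2 + 2 * σ.h * x * z + 3 * σ.k * z ^ 2

lemma rel (x z : ℂ) : σ.V x z ^ 2 - σ.U x z ^ 3 = x ^ 5 * z + p * x ^ 3 * z ^ 3 + x * z ^ 5 := by
  simp only [U, V]
  linear_combination x ^ 6 * σ.c6 + x ^ 5 * z * σ.c5 + x ^ 4 * z ^ 2 * σ.c4 +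
    x ^ 3 * z ^ 3 * σ.c3 + x ^ 2 * z ^ 4 * σ.c2 + x * z ^ 5 * σ.c1 + z ^ 6 * σ.c0

lemma relx (x z : ℂ) : 2 * σ.V x z * σ.Vx x z - 3 * σ.U x z ^ 2 * σ.Ux x z =
    5 * x ^ 4 * z + 3 * p * x ^ 2 * z ^ 3 + z ^ 5 := by
  simp only [U, V, Ux, Vx]
  linear_combination 6 * x ^ 5 * σ.c6 + 5 * x ^ 4 * z * σ.c5 + 4 * x ^ 3 * z ^ 2 * σ.c4 +
    3 * x ^ 2 * z ^ 3 * σ.c3 + 2 * x * z ^ 4 * σ.c2 + z ^ 5 * σ.c1

lemma relz (x z : ℂ) : 2 * σ.V x z * σ.Vz x z - 3 * σ.U x z ^ 2 * σ.Uz x z =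
    x ^ 5 + 3 * p * x ^ 3 * z ^ 2 + 5 * x * z ^ 4 := by
  simp only [U, V, Uz, Vz]
  linear_combination x ^ 5 * σ.c5 + 2 * x ^ 4 * z * σ.c4 + 3 * x ^ 3 * z ^ 2 * σ.c3 +
    4 * x ^ 2 * z ^ 3 * σ.c2 + 5 * x * z ^ 4 * σ.c1 + 6 * z ^ 5 * σ.c0

lemma eulerU (x z : ℂ) : x * σ.Ux x z + z * σ.Uz x z = 2 * σ.U x z := by
  simp only [U, Ux, Uz]; ring

lemma eulerV (x z : ℂ) : x * σ.Vx x z + z * σ.Vz x z = 3 * σ.V x z := by
  simp only [V, Vx, Vz]; ring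

/-- The Jacobian determinant of `(U, V)`, a binary cubic form. -/
def jac : MvPolynomial (Fin 3) ℂ :=
  cub (2 * σ.a * σ.g - 3 * σ.b * σ.d) (4 * σ.a * σ.h - σ.b * σ.g - 6 * σ.c * σ.d)
    (6 * σ.a * σ.k + σ.b * σ.h - 4 * σ.c * σ.g) (3 * σ.b * σ.k - 2 * σ.c * σ.h)

lemma eval_jac (q : Fin 3 → ℂ) : eval q σ.jac = σ.Ux (q 0) (q 2) * σ.Vz (q 0) (q 2) -
    σ.Uz (q 0) (q 2) * σ.Vx (q 0) (q 2) := by
  rw [jac, eval_cub]
  simp only [Ux, Uz, Vx, Vz]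
  ring

/-- The map to `E`. -/
def toE (q : Fin 3 → ℂ) : Fin 3 → ℂ := ![σ.U (q 0) (q 2) * q 1, σ.V (q 0) (q 2), q 1 ^ 3]

lemma onE {hp : p ^ 2 ≠ 4} {q : Fin 3 → ℂ} (hq : q ∈ (sextic p hp).cone) : OnE (σ.toE q) := by
  have hq' := mem_cone_sextic.mp hq
  have hrel := σ.rel (q 0) (q 2)
  constructor
  · intro h0
    have hV : σ.V (q 0) (q 2) = 0 := by simpa [toE] using congrFun h0 1
    have hY : q 1 = 0 := by
      have : q 1 ^ 3 = 0 := by simpa [toE] using congrFun h0 2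
      exact pow_eq_zero_iff (by norm_num) |>.mp this
    have hU : σ.U (q 0) (q 2) = 0 := by
      have : σ.U (q 0) (q 2) ^ 3 = 0 := by
        have h6 := hq'.2
        rw [hY] at h6
        rw [hV] at hrel
        linear_combination -hrel + h6
      exact pow_eq_zero_iff (by norm_num) |>.mp this
    obtain ⟨i, hi⟩ := (sextic p hp).smooth q hq.1 hq.2
    have hx := σ.relx (q 0) (q 2)
    have hz := σ.relz (q 0) (q 2)
    rw [hU, hV] at hx hz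
    apply hi
    fin_cases i
    · show eval q (pderiv 0 (sexticPoly p)) = 0
      rw [eval_pderiv0]; linear_combination hx
    · show eval q (pderiv 1 (sexticPoly p)) = 0
      rw [eval_pderiv1, hY]; ring
    · show eval q (pderiv 2 (sexticPoly p)) = 0
      rw [eval_pderiv2]; linear_combination hz
  · simp only [toE, Matrix.cons_val_zero, Matrix.cons_val_one, Matrix.cons_val_two,
      Matrix.head_cons, Matrix.tail_cons, Matrix.cons_val]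
    linear_combination q 1 ^ 3 * (hrel - hq'.2)

/-- derivative of `toE` along a vector -/
def toE' (q v : Fin 3 → ℂ) : Fin 3 → ℂ :=
  ![(σ.Ux (q 0) (q 2) * v 0 + σ.Uz (q 0) (q 2) * v 2) * q 1 + σ.U (q 0) (q 2) * v 1,
    σ.Vx (q 0) (q 2) * v 0 + σ.Vz (q 0) (q 2) * v 2, 3 * q 1 ^ 2 * v 1]

lemma hasDerivWithinAt_toE {γ : ℝ → Fin 3 → ℂ} {v : Fin 3 → ℂ} {s : Set ℝ} {t : ℝ}
    (h : HasDerivWithinAt γ v s t) :
    HasDerivWithinAt (fun t => σ.toE (γ t)) (σ.toE' (γ t) v) s t := by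
  have hi : ∀ i, HasDerivWithinAt (fun t => γ t i) (v i) s t := fun i =>
    (hasDerivWithinAt_pi.mp h) i
  have h0 := hi 0
  have h1 := hi 1
  have h2 := hi 2
  rw [hasDerivWithinAt_pi]
  intro i
  fin_cases i
  · simp only [toE, toE', U]
    have := ((((h0.pow 2).const_mul σ.a).add ((h0.const_mul σ.b).mul h2)).add
      ((h2.pow 2).const_mul σ.c)).mul h1
    refine this.congr_deriv ?_
    simp [Ux, Uz, -mul_eq_mul_right_iff]
    ring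
  · simp only [toE, toE', V]
    have := (((h0.pow 3).const_mul σ.d).add (((h0.pow 2).const_mul σ.g).mul h2)).add
      ((h0.const_mul σ.h).mul (h2.pow 2)) |>.add ((h2.pow 3).const_mul σ.k)
    refine this.congr_deriv ?_
    simp [Vx, Vz]
    ring
  · simp only [toE, toE']
    have := h1.pow 3
    refine this.congr_deriv ?_
    simp

lemma cross_toE {hp : p ^ 2 ≠ 4} {q v : Fin 3 → ℂ} {w : ℂ} (hq : q ∈ (sextic p hp).cone)
    (h : crossProduct q v = w • (sextic p hp).grad q) :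
    crossProduct (σ.toE q) (σ.toE' q v) = (eval q σ.jac * w) • gradE (σ.toE q) := by
  obtain ⟨e0, e1, e2⟩ := cross_eqs h
  rw [grad_sextic] at e0 e1 e2
  simp only [Matrix.cons_val_zero, Matrix.cons_val_one, Matrix.cons_val_two, Matrix.head_cons,
    Matrix.tail_cons, Matrix.cons_val] at e0 e1 e2
  have h6 := (mem_cone_sextic.mp hq).2
  have hrel := σ.rel (q 0) (q 2)
  have hx := σ.relx (q 0) (q 2)
  have hz := σ.relz (q 0) (q 2)
  have eU := σ.eulerU (q 0) (q 2)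
  have eV := σ.eulerV (q 0) (q 2)
  rw [← hx] at e0
  rw [← hz] at e2
  rw [← hrel] at h6
  rw [eval_jac]
  generalize hU : σ.U (q 0) (q 2) = U at *
  generalize hV : σ.V (q 0) (q 2) = V at *
  generalize hUx : σ.Ux (q 0) (q 2) = Ux at *
  generalize hUz : σ.Uz (q 0) (q 2) = Uz at *
  generalize hVx : σ.Vx (q 0) (q 2) = Vx at *
  generalize hVz : σ.Vz (q 0) (q 2) = Vz at *
  -- `Y U' - 2 U Y' = 2 w V J`
  have k1 : q 1 * (Ux * v 0 + Uz * v 2) - 2 * U * v 1 = 2 * w * V * (Ux * Vz - Uz * Vx) := by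
    linear_combination (-Ux) * e2 + Uz * e0 + v 1 * eU
  have k2 : q 1 * (Vx * v 0 + Vz * v 2) - 3 * V * v 1 = 3 * w * U ^ 2 * (Ux * Vz - Uz * Vx) := by
    linear_combination (-Vx) * e2 + Vz * e0 + v 1 * eV
  ext i
  fin_cases i
  · simp [cross_apply, toE, toE', gradE, hU, hV, hUx, hUz, hVx, hVz]
    linear_combination (-(q 1) ^ 2) * k2
  · simp [cross_apply, toE, toE', gradE, hU, hV, hUx, hUz, hVx, hVz]
    linear_combination (q 1) ^ 3 * k1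
  · simp [cross_apply, toE, toE', gradE, hU, hV, hUx, hUz, hVx, hVz]
    linear_combination U * k2 - V * k1 + (3 * w * (Ux * Vz - Uz * Vx)) * h6

end Sec

end Pool.Agent.Helper31
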