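import Mathlib
import Pool.Agent.Helper31.Sextic

open MvPolynomial Set
open scoped LinearAlgebra.Projectivization Matrix Topology

noncomputable section

namespace Pool.Agent.Helper31

lemma eval_smul_hom {d : ℕ} {F : MvPolynomial (Fin 3) ℂ} (hF : F.IsHomogeneous d) (a : ℂ)
    (q : Fin 3 → ℂ) : eval (a • q) F = a ^ d * eval q F := by
  rw [eval_eq', eval_eq', Finset.mul_sum]
  refine Finset.sum_congr rfl fun m hm => ?_
  have h1 := hF (mem_support_iff.mp hm)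
  have h2 : ∑ i, m i = d := by
    rw [← h1, Finsupp.weight_apply, Finsupp.sum_fintype]
    · simp
    · simp
  simp only [Pi.smul_apply, smul_eq_mul, mul_pow, Finset.prod_mul_distrib]
  rw [Finset.prod_pow_eq_pow_sum, h2]
  ring

namespace PlaneCurve

variable {e : ℕ} {C : PlaneCurve e}

lemma smul_mem_cone {q : Fin 3 → ℂ} (hq : q ∈ C.cone) {a : ℂ} (ha : a ≠ 0) : a • q ∈ C.cone := by
  refine ⟨smul_ne_zero ha hq.1, ?_⟩
  rw [eval_smul_hom C.homogeneous, hq.2, mul_zero]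

lemma mk_mem_points {q : Fin 3 → ℂ} (hq : q ∈ C.cone) :
    Projectivization.mk ℂ q hq.1 ∈ C.points := by
  obtain ⟨a, ha⟩ := Projectivization.exists_smul_eq_mk_rep ℂ q hq.1
  show (Projectivization.mk ℂ q hq.1).rep ∈ C.cone
  rw [← ha]
  exact smul_mem_cone hq a.ne_zero

lemma exists_rep_eq {q : Fin 3 → ℂ} (hq : q ≠ 0) :
    ∃ a : ℂ, a ≠ 0 ∧ q = a • (Projectivization.mk ℂ q hq).rep := by
  obtain ⟨a, ha⟩ := Projectivization.exists_smul_eq_mk_rep ℂ q hq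
  refine ⟨(a : ℂ)⁻¹, inv_ne_zero a.ne_zero, ?_⟩
  rw [← ha, Units.smul_def, smul_smul, inv_mul_cancel₀ a.ne_zero, one_smul]

end PlaneCurve

namespace Sec

variable {p : ℂ} (σ : Sec p)

lemma toE_smul (a : ℂ) (q : Fin 3 → ℂ) : σ.toE (a • q) = a ^ 3 • σ.toE q := by
  ext i
  fin_cases i
  · simp [toE, U]; ring
  · simp [toE, V]; ring
  · simp [toE]; ring

lemma arc_period {hp : p ^ 2 ≠ 4} (Γ : (sextic p hp).Arc) {z₀ z₁ : ℂ}
    (h₀ : Match z₀ (σ.toE (Γ.toFun 0))) (h₁ : Match z₁ (σ.toE (Γ.toFun 1))) :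
    z₁ - z₀ - kappa * Γ.integral σ.jac ∈ hexPair.lattice := by
  obtain ⟨J, hJ, hJ1⟩ := PlaneCurve.exists_primitive (Γ.continuousOn_form σ.jac)
  rw [PlaneCurve.Arc.integral_eq, ← hJ1]
  refine period_lift (P := fun t => σ.toE (Γ.toFun t)) (fun t ht => σ.onE (Γ.mem_cone t ht)) hJ
    (Γ.continuousOn_form σ.jac) ?_ h₀ h₁
  intro t₀ ht₀
  refine ⟨univ, Filter.univ_mem, fun t => σ.toE (Γ.toFun t),
    fun t => σ.toE' (Γ.toFun t) (derivWithin Γ.toFun (Icc 0 1) t), ?_⟩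
  rintro t ⟨-, ht⟩
  exact ⟨σ.hasDerivWithinAt_toE (Γ.hasDeriv ht), σ.cross_toE (Γ.mem_cone t ht) (Γ.cross ht),
    1, one_ne_zero, by simp⟩

/-- The periods of `ω_{jac}` over cycles lie in `κ⁻¹ Λ`. -/
theorem period_mem {hp : p ^ 2 ≠ 4} (c : (sextic p hp).Arc →₀ ℤ)
    (hc : (sextic p hp).boundary c = 0) :
    kappa * (sextic p hp).integral σ.jac c ∈ hexPair.lattice := by
  classical
  have hch : ∀ P : ℙ ℂ (Fin 3 → ℂ), ∃ z, P ∈ (sextic p hp).points → Match z (σ.toE P.rep) := by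
    intro P
    by_cases hP : P ∈ (sextic p hp).points
    · obtain ⟨z, hz⟩ := exists_match (σ.onE hP)
      exact ⟨z, fun _ => hz⟩
    · exact ⟨0, fun h => absurd h hP⟩
  choose z hz using hch
  have hpt : ∀ (Γ : (sextic p hp).Arc) (t : Icc (0:ℝ) 1),
      Match (z (Γ.pt t)) (σ.toE (Γ.toFun t)) := by
    intro Γ t
    have hq := Γ.mem_cone t t.2
    obtain ⟨a, ha, hqa⟩ := PlaneCurve.exists_rep_eq hq.1
    rw [hqa, toE_smul]
    exact match_smul (pow_ne_zero 3 ha) (hz _ (PlaneCurve.mk_mem_points hq))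
  have hl : ∀ Γ : (sextic p hp).Arc,
      z (Γ.pt 1) - z (Γ.pt 0) - kappa * Γ.integral σ.jac ∈ hexPair.lattice :=
    fun Γ => σ.arc_period Γ (hpt Γ 0) (hpt Γ 1)
  have hsum : c.sum (fun Γ n => (n : ℂ) * (z (Γ.pt 1) - z (Γ.pt 0) - kappa * Γ.integral σ.jac))
      ∈ hexPair.lattice := by
    refine sum_mem fun Γ _ => ?_
    have := hexPair.lattice.smul_mem (c Γ) (hl Γ)
    simpa using this
  have hb : c.sum (fun Γ n => (n : ℂ) * (z (Γ.pt 1) - z (Γ.pt 0))) = 0 := by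
    rw [← PlaneCurve.sum_boundary, hc]
    simp
  have heq : c.sum (fun Γ n => (n : ℂ) * (z (Γ.pt 1) - z (Γ.pt 0) - kappa * Γ.integral σ.jac)) =
      c.sum (fun Γ n => (n : ℂ) * (z (Γ.pt 1) - z (Γ.pt 0))) -
        kappa * (sextic p hp).integral σ.jac c := by
    rw [PlaneCurve.integral, Finsupp.mul_sum, ← Finsupp.sum_sub]
    refine Finsupp.sum_congr fun Γ _ => ?_
    ring
  rw [heq, hb, zero_sub] at hsum
  simpa using neg_mem hsum

end Sec

end Pool.Agent.Helper31
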