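import Mathlib
import Pool.Agent.Helper31.Periods

open MvPolynomial Set
open scoped LinearAlgebra.Projectivization Matrix Topology

noncomputable section

namespace Pool.Agent.Helper31

namespace PlaneCurve

variable {e : ℕ} (C : PlaneCurve e)

lemma integral_sum_form {k : ℕ} (b : Fin k → ℂ) (B : Fin k → MvPolynomial (Fin 3) ℂ)
    (c : C.Arc →₀ ℤ) : C.integral (∑ j, b j • B j) c = ∑ j, b j * C.integral (B j) c := by
  have := map_sum (C.integralLin c) (fun j => b j • B j) Finset.univ
  simp only [map_smul, smul_eq_mul] at this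
  exact this

/-- `periodVectors` as a `ℤ`-submodule. -/
def periodSub {k : ℕ} (B : Fin k → MvPolynomial (Fin 3) ℂ) : Submodule ℤ (Fin k → ℂ) where
  carrier := C.periodVectors B
  add_mem' := by
    rintro _ _ ⟨c, hc, rfl⟩ ⟨d, hd, rfl⟩
    refine ⟨c + d, by rw [boundary_add, hc, hd, add_zero], ?_⟩
    ext i
    simp [integral_add]
  zero_mem' := ⟨0, by simp, by ext i; simp⟩
  smul_mem' := by
    rintro n _ ⟨c, hc, rfl⟩
    refine ⟨n • c, ?_, ?_⟩
    · rw [boundary_eq, map_zsmul, ← boundary_eq, hc, smul_zero]
    · ext i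
      rw [Pi.smul_apply, integral_eq, integral_eq, map_zsmul]

lemma le_two_mul_of_discrete {G : MvPolynomial (Fin 3) ℂ} {ι : Type} [Fintype ι]
    (c : ι → (C.Arc →₀ ℤ))
    (hc : ∀ i, C.boundary (c i) = 0)
    (hli : LinearIndependent ℤ (fun i => C.integral G (c i))) {k : ℕ}
    {B : Fin k → MvPolynomial (Fin 3) ℂ} (hspan : G ∈ Submodule.span ℂ (Set.range B))
    (hdisc : DiscreteTopology (C.periodVectors B)) : Fintype.card ι ≤ 2 * k := by
  obtain ⟨b, hb⟩ := (Submodule.mem_span_range_iff_exists_fun ℂ).mp hspan
  set v : ι → Fin k → ℂ := fun i j => C.integral (B j) (c i) with hv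
  let f : (Fin k → ℂ) →ₗ[ℤ] ℂ :=
    (∑ j, (b j) • (LinearMap.proj j : (Fin k → ℂ) →ₗ[ℂ] ℂ)).restrictScalars ℤ
  have hf : f ∘ v = fun i => C.integral G (c i) := by
    ext i
    simp only [f, Function.comp, LinearMap.coe_restrictScalars, LinearMap.sum_apply,
      LinearMap.smul_apply, LinearMap.proj_apply, smul_eq_mul, hv]
    rw [← hb, integral_sum_form]
  have hvli : LinearIndependent ℤ v := by
    apply LinearIndependent.of_comp f
    rw [hf]
    exact hli
  have hsub : Submodule.span ℤ (Set.range v) ≤ C.periodSub B := by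
    rw [Submodule.span_le]
    rintro _ ⟨i, rfl⟩
    exact ⟨c i, hc i, rfl⟩
  have hd : DiscreteTopology (Submodule.span ℤ (Set.range v)) :=
    DiscreteTopology.of_subset (s := C.periodVectors B) hdisc hsub
  have h1 := Real.finrank_eq_int_finrank_of_discrete hd
  have h2 : Set.finrank ℤ (Set.range v) = Fintype.card ι := by
    rw [Set.finrank, finrank_span_eq_card hvli]
  have h3 : Set.finrank ℝ (Set.range v) ≤ 2 * k := by
    refine (Submodule.finrank_le _).trans ?_
    rw [Module.finrank_pi_fintype]
    simp [Complex.finrank_real_complex, mul_comm]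
  omega

lemma discrete_of_lattice {k : ℕ} {B : Fin k → MvPolynomial (Fin 3) ℂ}
    (h : ∀ i c, C.boundary c = 0 → kappa * C.integral (B i) c ∈ hexPair.lattice) :
    DiscreteTopology (C.periodVectors B) := by
  have hmem : ∀ (v : C.periodVectors B) (i : Fin k), kappa * (v : Fin k → ℂ) i ∈ hexPair.lattice := by
    rintro ⟨v, c, hc, rfl⟩ i
    exact h i c hc
  let F : C.periodVectors B → (Fin k → hexPair.lattice) := fun v i => ⟨_, hmem v i⟩
  have hF : Continuous F := by
    refine continuous_pi fun i => ?_
    refine Continuous.subtype_mk ?_ _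
    exact continuous_const.mul ((continuous_apply i).comp continuous_subtype_val)
  have hinj : Function.Injective F := by
    intro v w hvw
    ext i
    have := congrArg (fun x => ((x i : hexPair.lattice) : ℂ)) hvw
    simp only [F] at this
    exact mul_left_cancel₀ kappa_ne_zero this
  exact DiscreteTopology.of_continuous_injective hF hinj

end PlaneCurve

end Pool.Agent.Helper31
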