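import Mathlib
import Pool.Agent.Helper31.Degree

open MvPolynomial Set
open scoped LinearAlgebra.Projectivization Matrix Topology

noncomputable section

namespace Pool.Agent.Helper31

namespace Sec

/-- the section attached to `(m, s)` with `16 m⁶ = 3 s² - 6 s - 1` -/
def ofParam (m s p : ℂ) (hm : m ≠ 0) (h : 16 * m ^ 6 = 3 * s ^ 2 - 6 * s - 1)
    (hp : m ^ 12 * (p + 2) = - s ^ 3) : Sec p :=
  have hm4 : m ^ 4 ≠ 0 := pow_ne_zero _ hm
  have hm3 : m ^ 3 ≠ 0 := pow_ne_zero _ hm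
  have hb : 8 * m ^ 4 * ((3 * s - 1) * (s + 1) / (8 * m ^ 4)) = (3 * s - 1) * (s + 1) := by
    field_simp
  have hg : 2 * m ^ 3 * ((6 * m ^ 6 + 3 * s + 1) / (2 * m ^ 3)) = 6 * m ^ 6 + 3 * s + 1 := by
    field_simp
  { a := m ^ 2
    b := (3 * s - 1) * (s + 1) / (8 * m ^ 4)
    c := m ^ 2
    d := m ^ 3
    g := (6 * m ^ 6 + 3 * s + 1) / (2 * m ^ 3)
    h := (6 * m ^ 6 + 3 * s + 1) / (2 * m ^ 3)
    k := m ^ 3
    c6 := by ring
    c5 := by
      generalize (3 * s - 1) * (s + 1) / (8 * m ^ 4) = b at hb ⊢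
      generalize (6 * m ^ 6 + 3 * s + 1) / (2 * m ^ 3) = g at hg ⊢
      linear_combination hg - (3 / 8) * hb + (3 / 8) * h
    c4 := by
      generalize (3 * s - 1) * (s + 1) / (8 * m ^ 4) = b at hb ⊢
      generalize (6 * m ^ 6 + 3 * s + 1) / (2 * m ^ 3) = g at hg ⊢
      have hm6 : (64 : ℂ) * m ^ 6 ≠ 0 := mul_ne_zero (by norm_num) (pow_ne_zero _ hm)
      apply mul_left_cancel₀ hm6
      linear_combination (16 * (2 * m ^ 3 * g + (6 * m ^ 6 + 3 * s + 1)) + 64 * m ^ 6) * hg -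
        3 * (8 * m ^ 4 * b + (3 * s - 1) * (s + 1)) * hb +
        (48 * m ^ 6 + 3 * (3 * s ^ 2 - 6 * s - 1) + 16 * (3 * s + 1)) * h
    c3 := by
      generalize (3 * s - 1) * (s + 1) / (8 * m ^ 4) = b at hb ⊢
      generalize (6 * m ^ 6 + 3 * s + 1) / (2 * m ^ 3) = g at hg ⊢
      have hm12 : (512 : ℂ) * m ^ 12 ≠ 0 := mul_ne_zero (by norm_num) (pow_ne_zero _ hm)
      apply mul_left_cancel₀ hm12
      linear_combination (256 * m ^ 6 * (2 * m ^ 3 * g + (6 * m ^ 6 + 3 * s + 1))) * hg -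
        (384 * m ^ 12 + (8 * m ^ 4 * b) ^ 2 + (8 * m ^ 4 * b) * ((3 * s - 1) * (s + 1)) +
          ((3 * s - 1) * (s + 1)) ^ 2) * hb + (-512) * hp +
        (640 * m ^ 12 + (192 * (3 * s + 1) - 24 * ((3 * s - 1) * (s + 1)) + 64 +
          40 * (3 * s ^ 2 - 6 * s - 1)) * m ^ 6 + (16 * (3 * s + 1) ^ 2 + (192 * (3 * s + 1) -
          24 * ((3 * s - 1) * (s + 1)) + 64 +
          40 * (3 * s ^ 2 - 6 * s - 1)) * (3 * s ^ 2 - 6 * s - 1) / 16)) * h
    c2 := by
      generalize (3 * s - 1) * (s + 1) / (8 * m ^ 4) = b at hb ⊢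
      generalize (6 * m ^ 6 + 3 * s + 1) / (2 * m ^ 3) = g at hg ⊢
      have hm6 : (64 : ℂ) * m ^ 6 ≠ 0 := mul_ne_zero (by norm_num) (pow_ne_zero _ hm)
      apply mul_left_cancel₀ hm6
      linear_combination (16 * (2 * m ^ 3 * g + (6 * m ^ 6 + 3 * s + 1)) + 64 * m ^ 6) * hg -
        3 * (8 * m ^ 4 * b + (3 * s - 1) * (s + 1)) * hb +
        (48 * m ^ 6 + 3 * (3 * s ^ 2 - 6 * s - 1) + 16 * (3 * s + 1)) * h
    c1 := by
      generalize (3 * s - 1) * (s + 1) / (8 * m ^ 4) = b at hb ⊢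
      generalize (6 * m ^ 6 + 3 * s + 1) / (2 * m ^ 3) = g at hg ⊢
      linear_combination hg - (3 / 8) * hb + (3 / 8) * h
    c0 := by ring }

/-- `B` -/
def Bcoef (m s : ℂ) : ℂ := -(21 * s ^ 2 + 14 * s + 1) / (16 * m ^ 7)

lemma jac_ofParam (m s p : ℂ) (hm : m ≠ 0) (h : 16 * m ^ 6 = 3 * s ^ 2 - 6 * s - 1)
    (hp : m ^ 12 * (p + 2) = - s ^ 3) :
    (ofParam m s p hm h hp).jac = cub (1 / m) (Bcoef m s) (-Bcoef m s) (-(1 / m)) := by
  have hm4 : m ^ 4 ≠ 0 := pow_ne_zero _ hm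
  have hm3 : m ^ 3 ≠ 0 := pow_ne_zero _ hm
  have hb : 8 * m ^ 4 * ((3 * s - 1) * (s + 1) / (8 * m ^ 4)) = (3 * s - 1) * (s + 1) := by
    field_simp
  have hg : 2 * m ^ 3 * ((6 * m ^ 6 + 3 * s + 1) / (2 * m ^ 3)) = 6 * m ^ 6 + 3 * s + 1 := by
    field_simp
  have hA : 2 * m ^ 2 * ((6 * m ^ 6 + 3 * s + 1) / (2 * m ^ 3)) -
      3 * ((3 * s - 1) * (s + 1) / (8 * m ^ 4)) * m ^ 3 = 1 / m := by
    rw [eq_div_iff hm]
    generalize (3 * s - 1) * (s + 1) / (8 * m ^ 4) = b at hb ⊢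
    generalize (6 * m ^ 6 + 3 * s + 1) / (2 * m ^ 3) = g at hg ⊢
    linear_combination hg - (3 / 8) * hb + (3 / 8) * h
  have hB : 4 * m ^ 2 * ((6 * m ^ 6 + 3 * s + 1) / (2 * m ^ 3)) -
      (3 * s - 1) * (s + 1) / (8 * m ^ 4) * ((6 * m ^ 6 + 3 * s + 1) / (2 * m ^ 3)) -
      6 * m ^ 2 * m ^ 3 = Bcoef m s := by
    rw [Bcoef, eq_div_iff (mul_ne_zero (by norm_num) (pow_ne_zero _ hm))]
    generalize (3 * s - 1) * (s + 1) / (8 * m ^ 4) = b at hb ⊢
    generalize (6 * m ^ 6 + 3 * s + 1) / (2 * m ^ 3) = g at hg ⊢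
    linear_combination (32 * m ^ 6 - 8 * m ^ 4 * b) * hg - (6 * m ^ 6 + 3 * s + 1) * hb +
      (6 * m ^ 6 + 3 * s + 2) * h
  rw [jac]
  simp only [ofParam]
  congr 1
  · rw [← hB]; ring
  · rw [← hA]; ring

/-- The twist `(U, V) ↦ (-U(-X, Z), i V(-X, Z))`. -/
def twist {p : ℂ} (σ : Sec p) : Sec p where
  a := -σ.a
  b := σ.b
  c := -σ.c
  d := -(Complex.I * σ.d)
  g := Complex.I * σ.g
  h := -(Complex.I * σ.h)
  k := Complex.I * σ.k
  c6 := by linear_combination (σ.d ^ 2) * Complex.I_sq - σ.c6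
  c5 := by linear_combination (-2 * σ.d * σ.g) * Complex.I_sq + σ.c5
  c4 := by linear_combination (σ.g ^ 2 + 2 * σ.d * σ.h) * Complex.I_sq - σ.c4
  c3 := by linear_combination (-(2 * σ.d * σ.k + 2 * σ.g * σ.h)) * Complex.I_sq + σ.c3
  c2 := by linear_combination (σ.h ^ 2 + 2 * σ.g * σ.k) * Complex.I_sq - σ.c2
  c1 := by linear_combination (-(2 * σ.h * σ.k)) * Complex.I_sq + σ.c1
  c0 := by linear_combination (σ.k ^ 2) * Complex.I_sq - σ.c0

end Sec

lemma cub_add (a b c d a' b' c' d' : ℂ) :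
    cub a b c d + cub a' b' c' d' = cub (a + a') (b + b') (c + c') (d + d') := by
  simp only [cub, MvPolynomial.C_add]; ring

lemma cub_smul (t a b c d : ℂ) : t • cub a b c d = cub (t * a) (t * b) (t * c) (t * d) := by
  simp only [cub, MvPolynomial.smul_eq_C_mul, MvPolynomial.C_mul]; ring

lemma cub_congr {a b c d a' b' c' d' : ℂ} (h3 : a = a') (h2 : b = b') (h1 : c = c')
    (h0 : d = d') : cub a b c d = cub a' b' c' d' := by
  rw [h3, h2, h1, h0]

lemma cub_eq_zero {a b c d : ℂ} (h : cub a b c d = 0) : a = 0 ∧ b = 0 ∧ c = 0 ∧ d = 0 := by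
  have e := fun q : Fin 3 → ℂ => (eval_cub a b c d q).symm.trans (congrArg (eval q) h)
  have h0 := e ![0, 0, 1]
  have h3 := e ![1, 0, 0]
  have h1 := e ![1, 0, 1]
  have h2 := e ![-1, 0, 1]
  simp at h0 h3 h1 h2
  have hb : b = 0 := by linear_combination (h1 + h2) / 2 - h0
  have hc : c = 0 := by linear_combination (h1 - h2) / 2 - h3
  exact ⟨h3, hb, hc, h0⟩

lemma Sec.jac_twist {p : ℂ} (σ : Sec p) {j3 j2 j1 j0 : ℂ} (h : σ.jac = cub j3 j2 j1 j0) :
    σ.twist.jac = cub (-(Complex.I * j3)) (Complex.I * j2) (-(Complex.I * j1))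
      (Complex.I * j0) := by
  have h' := h
  rw [Sec.jac, ← sub_eq_zero, sub_eq_add_neg, ← neg_one_smul ℂ (cub j3 j2 j1 j0), cub_smul,
    cub_add] at h'
  obtain ⟨e3, e2, e1, e0⟩ := cub_eq_zero h'
  rw [Sec.jac]
  simp only [Sec.twist]
  apply cub_congr
  · linear_combination (-Complex.I) * e3
  · linear_combination (Complex.I) * e2
  · linear_combination (-Complex.I) * e1
  · linear_combination (Complex.I) * e0

/-- the even form `E = jac - i jac'` -/
lemma Sec.even_form {p : ℂ} (σ : Sec p) {A B : ℂ} (h : σ.jac = cub A B (-B) (-A)) :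
    cub 0 (2 * B) 0 (-(2 * A)) = σ.jac + (-Complex.I) • σ.twist.jac := by
  rw [σ.jac_twist h, h, cub_smul, cub_add]
  apply cub_congr
  · linear_combination (-A) * Complex.I_sq
  · linear_combination B * Complex.I_sq
  · linear_combination B * Complex.I_sq
  · linear_combination (-A) * Complex.I_sq

lemma linInd_jacs {A B A' B' : ℂ} (hd : A * B' - A' * B ≠ 0) :
    LinearIndependent ℂ ![cub A B (-B) (-A),
      cub (-(Complex.I * A)) (Complex.I * B) (-(Complex.I * -B)) (Complex.I * -A),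
      cub A' B' (-B') (-A'),
      cub (-(Complex.I * A')) (Complex.I * B') (-(Complex.I * -B')) (Complex.I * -A')] := by
  rw [Fintype.linearIndependent_iff]
  intro g hg
  simp only [Fin.sum_univ_four] at hg
  simp only [Matrix.cons_val_zero, Matrix.cons_val_one, Matrix.cons_val_two, Matrix.cons_val_three,
    Matrix.head_cons, Matrix.tail_cons, Matrix.cons_val, cub_smul, cub_add] at hg
  obtain ⟨e3, e2, e1, e0⟩ := cub_eq_zero hg
  -- (g0 - i g1) A + (g2 - i g3) A' = 0, (g0 + i g1) B + (g2 + i g3) B' = 0, ...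
  have k1 : (g 0 + Complex.I * g 1) * A + (g 2 + Complex.I * g 3) * A' = 0 := by
    linear_combination -e0
  have k2 : (g 0 + Complex.I * g 1) * B + (g 2 + Complex.I * g 3) * B' = 0 := by
    linear_combination e2
  have k3 : (g 0 - Complex.I * g 1) * A + (g 2 - Complex.I * g 3) * A' = 0 := by
    linear_combination e3
  have k4 : (g 0 - Complex.I * g 1) * B + (g 2 - Complex.I * g 3) * B' = 0 := by
    linear_combination -e1
  have p1 : g 0 + Complex.I * g 1 = 0 := by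
    apply mul_right_cancel₀ hd; linear_combination B' * k1 - A' * k2
  have p2 : g 2 + Complex.I * g 3 = 0 := by
    apply mul_right_cancel₀ hd; linear_combination A * k2 - B * k1
  have p3 : g 0 - Complex.I * g 1 = 0 := by
    apply mul_right_cancel₀ hd; linear_combination B' * k3 - A' * k4
  have p4 : g 2 - Complex.I * g 3 = 0 := by
    apply mul_right_cancel₀ hd; linear_combination A * k4 - B * k3
  intro i
  fin_cases i
  · show g 0 = 0
    linear_combination (p1 + p3) / 2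
  · show g 1 = 0
    linear_combination (-Complex.I / 2) * (p1 - p3) + g 1 * Complex.I_sq
  · show g 2 = 0
    linear_combination (p2 + p4) / 2
  · show g 3 = 0
    linear_combination (-Complex.I / 2) * (p2 - p4) + g 3 * Complex.I_sq

end Pool.Agent.Helper31
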