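import Mathlib
import Pool.Agent.Helper31.Sections

open MvPolynomial Set
open scoped LinearAlgebra.Projectivization Matrix Topology

noncomputable section

namespace Pool.Agent.Helper31

/-- `s⁶ + (1-s)⁶` -/
def qf (s : ℝ) : ℝ := s ^ 6 + (1 - s) ^ 6

lemma qf_pos (s : ℝ) : 0 < qf s := by
  rw [qf]
  rcases eq_or_ne s 0 with h | h
  · rw [h]; norm_num
  · have : 0 < s ^ 6 := by positivity
    have : 0 ≤ (1 - s) ^ 6 := by positivity
    linarith

/-- the abscissa of our arcs -/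
def xf (a b s : ℝ) : ℝ := a + (b - a) * (s ^ 6 / qf s)

lemma xf_sub (a b s : ℝ) : xf a b s - a = (b - a) * s ^ 6 / qf s := by
  rw [xf]; ring

lemma sub_xf (a b s : ℝ) : b - xf a b s = (b - a) * (1 - s) ^ 6 / qf s := by
  have := (qf_pos s).ne'
  rw [xf]
  field_simp
  rw [qf]
  ring

lemma xf_mem {a b : ℝ} (hab : a < b) (s : ℝ) : xf a b s ∈ Icc a b := by
  have h0 := qf_pos s
  have hba : 0 < b - a := by linarith
  constructor
  · have := xf_sub a b s
    have : 0 ≤ (b - a) * s ^ 6 / qf s := by positivity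
    linarith
  · have := sub_xf a b s
    have : 0 ≤ (b - a) * (1 - s) ^ 6 / qf s := by positivity
    linarith

lemma xf_mem' {a b : ℝ} (hab : a < b) {s : ℝ} (hs : s ∈ Ioo (0:ℝ) 1) : xf a b s ∈ Ioo a b := by
  have h0 := qf_pos s
  have hba : 0 < b - a := by linarith
  have h1 : 0 < s := hs.1
  have h2 : 0 < 1 - s := by linarith [hs.2]
  constructor
  · have := xf_sub a b s
    have : 0 < (b - a) * s ^ 6 / qf s := by positivity
    linarith
  · have := sub_xf a b s
    have : 0 < (b - a) * (1 - s) ^ 6 / qf s := by positivity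
    linarith

lemma contDiff_qf : ContDiff ℝ 1 qf := by
  unfold qf
  fun_prop

lemma contDiff_xf (a b : ℝ) : ContDiff ℝ 1 (xf a b) := by
  unfold xf
  exact contDiff_const.add (contDiff_const.mul
    ((contDiff_id.pow 6).div contDiff_qf fun s => (qf_pos s).ne'))

lemma hasDerivAt_xf (a b s : ℝ) :
    HasDerivAt (xf a b) (6 * (b - a) * (s ^ 5 * (1 - s) ^ 5) / qf s ^ 2) s := by
  have h1 : HasDerivAt (fun s : ℝ => s ^ 6) (6 * s ^ 5) s := by
    simpa using hasDerivAt_pow 6 s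
  have h2 : HasDerivAt (fun s : ℝ => (1 - s) ^ 6) (6 * (1 - s) ^ 5 * (-1)) s := by
    have := ((hasDerivAt_id s).const_sub 1).fun_pow 6
    simpa using this
  have h3 : HasDerivAt qf (6 * s ^ 5 + 6 * (1 - s) ^ 5 * (-1)) s := h1.add h2
  have h4 := ((h1.div h3 (qf_pos s).ne').const_mul (b - a)).const_add a
  refine h4.congr_deriv ?_
  rw [mul_div_assoc']
  congr 1
  rw [qf]
  ring

/-- the positive factor of the ordinate -/
def wf (a b : ℝ) (h : ℝ → ℝ) (s : ℝ) : ℝ :=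
  ((b - a) ^ 2 * h (xf a b s) / qf s ^ 2) ^ ((6:ℝ)⁻¹)

lemma wf_base_pos {a b : ℝ} (hab : a < b) {h : ℝ → ℝ} (hpos : ∀ x ∈ Icc a b, 0 < h x) (s : ℝ) :
    0 < (b - a) ^ 2 * h (xf a b s) / qf s ^ 2 := by
  have h0 := qf_pos s
  have hba : 0 < b - a := by linarith
  have := hpos _ (xf_mem hab s)
  positivity

lemma wf_pos {a b : ℝ} (hab : a < b) {h : ℝ → ℝ} (hpos : ∀ x ∈ Icc a b, 0 < h x) (s : ℝ) :
    0 < wf a b h s := Real.rpow_pos_of_pos (wf_base_pos hab hpos s) _

lemma wf_pow {a b : ℝ} (hab : a < b) {h : ℝ → ℝ} (hpos : ∀ x ∈ Icc a b, 0 < h x) (s : ℝ) :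
    wf a b h s ^ 6 = (b - a) ^ 2 * h (xf a b s) / qf s ^ 2 := by
  have := Real.rpow_inv_natCast_pow (wf_base_pos hab hpos s).le (n := 6) (by norm_num)
  rw [wf]
  exact_mod_cast this

lemma contDiff_wf {a b : ℝ} (hab : a < b) {h : ℝ → ℝ} (hh : ContDiff ℝ 1 h)
    (hpos : ∀ x ∈ Icc a b, 0 < h x) : ContDiff ℝ 1 (wf a b h) := by
  unfold wf
  refine ContDiff.rpow_const_of_ne ?_ fun s => (wf_base_pos hab hpos s).ne'
  exact (contDiff_const.mul (hh.comp (contDiff_xf a b))).div (contDiff_qf.pow 2)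
    fun s => pow_ne_zero _ (qf_pos s).ne'

/-- the arc -/
def arcFun (a b : ℝ) (h : ℝ → ℝ) (ε η : ℂ) (s : ℝ) : Fin 3 → ℂ :=
  ![ε * (xf a b s : ℝ), η * ((s * (1 - s) * wf a b h s : ℝ) : ℂ), 1]

lemma arcFun_contDiff {a b : ℝ} (hab : a < b) {h : ℝ → ℝ} (hh : ContDiff ℝ 1 h)
    (hpos : ∀ x ∈ Icc a b, 0 < h x) (ε η : ℂ) : ContDiff ℝ 1 (arcFun a b h ε η) := by
  have hC : ∀ f : ℝ → ℝ, ContDiff ℝ 1 f → ContDiff ℝ 1 (fun s => ((f s : ℝ) : ℂ)) :=
    fun f hf => Complex.ofRealCLM.contDiff.comp hf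
  have h0 : ContDiff ℝ 1 (fun s : ℝ => ε * ((xf a b s : ℝ) : ℂ)) :=
    contDiff_const.mul (hC _ (contDiff_xf a b))
  have h1 : ContDiff ℝ 1 (fun s : ℝ => η * ((s * (1 - s) * wf a b h s : ℝ) : ℂ)) := by
    refine contDiff_const.mul (hC _ ?_)
    exact (contDiff_id.mul (contDiff_const.sub contDiff_id)).mul (contDiff_wf hab hh hpos)
  rw [contDiff_pi]
  intro i
  fin_cases i
  · exact h0
  · exact h1
  · exact contDiff_const

/-- the density -/
def psi (a b : ℝ) (h : ℝ → ℝ) (s : ℝ) : ℝ := (b - a) / (qf s ^ 2 * wf a b h s ^ 5)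

lemma psi_pos {a b : ℝ} (hab : a < b) {h : ℝ → ℝ} (hpos : ∀ x ∈ Icc a b, 0 < h x) (s : ℝ) :
    0 < psi a b h s := by
  have h0 := qf_pos s
  have h1 := wf_pos hab hpos s
  have hba : 0 < b - a := by linarith
  rw [psi]
  positivity

lemma continuous_psi {a b : ℝ} (hab : a < b) {h : ℝ → ℝ} (hh : ContDiff ℝ 1 h)
    (hpos : ∀ x ∈ Icc a b, 0 < h x) : Continuous (psi a b h) := by
  unfold psi
  refine continuous_const.div ?_ ?_
  · exact (contDiff_qf.continuous.pow 2).mul ((contDiff_wf hab hh hpos).continuous.pow 5)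
  · intro s
    exact mul_ne_zero (pow_ne_zero _ (qf_pos s).ne') (pow_ne_zero _ (wf_pos hab hpos s).ne')

section

variable {p : ℝ} {hp : (p : ℂ) ^ 2 ≠ 4} {a b : ℝ} {h : ℝ → ℝ} {sg : ℝ}

/-- the arc on the curve -/
def theArc (hp : (p : ℂ) ^ 2 ≠ 4) (hab : a < b) (hh : ContDiff ℝ 1 h)
    (hpos : ∀ x ∈ Icc a b, 0 < h x) (hsg : sg ^ 2 = 1)
    (hf : ∀ x : ℝ, x ^ 5 + p * x ^ 3 + x = sg * ((x - a) * (b - x) * h x))
    {ε η : ℂ} (hε : ε ^ 2 = 1) (hη : η ^ 6 = ε * sg) : (sextic (p : ℂ) hp).Arc where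
  toFun := arcFun a b h ε η
  contDiffOn := (arcFun_contDiff hab hh hpos ε η).contDiffOn
  mem_cone s _ := by
    rw [mem_cone_sextic]
    constructor
    · intro h0
      have := congrFun h0 2
      simp [arcFun] at this
    · have hw := wf_pow hab hpos s
      have hx := hf (xf a b s)
      have hq := (qf_pos s).ne'
      have hy : (s * (1 - s) * wf a b h s) ^ 6 =
          sg * ((xf a b s) ^ 5 + p * (xf a b s) ^ 3 + xf a b s) := by
        rw [hx, xf_sub, sub_xf, mul_pow, mul_pow, hw]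
        field_simp
        linear_combination (-((b - a) ^ 2 * s ^ 6 * (1 - s) ^ 6 * h (xf a b s))) * hsg
      have hyc : ((s * (1 - s) * wf a b h s : ℝ) : ℂ) ^ 6 =
          sg * (((xf a b s : ℝ) : ℂ) ^ 5 + p * ((xf a b s : ℝ) : ℂ) ^ 3 + ((xf a b s : ℝ) : ℂ)) := by
        exact_mod_cast hy
      have hsgc : (sg : ℂ) ^ 2 = 1 := by exact_mod_cast hsg
      simp only [arcFun, Matrix.cons_val_zero, Matrix.cons_val_one, Matrix.cons_val_two,
        Matrix.head_cons, Matrix.tail_cons, Matrix.cons_val]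
      rw [mul_pow, hyc, hη]
      generalize ((xf a b s : ℝ) : ℂ) = x
      linear_combination (ε * (x ^ 5 + p * x ^ 3 + x)) * hsgc -
        (ε * x ^ 5 * (ε ^ 2 + 1) + ε * p * x ^ 3) * hε

lemma theArc_integral (hab : a < b) (hh : ContDiff ℝ 1 h)
    (hpos : ∀ x ∈ Icc a b, 0 < h x) (hsg : sg ^ 2 = 1)
    (hf : ∀ x : ℝ, x ^ 5 + p * x ^ 3 + x = sg * ((x - a) * (b - x) * h x))
    {ε η : ℂ} (hε : ε ^ 2 = 1) (hη : η ^ 6 = ε * sg) (g2 g0 : ℂ) :
    (theArc hp hab hh hpos hsg hf hε hη).integral (cub 0 g2 0 g0) = sg * η *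
      (g2 * ((∫ s in (0:ℝ)..1, xf a b s ^ 2 * psi a b h s : ℝ) : ℂ) +
        g0 * ((∫ s in (0:ℝ)..1, psi a b h s : ℝ) : ℂ)) := by
  set Γ := theArc hp hab hh hpos hsg hf hε hη with hΓ
  have hsgc : (sg : ℂ) ^ 2 = 1 := by exact_mod_cast hsg
  have hη0 : η ≠ 0 := by
    intro h0
    rw [h0] at hη
    have : (ε * sg) ^ 2 = 0 := by rw [← hη]; norm_num
    rw [mul_pow, hε, hsgc] at this
    norm_num at this
  have hfun : Γ.toFun = arcFun a b h ε η := rfl
  have hdens : ∀ s ∈ Ioo (0:ℝ) 1, Γ.dens s = sg * η * (psi a b h s : ℝ) := by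
    intro s hs
    have hs' : s ∈ Icc (0:ℝ) 1 := ⟨hs.1.le, hs.2.le⟩
    have hu := (uniqueDiffOn_Icc zero_lt_one) s hs'
    have hd := Γ.hasDeriv hs'
    obtain ⟨-, e1, -⟩ := cross_eqs (Γ.cross hs')
    set v := derivWithin Γ.toFun (Icc 0 1) s with hv
    rw [hasDerivWithinAt_pi] at hd
    have d0 := hd 0
    have d2 := hd 2
    have v0 : v 0 = ε * ((6 * (b - a) * (s ^ 5 * (1 - s) ^ 5) / qf s ^ 2 : ℝ) : ℂ) := by
      have := ((hasDerivAt_xf a b s).ofReal_comp.const_mul ε).hasDerivWithinAt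
        (s := Icc 0 1)
      exact hu.eq_deriv _ d0 this
    have v2 : v 2 = 0 := by
      have : HasDerivWithinAt (fun _ : ℝ => (1:ℂ)) 0 (Icc 0 1) s := hasDerivWithinAt_const _ _ _
      exact hu.eq_deriv _ d2 this
    rw [v0, v2, grad_sextic, hfun] at e1
    simp only [arcFun, Matrix.cons_val_zero, Matrix.cons_val_one, Matrix.cons_val_two,
        Matrix.head_cons, Matrix.tail_cons, Matrix.cons_val] at e1
    have hw : (wf a b h s : ℂ) ≠ 0 := by exact_mod_cast (wf_pos hab hpos s).ne'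
    have hq : (qf s : ℂ) ≠ 0 := by exact_mod_cast (qf_pos s).ne'
    have hs0 : (s : ℂ) ≠ 0 := by exact_mod_cast hs.1.ne'
    have hs1 : (1 - s : ℂ) ≠ 0 := by
      have : (1 - s : ℝ) ≠ 0 := by linarith [hs.2]
      exact_mod_cast this
    have hne : (6 * (η * ((s:ℂ) * (1 - s) * wf a b h s)) ^ 5) ≠ 0 :=
      mul_ne_zero (by norm_num) (pow_ne_zero _ (mul_ne_zero hη0 (mul_ne_zero
        (mul_ne_zero hs0 hs1) hw)))
    apply mul_right_cancel₀ hne
    rw [psi]
    push_cast at e1 ⊢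
    rw [← e1]
    field_simp
    linear_combination (6 * ((b:ℂ) - a) * s ^ 5 * (1 - s) ^ 5) * ((-ε) * hsgc - sg * hη)
  have hcongr : Γ.integral (cub 0 g2 0 g0) = ∫ s in (0:ℝ)..1,
      (sg * η * (g2 * ((xf a b s ^ 2 * psi a b h s : ℝ) : ℂ) +
        g0 * ((psi a b h s : ℝ) : ℂ))) := by
    rw [PlaneCurve.Arc.integral_eq]
    apply intervalIntegral.integral_congr_Ioo_of_le zero_le_one
    intro s hs
    simp only
    rw [hdens s hs, eval_cub, hfun]
    simp only [arcFun, Matrix.cons_val_zero, Matrix.cons_val_one, Matrix.cons_val_two,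
        Matrix.head_cons, Matrix.tail_cons, Matrix.cons_val]
    push_cast
    linear_combination (g2 * ((xf a b s : ℝ) : ℂ) ^ 2 * (sg * η * (psi a b h s : ℝ))) * hε
  have hcx := (contDiff_xf a b).continuous
  have hcp := continuous_psi hab hh hpos
  have hi2 : IntervalIntegrable (fun s => ((xf a b s ^ 2 * psi a b h s : ℝ) : ℂ))
      MeasureTheory.volume 0 1 :=
    (Complex.continuous_ofReal.comp ((hcx.pow 2).mul hcp)).intervalIntegrable _ _
  have hi0 : IntervalIntegrable (fun s => ((psi a b h s : ℝ) : ℂ))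
      MeasureTheory.volume 0 1 := (Complex.continuous_ofReal.comp hcp).intervalIntegrable _ _
  rw [hcongr, intervalIntegral.integral_const_mul,
    intervalIntegral.integral_add (hi2.const_mul g2) (hi0.const_mul g0),
    intervalIntegral.integral_const_mul, intervalIntegral.integral_const_mul,
    intervalIntegral.integral_ofReal, intervalIntegral.integral_ofReal]

/-- The cycles on our curve coming from a real interval. -/
theorem exists_cycles (hp : (p : ℂ) ^ 2 ≠ 4) (ha : 0 ≤ a) (hab : a < b) (hh : ContDiff ℝ 1 h)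
    (hpos : ∀ x ∈ Icc a b, 0 < h x) (hsg : sg ^ 2 = 1)
    (hf : ∀ x : ℝ, x ^ 5 + p * x ^ 3 + x = sg * ((x - a) * (b - x) * h x)) :
    ∃ J0 J2 : ℝ, 0 < J0 ∧ a ^ 2 * J0 < J2 ∧ J2 < b ^ 2 * J0 ∧
      ∀ e : ℂ, e ^ 12 = 1 → ∃ c : (sextic (p : ℂ) hp).Arc →₀ ℤ,
        (sextic (p : ℂ) hp).boundary c = 0 ∧ ∀ g2 g0 : ℂ,
          (sextic (p : ℂ) hp).integral (cub 0 g2 0 g0) c = 2 * e * (g2 * J2 + g0 * J0) := by
  have hcx := (contDiff_xf a b).continuous
  have hcp := continuous_psi hab hh hpos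
  have hI0 : IntervalIntegrable (psi a b h) MeasureTheory.volume 0 1 :=
    hcp.intervalIntegrable _ _
  have hI2 : IntervalIntegrable (fun s => xf a b s ^ 2 * psi a b h s) MeasureTheory.volume 0 1 :=
    ((hcx.pow 2).mul hcp).intervalIntegrable _ _
  refine ⟨∫ s in (0:ℝ)..1, psi a b h s, ∫ s in (0:ℝ)..1, xf a b s ^ 2 * psi a b h s, ?_, ?_, ?_, ?_⟩
  · exact intervalIntegral.intervalIntegral_pos_of_pos_on hI0
      (fun s _ => psi_pos hab hpos s) zero_lt_one
  · have : 0 < ∫ s in (0:ℝ)..1, (xf a b s ^ 2 * psi a b h s - a ^ 2 * psi a b h s) := by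
      refine intervalIntegral.intervalIntegral_pos_of_pos_on (hI2.sub (hI0.const_mul _)) ?_
        zero_lt_one
      intro s hs
      have h1 := psi_pos hab hpos s
      have h2 := xf_mem' hab hs
      have : a ^ 2 < xf a b s ^ 2 := by nlinarith [h2.1]
      nlinarith
    rw [intervalIntegral.integral_sub hI2 (hI0.const_mul _),
      intervalIntegral.integral_const_mul] at this
    linarith
  · have : 0 < ∫ s in (0:ℝ)..1, (b ^ 2 * psi a b h s - xf a b s ^ 2 * psi a b h s) := by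
      refine intervalIntegral.intervalIntegral_pos_of_pos_on ((hI0.const_mul _).sub hI2) ?_
        zero_lt_one
      intro s hs
      have h1 := psi_pos hab hpos s
      have h2 := xf_mem' hab hs
      have : xf a b s ^ 2 < b ^ 2 := by nlinarith [h2.1, h2.2]
      nlinarith
    rw [intervalIntegral.integral_sub (hI0.const_mul _) hI2,
      intervalIntegral.integral_const_mul] at this
    linarith
  · intro e he
    have hsgc : (sg : ℂ) ^ 2 = 1 := by exact_mod_cast hsg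
    have hε : (e ^ 6 * sg) ^ 2 = 1 := by
      linear_combination sg ^ 2 * he + hsgc
    have hη : (sg * e) ^ 6 = (e ^ 6 * sg) * sg := by
      linear_combination (e ^ 6 * (sg ^ 4 + sg ^ 2)) * hsgc
    have hη' : (-(sg * e)) ^ 6 = (e ^ 6 * sg) * sg := by
      linear_combination (e ^ 6 * (sg ^ 4 + sg ^ 2)) * hsgc
    refine ⟨Finsupp.single (theArc hp hab hh hpos hsg hf hε hη) 1 -
      Finsupp.single (theArc hp hab hh hpos hsg hf hε hη') 1, ?_, ?_⟩
    · rw [PlaneCurve.boundary_sub, PlaneCurve.boundary_single, PlaneCurve.boundary_single]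
      have h1 : (theArc hp hab hh hpos hsg hf hε hη).pt 1 =
          (theArc hp hab hh hpos hsg hf hε hη').pt 1 := by
        simp [PlaneCurve.Arc.pt, theArc, arcFun]
      have h0 : (theArc hp hab hh hpos hsg hf hε hη).pt 0 =
          (theArc hp hab hh hpos hsg hf hε hη').pt 0 := by
        simp [PlaneCurve.Arc.pt, theArc, arcFun]
      rw [h1, h0, sub_self]
    · intro g2 g0
      rw [PlaneCurve.integral_sub, PlaneCurve.integral_single, PlaneCurve.integral_single,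
        theArc_integral, theArc_integral]
      push_cast
      generalize ((∫ s in (0:ℝ)..1, psi a b h s : ℝ) : ℂ) = J0
      generalize ((∫ s in (0:ℝ)..1, xf a b s ^ 2 * psi a b h s : ℝ) : ℂ) = J2
      linear_combination (2 * e * (g2 * J2 + g0 * J0)) * hsgc

end

end Pool.Agent.Helper31
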