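import Mathlib
import Pool.Agent.Helper31.Sections

open Set
open scoped LinearAlgebra.Projectivization Matrix Topology

noncomputable section

namespace Pool.Agent.Helper31

lemma exists_lam (β : ℝ) (h1 : 1 ≤ β) (h2 : β ≤ 2) : ∃ l : ℝ, 1 < l ∧
    27 * (21 * l ^ 2 * (3 * l ^ 2 + 3 * l + 1) ^ 2 + 14 * l * (3 * l ^ 2 + 3 * l + 1) + 1) =
      β * (l * (7 * (3 * l ^ 2 + 3 * l + 1) ^ 2 + 42 * l ^ 3 * (3 * l ^ 2 + 3 * l + 1) +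
        27 * l ^ 6)) := by
  set φ : ℝ → ℝ := fun l => β * (l * (7 * (3 * l ^ 2 + 3 * l + 1) ^ 2 +
      42 * l ^ 3 * (3 * l ^ 2 + 3 * l + 1) + 27 * l ^ 6)) -
    27 * (21 * l ^ 2 * (3 * l ^ 2 + 3 * l + 1) ^ 2 + 14 * l * (3 * l ^ 2 + 3 * l + 1) + 1) with hφ
  have hc : ContinuousOn φ (Icc 1 1000) := by
    apply Continuous.continuousOn
    rw [hφ]
    fun_prop
  have hφ1 : φ 1 < 0 := by
    simp only [hφ]
    norm_num
    linarith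
  have hφ2 : 0 < φ 1000 := by
    simp only [hφ]
    norm_num
    linarith
  obtain ⟨l, hl, hl0⟩ := intermediate_value_Icc (by norm_num : (1:ℝ) ≤ 1000) hc
    (show (0:ℝ) ∈ Icc (φ 1) (φ 1000) from ⟨hφ1.le, hφ2.le⟩)
  refine ⟨l, ?_, ?_⟩
  · rcases hl.1.lt_or_eq with h | h
    · exact h
    · rw [← h] at hl0
      exact absurd hl0 hφ1.ne
  · simp only [hφ] at hl0
    linarith

open Polynomial in
lemma lam_algebraic {β l : ℝ} {N : ℕ} (hN : N ≠ 0) (hβ : β ^ N = 2)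
    (h : 27 * (21 * l ^ 2 * (3 * l ^ 2 + 3 * l + 1) ^ 2 + 14 * l * (3 * l ^ 2 + 3 * l + 1) + 1) =
      β * (l * (7 * (3 * l ^ 2 + 3 * l + 1) ^ 2 + 42 * l ^ 3 * (3 * l ^ 2 + 3 * l + 1) +
        27 * l ^ 6))) : IsAlgebraic ℚ (l : ℂ) := by
  have hR : IsAlgebraic ℚ l := by
    refine ⟨(27 * (21 * X ^ 2 * (3 * X ^ 2 + 3 * X + 1) ^ 2 +
      14 * X * (3 * X ^ 2 + 3 * X + 1) + 1)) ^ N - 2 * (X * (7 * (3 * X ^ 2 + 3 * X + 1) ^ 2 +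
      42 * X ^ 3 * (3 * X ^ 2 + 3 * X + 1) + 27 * X ^ 6)) ^ N, ?_, ?_⟩
    · intro h0
      have := congrArg (Polynomial.eval 0) h0
      simp [hN] at this
    · simp only [map_sub, map_mul, map_pow, map_add, map_one, aeval_X, map_ofNat]
      rw [h, mul_pow, hβ]
      ring
  exact hR.algebraMap (A := ℂ)

/-- All the data of one of our curves. -/
structure Datum (β : ℝ) where
  /-- the parameter of the curve -/
  p : ℝ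
  hp : p < -2
  (m₁ m₂ s₁ s₂ : ℂ)
  hm₁ : m₁ ≠ 0
  hm₂ : m₂ ≠ 0
  h₁ : 16 * m₁ ^ 6 = 3 * s₁ ^ 2 - 6 * s₁ - 1
  h₂ : 16 * m₂ ^ 6 = 3 * s₂ ^ 2 - 6 * s₂ - 1
  hp₁ : m₁ ^ 12 * ((p : ℂ) + 2) = - s₁ ^ 3
  hp₂ : m₂ ^ 12 * ((p : ℂ) + 2) = - s₂ ^ 3
  hD : (1 / m₁) * Sec.Bcoef m₂ s₂ - (1 / m₂) * Sec.Bcoef m₁ s₁ ≠ 0
  hB : Sec.Bcoef m₂ s₂ ≠ 0
  hρ : Sec.Bcoef m₁ s₁ = -((2 * zeta + 1) / 81 * β) * Sec.Bcoef m₂ s₂
  am₁ : IsAlgebraic ℚ m₁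
  am₂ : IsAlgebraic ℚ m₂
  as₁ : IsAlgebraic ℚ s₁
  as₂ : IsAlgebraic ℚ s₂
  ap : IsAlgebraic ℚ (p : ℂ)

lemma theta_eq : 2 * zeta + 1 = Complex.I * (Real.sqrt 3 : ℂ) := by
  apply Complex.ext
  · simp [zeta]; norm_num
  · simp [zeta]; ring

lemma isAlgebraic_sqrt3 : IsAlgebraic ℚ ((Real.sqrt 3 : ℝ) : ℂ) := by
  apply IsAlgebraic.of_pow (n := 2) (by norm_num)
  have : ((Real.sqrt 3 : ℝ) : ℂ) ^ 2 = (3 : ℕ) := by
    rw [← Complex.ofReal_pow, Real.sq_sqrt (by norm_num)]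
    norm_num
  rw [this]
  exact isAlgebraic_natCast 3

lemma isAlgebraic_I : IsAlgebraic ℚ Complex.I := by
  apply IsAlgebraic.of_pow (n := 4) (by norm_num)
  rw [Complex.I_pow_four]
  exact isAlgebraic_one

theorem exists_datum (β : ℝ) (h1 : 1 ≤ β) (h2 : β ≤ 2) {N : ℕ} (hN : N ≠ 0) (hβ : β ^ N = 2) :
    Nonempty (Datum β) := by
  obtain ⟨l, hl, heq⟩ := exists_lam β h1 h2
  have hal := lam_algebraic hN hβ heq
  have hl0 : 0 < l := by linarith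
  set T : ℝ := 3 * l ^ 2 + 3 * l + 1 with hT
  have hT7 : 7 < T := by rw [hT]; nlinarith
  have hT0 : 0 < T := by linarith
  set s₁ : ℝ := l * T with hs₁
  set s₂ : ℝ := T / (9 * l ^ 3) with hs₂
  have hs₁7 : 7 < s₁ := by rw [hs₁]; nlinarith
  have hs₂0 : 0 < s₂ := by rw [hs₂]; positivity
  set X₁ : ℝ := (3 * s₁ ^ 2 - 6 * s₁ - 1) / 16 with hX₁
  have hX₁0 : 0 < X₁ := by rw [hX₁]; nlinarith
  obtain ⟨μ, hμ, hμ6⟩ : ∃ μ : ℝ, 0 < μ ∧ μ ^ 6 = X₁ := by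
    refine ⟨X₁ ^ ((6:ℝ)⁻¹), by positivity, ?_⟩
    have := Real.rpow_inv_natCast_pow hX₁0.le (n := 6) (by norm_num)
    exact_mod_cast this
  set r : ℝ := Real.sqrt 3 with hr
  have hr2 : r ^ 2 = 3 := Real.sq_sqrt (by norm_num)
  have hr0 : 0 < r := by rw [hr]; positivity
  have hr0' : (r : ℂ) ≠ 0 := by exact_mod_cast hr0.ne'
  have hl0' : (l : ℂ) ≠ 0 := by exact_mod_cast hl0.ne'
  have hμ0' : (μ : ℂ) ≠ 0 := by exact_mod_cast hμ.ne'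
  have hr2' : (r : ℂ) ^ 2 = 3 := by exact_mod_cast hr2
  set m₂ : ℂ := Complex.I * μ / (r * l) with hm₂
  have hm₂l : m₂ * (r * l) = Complex.I * μ := by
    rw [hm₂]; field_simp
  have hm₂0 : m₂ ≠ 0 := by
    rw [hm₂]
    exact div_ne_zero (mul_ne_zero Complex.I_ne_zero hμ0') (mul_ne_zero hr0' hl0')
  have hm₂6 : m₂ ^ 6 * (27 * l ^ 6) = - μ ^ 6 := by
    have h := congrArg (· ^ 6) hm₂l
    simp only [mul_pow] at h
    have hI6 : Complex.I ^ 6 = -1 := by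
      rw [show (6:ℕ) = 4 + 2 from rfl, pow_add, Complex.I_pow_four, Complex.I_sq]; ring
    have hr6 : (r : ℂ) ^ 6 = 27 := by
      rw [show (6:ℕ) = 2 * 3 from rfl, pow_mul, hr2']; norm_num
    rw [hI6, hr6] at h
    linear_combination h
  -- key polynomial identity
  have hkey : 27 * l ^ 6 * (3 * s₂ ^ 2 - 6 * s₂ - 1) = -(3 * s₁ ^ 2 - 6 * s₁ - 1) := by
    rw [hs₁, hs₂, hT]
    field_simp
    ring
  have hs₂l : s₂ * (9 * l ^ 3) = T := by rw [hs₂]; field_simp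
  set p : ℝ := -2 - s₁ ^ 3 / μ ^ 12 with hp
  have hp12 : μ ^ 12 * (p + 2) = - s₁ ^ 3 := by
    rw [hp]; field_simp; ring
  have R₁ : 0 < 21 * s₁ ^ 2 + 14 * s₁ + 1 := by positivity
  have R₂ : 0 < 21 * s₂ ^ 2 + 14 * s₂ + 1 := by positivity
  have hβ' : 21 * s₁ ^ 2 + 14 * s₁ + 1 = β * (l ^ 7 * (21 * s₂ ^ 2 + 14 * s₂ + 1)) := by
    have e : 27 * l ^ 6 * (21 * s₂ ^ 2 + 14 * s₂ + 1) =
        7 * T ^ 2 + 42 * l ^ 3 * T + 27 * l ^ 6 := by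
      rw [← hs₂l]; ring
    have : 27 * (21 * s₁ ^ 2 + 14 * s₁ + 1) =
        27 * (β * (l ^ 7 * (21 * s₂ ^ 2 + 14 * s₂ + 1))) := by
      rw [hs₁]
      linear_combination heq - (β * l) * e
    linarith
  have hm₂7 : m₂ ^ 7 * (27 * r * l ^ 7) = - (Complex.I * μ ^ 7) := by
    linear_combination (m₂ ^ 6 * 27 * l ^ 6) * hm₂l + (Complex.I * μ) * hm₂6
  have aT : IsAlgebraic ℚ (T : ℂ) := by
    rw [hT]; push_cast
    exact (((isAlgebraic_natCast 3).mul (hal.pow 2)).add ((isAlgebraic_natCast 3).mul hal)).add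
      isAlgebraic_one
  have as₁ : IsAlgebraic ℚ (s₁ : ℂ) := by
    rw [hs₁]; push_cast; exact hal.mul aT
  have as₂ : IsAlgebraic ℚ (s₂ : ℂ) := by
    rw [hs₂]; push_cast; rw [div_eq_mul_inv]
    exact aT.mul (((isAlgebraic_natCast 9).mul (hal.pow 3)).inv)
  have aμ : IsAlgebraic ℚ (μ : ℂ) := by
    apply IsAlgebraic.of_pow (n := 6) (by norm_num)
    rw [← Complex.ofReal_pow, hμ6, hX₁]
    push_cast
    rw [div_eq_mul_inv]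
    exact (((((isAlgebraic_natCast 3).mul (as₁.pow 2)).sub ((isAlgebraic_natCast 6).mul as₁)).sub
      isAlgebraic_one)).mul (isAlgebraic_natCast 16).inv
  have am₂ : IsAlgebraic ℚ m₂ := by
    rw [hm₂, div_eq_mul_inv]
    exact (isAlgebraic_I.mul aμ).mul ((isAlgebraic_sqrt3.mul hal).inv)
  have ap : IsAlgebraic ℚ (p : ℂ) := by
    rw [hp]; push_cast; rw [div_eq_mul_inv]
    exact ((isAlgebraic_natCast 2).neg).sub ((as₁.pow 3).mul ((aμ.pow 12).inv))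
  have hμ6' : (μ : ℂ) ^ 6 = X₁ := by exact_mod_cast hμ6
  have hX₁c : 16 * (X₁ : ℂ) = 3 * (s₁ : ℂ) ^ 2 - 6 * s₁ - 1 := by
    have : 16 * X₁ = 3 * s₁ ^ 2 - 6 * s₁ - 1 := by rw [hX₁]; ring
    exact_mod_cast this
  have hkeyc : 27 * (l : ℂ) ^ 6 * (3 * (s₂ : ℂ) ^ 2 - 6 * s₂ - 1) =
      -(3 * (s₁ : ℂ) ^ 2 - 6 * s₁ - 1) := by exact_mod_cast hkey
  have hl6 : (27 * (l : ℂ) ^ 6) ≠ 0 := mul_ne_zero (by norm_num) (pow_ne_zero _ hl0')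
  have hs₂lc : (s₂ : ℂ) * (9 * l ^ 3) = T := by exact_mod_cast hs₂l
  have hs₁c : (s₁ : ℂ) = l * T := by rw [hs₁]; push_cast; ring
  have hp12c : (μ : ℂ) ^ 12 * ((p : ℂ) + 2) = - (s₁ : ℂ) ^ 3 := by exact_mod_cast hp12
  have hβc : 21 * (s₁ : ℂ) ^ 2 + 14 * s₁ + 1 =
      β * (l ^ 7 * (21 * (s₂ : ℂ) ^ 2 + 14 * s₂ + 1)) := by exact_mod_cast hβ'
  have R₂c : (21 * (s₂ : ℂ) ^ 2 + 14 * s₂ + 1) ≠ 0 := by exact_mod_cast R₂.ne'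
  refine ⟨⟨p, ?_, (μ : ℂ), m₂, s₁, s₂, hμ0', hm₂0, ?_, ?_, hp12c, ?_, ?_, ?_, ?_, aμ, am₂,
    as₁, as₂, ap⟩⟩
  · have : 0 < s₁ ^ 3 / μ ^ 12 := by positivity
    rw [hp]; linarith
  · rw [hμ6', hX₁c]
  · apply mul_left_cancel₀ hl6
    linear_combination 16 * hm₂6 - hkeyc - hX₁c - 16 * hμ6'
  · have hl12 : (729 * (l : ℂ) ^ 12) ≠ 0 := mul_ne_zero (by norm_num) (pow_ne_zero _ hl0')
    apply mul_left_cancel₀ hl12
    have e12 : m₂ ^ 12 * (729 * l ^ 12) = μ ^ 12 := by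
      linear_combination (m₂ ^ 6 * (27 * l ^ 6) - μ ^ 6) * hm₂6
    have e3 : (s₂ : ℂ) ^ 3 * (729 * l ^ 9) = T ^ 3 := by
      rw [← hs₂lc]; ring
    rw [hs₁c] at hp12c
    linear_combination ((p : ℂ) + 2) * e12 + hp12c + l ^ 3 * e3
  · -- D ≠ 0
    have e : (16 * (μ : ℂ) * m₂) * (1 / (μ : ℂ) * Sec.Bcoef m₂ s₂ -
        1 / m₂ * Sec.Bcoef (μ : ℂ) s₁) = (((21 * s₁ ^ 2 + 14 * s₁ + 1) / X₁ +
          (21 * s₂ ^ 2 + 14 * s₂ + 1) * (27 * l ^ 6) / X₁ : ℝ) : ℂ) := by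
      have hX₁c0 : (X₁ : ℂ) ≠ 0 := by exact_mod_cast hX₁0.ne'
      have em : (27 * (l : ℂ) ^ 6) / X₁ = - 1 / m₂ ^ 6 := by
        rw [div_eq_div_iff hX₁c0 (pow_ne_zero _ hm₂0)]
        linear_combination hm₂6 - hμ6'
      push_cast
      rw [mul_div_assoc, em, ← hμ6']
      simp only [Sec.Bcoef]
      field_simp
      ring
    intro h0
    rw [h0, mul_zero] at e
    have : (21 * s₁ ^ 2 + 14 * s₁ + 1) / X₁ +
          (21 * s₂ ^ 2 + 14 * s₂ + 1) * (27 * l ^ 6) / X₁ = 0 := by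
      exact_mod_cast e.symm
    have : 0 < (21 * s₁ ^ 2 + 14 * s₁ + 1) / X₁ +
          (21 * s₂ ^ 2 + 14 * s₂ + 1) * (27 * l ^ 6) / X₁ := by positivity
    linarith
  · rw [Sec.Bcoef]
    exact div_ne_zero (neg_ne_zero.mpr R₂c) (mul_ne_zero (by norm_num) (pow_ne_zero _ hm₂0))
  · rw [theta_eq, Sec.Bcoef, Sec.Bcoef, hβc]
    have hm7 : m₂ ^ 7 = -(Complex.I * μ ^ 7) / (27 * r * l ^ 7) := by
      rw [eq_div_iff (mul_ne_zero (mul_ne_zero (by norm_num) hr0') (pow_ne_zero _ hl0'))]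
      linear_combination hm₂7
    rw [hm7]
    have hI := Complex.I_ne_zero
    field_simp
    linear_combination (27 * β * (21 * (s₂ : ℂ) ^ 2 + 14 * s₂ + 1)) * hr2'

end Pool.Agent.Helper31
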