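import Mathlib
import Pool.Agent.Helper31.Params

open Set IntermediateField

noncomputable section

namespace Pool.Agent.Helper31

/-- The field `ℚ(i, ζ)`. -/
def KK : IntermediateField ℚ ℂ := ℚ⟮Complex.I⟯ ⊔ ℚ⟮zeta⟯

lemma I_mem : Complex.I ∈ KK :=
  (le_sup_left : ℚ⟮Complex.I⟯ ≤ KK) (mem_adjoin_simple_self ℚ _)

lemma zeta_mem : zeta ∈ KK :=
  (le_sup_right : ℚ⟮zeta⟯ ≤ KK) (mem_adjoin_simple_self ℚ _)

lemma lattice_mem {z : ℂ} (hz : z ∈ hexPair.lattice) : z ∈ KK := by
  rw [PeriodPair.mem_lattice] at hz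
  obtain ⟨m, n, rfl⟩ := hz
  simp only [hexPair]
  exact KK.add_mem (KK.mul_mem (intCast_mem KK m) KK.one_mem)
    (KK.mul_mem (intCast_mem KK n) zeta_mem)

lemma isIntegral_I : IsIntegral ℚ Complex.I := isAlgebraic_I.isIntegral

lemma isAlgebraic_zeta : IsAlgebraic ℚ zeta := by
  apply IsAlgebraic.of_pow (n := 3) (by norm_num)
  rw [zeta_cube]
  exact isAlgebraic_one

open Polynomial in
lemma finrank_I : Module.finrank ℚ ℚ⟮Complex.I⟯ ≤ 2 := by
  rw [IntermediateField.adjoin.finrank isIntegral_I]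
  have h : (X ^ 2 + 1 : ℚ[X]) ≠ 0 := by
    intro h
    have := congrArg (Polynomial.eval 0) h
    simp at this
  have hd : minpoly ℚ Complex.I ∣ X ^ 2 + 1 := by
    apply minpoly.dvd
    simp
  refine (natDegree_le_of_dvd hd h).trans ?_
  compute_degree

open Polynomial in
lemma finrank_zeta : Module.finrank ℚ ℚ⟮zeta⟯ ≤ 2 := by
  rw [IntermediateField.adjoin.finrank isAlgebraic_zeta.isIntegral]
  have h : (X ^ 2 + X + 1 : ℚ[X]) ≠ 0 := by
    intro h
    have := congrArg (Polynomial.eval 0) h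
    simp at this
  have hd : minpoly ℚ zeta ∣ X ^ 2 + X + 1 := by
    apply minpoly.dvd
    simpa using zeta_rel
  refine (natDegree_le_of_dvd hd h).trans ?_
  compute_degree

instance : FiniteDimensional ℚ ℚ⟮Complex.I⟯ := adjoin.finiteDimensional isIntegral_I
instance : FiniteDimensional ℚ ℚ⟮zeta⟯ := adjoin.finiteDimensional isAlgebraic_zeta.isIntegral
instance : FiniteDimensional ℚ KK := by unfold KK; infer_instance

lemma finrank_KK : Module.finrank ℚ KK ≤ 4 := by
  have := IntermediateField.finrank_sup_le ℚ⟮Complex.I⟯ ℚ⟮zeta⟯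
  have h1 := finrank_I
  have h2 := finrank_zeta
  calc Module.finrank ℚ KK ≤ _ := this
    _ ≤ 2 * 2 := Nat.mul_le_mul h1 h2
    _ = 4 := by norm_num

lemma no_root {q : ℕ} (hq : 1 < q) (b : ℚ) : b ^ q ≠ 2 := by
  intro h
  have h1 := congrArg (padicValRat 2) h
  have h2 : padicValRat 2 (2 : ℚ) = 1 := by
    have := padicValRat.self (p := 2) (by norm_num)
    exact_mod_cast this
  rw [padicValRat.pow, h2] at h1
  have h3 : (q : ℤ) ∣ 1 := ⟨_, h1.symm⟩
  have h4 : q ∣ 1 := by exact_mod_cast h3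
  have := Nat.dvd_one.mp h4
  omega

open Polynomial in
lemma finrank_beta {q : ℕ} (hq : q.Prime) {β : ℂ} (hβ : β ^ q = 2) :
    Module.finrank ℚ ℚ⟮β⟯ = q ∧ IsAlgebraic ℚ β := by
  have hirr : Irreducible (X ^ q - Polynomial.C 2 : ℚ[X]) :=
    X_pow_sub_C_irreducible_of_prime hq (no_root hq.one_lt)
  have hmonic : (X ^ q - Polynomial.C 2 : ℚ[X]).Monic := monic_X_pow_sub_C _ hq.ne_zero
  have haeval : Polynomial.aeval β (X ^ q - Polynomial.C 2 : ℚ[X]) = 0 := by
    simp [hβ]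
  have hmin := minpoly.eq_of_irreducible_of_monic hirr haeval hmonic
  have halg : IsAlgebraic ℚ β := ⟨_, hmonic.ne_zero, haeval⟩
  refine ⟨?_, halg⟩
  rw [IntermediateField.adjoin.finrank halg.isIntegral, ← hmin, natDegree_X_pow_sub_C]

/-- `ρ ∈ KK(ρ')` fails for the parameters attached to different primes `≥ 5`. -/
lemma beta_notMem {q q' : ℕ} (hq : q.Prime) (hq' : q'.Prime) (h5 : 5 ≤ q) (hne : q ≠ q')
    {β β' : ℂ} (hβ : β ^ q = 2) (hβ' : β' ^ q' = 2) : β ∉ KK ⊔ ℚ⟮β'⟯ := by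
  intro hmem
  obtain ⟨f1, a1⟩ := finrank_beta hq hβ
  obtain ⟨f2, a2⟩ := finrank_beta hq' hβ'
  have : FiniteDimensional ℚ ℚ⟮β⟯ := adjoin.finiteDimensional a1.isIntegral
  have : FiniteDimensional ℚ ℚ⟮β'⟯ := adjoin.finiteDimensional a2.isIntegral
  set F := KK ⊔ ℚ⟮β'⟯ with hF
  have : FiniteDimensional ℚ F := by rw [hF]; infer_instance
  have h1 : q ∣ Module.finrank ℚ F := by
    rw [← f1]
    apply IntermediateField.finrank_dvd_of_le_right
    rw [IntermediateField.adjoin_simple_le_iff]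
    exact hmem
  have h2 : q' ∣ Module.finrank ℚ F := by
    conv_lhs => rw [← f2]
    apply IntermediateField.finrank_dvd_of_le_right
    exact le_sup_right
  have h3 : Module.finrank ℚ F ≤ 4 * q' := by
    refine (IntermediateField.finrank_sup_le _ _).trans ?_
    rw [f2]
    exact Nat.mul_le_mul_right _ finrank_KK
  have hcop : q.Coprime q' := (Nat.coprime_primes hq hq').mpr hne
  have h4 : q * q' ∣ Module.finrank ℚ F := hcop.mul_dvd_of_dvd_of_dvd h1 h2
  have h5' := Nat.le_of_dvd Module.finrank_pos h4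
  have := hq'.pos
  nlinarith

lemma beta_notMem_KK {q : ℕ} (hq : q.Prime) (h5 : 5 ≤ q)
    {β : ℂ} (hβ : β ^ q = 2) : β ∉ KK := by
  intro hmem
  obtain ⟨f1, a1⟩ := finrank_beta hq hβ
  have : FiniteDimensional ℚ ℚ⟮β⟯ := adjoin.finiteDimensional a1.isIntegral
  have h1 : q ∣ Module.finrank ℚ KK := by
    rw [← f1]
    apply IntermediateField.finrank_dvd_of_le_right
    rw [IntermediateField.adjoin_simple_le_iff]
    exact hmem
  have := Nat.le_of_dvd Module.finrank_pos h1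
  have := finrank_KK
  omega

/-- if `x₁ = r x₂` with `r ∈ F` then `ρ ∈ F` -/
lemma rho_mem {F : IntermediateField ℚ ℂ} {u₁ v₁ u₂ v₂ ρ r : ℂ} (hu₁ : u₁ ∈ F) (hv₁ : v₁ ∈ F)
    (hu₂ : u₂ ∈ F) (hv₂ : v₂ ∈ F) (hdet : u₁ * v₂ - u₂ * v₁ ≠ 0) (hr : r ∈ F)
    (h : u₁ + ρ * v₁ = r * (u₂ + ρ * v₂)) : ρ ∈ F := by
  have hne : v₁ - r * v₂ ≠ 0 := by
    intro h0
    apply hdet
    have : u₁ - r * u₂ = 0 := by linear_combination h - ρ * h0
    linear_combination v₂ * this - u₂ * h0
  have : ρ = -(u₁ - r * u₂) / (v₁ - r * v₂) := by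
    rw [eq_div_iff hne]
    linear_combination h
  rw [this]
  exact F.div_mem (F.neg_mem (F.sub_mem hu₁ (F.mul_mem hr hu₂)))
    (F.sub_mem hv₁ (F.mul_mem hr hv₂))

/-- the four elements `1, ζ, i, iζ` -/
def ee : Fin 4 → KK := ![1, ⟨zeta, zeta_mem⟩, ⟨Complex.I, I_mem⟩,
  ⟨Complex.I * zeta, KK.mul_mem I_mem zeta_mem⟩]

lemma ee_pow (a : Fin 4) : ((ee a : KK) : ℂ) ^ 12 = 1 := by
  have hz : zeta ^ 12 = 1 := by
    rw [show 12 = 3 * 4 from rfl, pow_mul, zeta_cube, one_pow]
  have hI : Complex.I ^ 12 = 1 := by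
    rw [show 12 = 4 * 3 from rfl, pow_mul, Complex.I_pow_four, one_pow]
  fin_cases a
  · simp [ee]
  · simpa [ee] using hz
  · simpa [ee] using hI
  · simp [ee, mul_pow, hz, hI]

lemma ee_linInd : LinearIndependent ℚ ee := by
  rw [Fintype.linearIndependent_iff]
  intro g hg
  have hg' := congrArg (fun x : KK => (x : ℂ)) hg
  simp only [Fin.sum_univ_four, ee, Matrix.cons_val_zero, Matrix.cons_val_one,
    Matrix.cons_val_two, Matrix.cons_val_three, Matrix.head_cons, Matrix.tail_cons,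
    Matrix.cons_val] at hg'
  simp only [IntermediateField.coe_add, IntermediateField.coe_smul, IntermediateField.coe_one,
    IntermediateField.coe_zero, Rat.smul_def] at hg'
  have hre := congrArg Complex.re hg'
  have him := congrArg Complex.im hg'
  simp [zeta] at hre him
  have hirr : Irrational (Real.sqrt 3) := by
    have := Nat.Prime.irrational_sqrt Nat.prime_three
    exact_mod_cast this
  -- `(g0 - g1/2) - g3 √3/2 = 0`, `g1 √3/2 + g2 - g3/2 = 0`
  have key : ∀ x y : ℚ, (x : ℝ) + y * Real.sqrt 3 = 0 → x = 0 ∧ y = 0 := by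
    intro x y hxy
    have hy : y = 0 := by
      by_contra hy
      apply hirr
      refine ⟨-x / y, ?_⟩
      have hy' : (y : ℝ) ≠ 0 := by exact_mod_cast hy
      push_cast
      field_simp
      linarith
    refine ⟨?_, hy⟩
    rw [hy] at hxy
    simpa using hxy
  have k1 := key (g 0 - g 1 / 2) (-(g 3) / 2) (by push_cast; linarith)
  have k2 := key (g 2 - g 3 / 2) (g 1 / 2) (by push_cast; linarith)
  have h3 : g 3 = 0 := by linarith [k1.2]
  have h1 : g 1 = 0 := by linarith [k2.2]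
  have h0 : g 0 = 0 := by linarith [k1.1]
  have h2 : g 2 = 0 := by linarith [k2.1]
  intro i
  fin_cases i
  · exact h0
  · exact h1
  · exact h2
  · exact h3

lemma eight_linInd {J J' : ℂ} (hJ' : J' ≠ 0) (hJ : ∀ r ∈ KK, J ≠ r * J') :
    LinearIndependent ℤ (fun x : Fin 4 × Fin 2 => ((ee x.1 : KK) : ℂ) * ![J, J'] x.2) := by
  have hc : LinearIndependent KK ![J, J'] := by
    rw [LinearIndependent.pair_iff]
    intro s t hst
    simp only [IntermediateField.smul_def, smul_eq_mul] at hst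
    have hs : s = 0 := by
      by_contra hs
      have hs' : (s : ℂ) ≠ 0 := by exact_mod_cast hs
      apply hJ (-(t : ℂ) / s) (KK.div_mem (KK.neg_mem t.2) s.2)
      field_simp
      linear_combination hst
    refine ⟨hs, ?_⟩
    rw [hs] at hst
    simp only [ZeroMemClass.coe_zero, zero_mul, zero_add, mul_eq_zero] at hst
    rcases hst with h | h
    · exact_mod_cast h
    · exact absurd h hJ'
  have h := linearIndependent_smul ee_linInd hc
  have h2 : LinearIndependent ℤ (fun p : Fin 4 × Fin 2 => ee p.1 • ![J, J'] p.2) :=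
    h.restrict_scalars' ℤ
  exact h2

end Pool.Agent.Helper31
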