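import Mathlib
import Pool.Agent.Helper31.Field
import Pool.Agent.Helper31.Arcs

open MvPolynomial Set
open scoped LinearAlgebra.Projectivization Matrix Topology

noncomputable section

namespace Pool.Agent.Helper31

/-- The two families of cycles. -/
theorem exists_four {p : ℝ} (hp : p < -2) (hp4 : (p : ℂ) ^ 2 ≠ 4) :
    ∃ J K J' K' : ℝ, 0 < J ∧ 0 < J' ∧ K * J' < K' * J ∧
      (∀ e : ℂ, e ^ 12 = 1 → ∃ c : (sextic (p : ℂ) hp4).Arc →₀ ℤ,
        (sextic (p : ℂ) hp4).boundary c = 0 ∧ ∀ g2 g0 : ℂ,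
          (sextic (p : ℂ) hp4).integral (cub 0 g2 0 g0) c = 2 * e * (g2 * K + g0 * J)) ∧
      (∀ e : ℂ, e ^ 12 = 1 → ∃ c : (sextic (p : ℂ) hp4).Arc →₀ ℤ,
        (sextic (p : ℂ) hp4).boundary c = 0 ∧ ∀ g2 g0 : ℂ,
          (sextic (p : ℂ) hp4).integral (cub 0 g2 0 g0) c = 2 * e * (g2 * K' + g0 * J')) := by
  set δ : ℝ := -p - 2 with hδ
  have hδ0 : 0 < δ := by linarith
  set u : ℝ := Real.sqrt δ with hu
  set w : ℝ := Real.sqrt (δ + 4) with hw
  have hu0 : 0 < u := Real.sqrt_pos.mpr hδ0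
  have hu2 : u ^ 2 = δ := Real.sq_sqrt hδ0.le
  have hw2 : w ^ 2 = δ + 4 := Real.sq_sqrt (by linarith)
  have hw0 : 0 ≤ w := Real.sqrt_nonneg _
  have huw : u < w := by
    rw [hu, hw]
    exact Real.sqrt_lt_sqrt hδ0.le (by linarith)
  set α : ℝ := (w - u) / 2 with hα
  set γ : ℝ := (w + u) / 2 with hγ
  have hα0 : 0 < α := by rw [hα]; linarith
  have hαγ : α < γ := by rw [hα, hγ]; linarith
  have hprod : α * γ = 1 := by rw [hα, hγ]; linarith [hu2, hw2, (by ring : (w - u) / 2 * ((w + u) / 2) = (w ^ 2 - u ^ 2) / 4)]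
  have hsum : α ^ 2 + γ ^ 2 = -p := by
    have : α ^ 2 + γ ^ 2 = (w ^ 2 + u ^ 2) / 2 := by rw [hα, hγ]; ring
    rw [this, hw2, hu2, hδ]; ring
  have hfac : ∀ x : ℝ, x ^ 5 + p * x ^ 3 + x = x * (x ^ 2 - α ^ 2) * (x ^ 2 - γ ^ 2) := by
    intro x
    linear_combination (x ^ 3) * hsum - x * (α * γ + 1) * hprod
  obtain ⟨J, K, hJ, hK1, hK2, hc⟩ := exists_cycles (a := 0) (b := α)
    (h := fun x => (α + x) * (γ ^ 2 - x ^ 2)) (sg := 1) hp4 le_rfl hα0 (by fun_prop)
    (by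
      rintro x ⟨hx0, hx1⟩
      have h1 : 0 < α + x := by linarith
      have h2 : 0 < γ ^ 2 - x ^ 2 := by nlinarith
      exact mul_pos h1 h2) (by norm_num)
    (by
      intro x
      rw [hfac]
      ring)
  obtain ⟨J', K', hJ', hK1', hK2', hc'⟩ := exists_cycles (a := α) (b := γ)
    (h := fun x => x * (x + α) * (x + γ)) (sg := -1) hp4 hα0.le hαγ (by fun_prop)
    (by
      rintro x ⟨hx0, hx1⟩
      have h0 : 0 < x := by linarith
      positivity) (by norm_num)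
    (by
      intro x
      rw [hfac]
      ring)
  refine ⟨J, K, J', K', hJ, hJ', ?_, hc, hc'⟩
  nlinarith

/-- `p² ≠ 4` -/
lemma sq_ne_four {p : ℝ} (hp : p < -2) : (p : ℂ) ^ 2 ≠ 4 := by
  intro h
  have : p ^ 2 = 4 := by exact_mod_cast h
  nlinarith

namespace Datum

variable {β : ℝ} (D : Datum β)

/-- the curve -/
def curve : PlaneCurve 3 := sextic (D.p : ℂ) (sq_ne_four D.hp)

/-- `σ₁` -/
def sec₁ : Sec (D.p : ℂ) := Sec.ofParam D.m₁ D.s₁ D.p D.hm₁ D.h₁ D.hp₁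
/-- `σ₂` -/
def sec₂ : Sec (D.p : ℂ) := Sec.ofParam D.m₂ D.s₂ D.p D.hm₂ D.h₂ D.hp₂

/-- `B₁` -/
def B₁ : ℂ := Sec.Bcoef D.m₁ D.s₁
/-- `B₂` -/
def B₂ : ℂ := Sec.Bcoef D.m₂ D.s₂

/-- the determinant -/
def det : ℂ := (1 / D.m₁) * D.B₂ - (1 / D.m₂) * D.B₁

lemma det_ne_zero : D.det ≠ 0 := D.hD

lemma jac₁ : D.sec₁.jac = cub (1 / D.m₁) D.B₁ (-D.B₁) (-(1 / D.m₁)) :=
  Sec.jac_ofParam _ _ _ _ _ _
lemma jac₂ : D.sec₂.jac = cub (1 / D.m₂) D.B₂ (-D.B₂) (-(1 / D.m₂)) :=
  Sec.jac_ofParam _ _ _ _ _ _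

/-- `ρ` -/
def rho (_ : Datum β) : ℂ := (2 * zeta + 1) / 81 * β

/-- `c₁` -/
def c₁ : ℂ := -D.B₂ / (2 * D.det)

lemma c₁_ne_zero : D.c₁ ≠ 0 :=
  div_ne_zero (neg_ne_zero.mpr D.hB) (mul_ne_zero two_ne_zero D.det_ne_zero)

lemma c₂_eq : D.c₁ * D.rho = D.B₁ / (2 * D.det) := by
  have h := D.hρ
  rw [c₁, rho]
  have hB₁ : D.B₁ = -((2 * zeta + 1) / 81 * β) * D.B₂ := h
  rw [hB₁]
  ring

/-- the form `Z³` -/
def GG3 : MvPolynomial (Fin 3) ℂ := cub 0 0 0 1

/-- the form `E₁` -/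
def E₁ : MvPolynomial (Fin 3) ℂ := cub 0 (2 * D.B₁) 0 (-(2 * (1 / D.m₁)))
/-- the form `E₂` -/
def E₂ : MvPolynomial (Fin 3) ℂ := cub 0 (2 * D.B₂) 0 (-(2 * (1 / D.m₂)))

lemma GG3_eq : GG3 = D.c₁ • D.E₁ + (D.c₁ * D.rho) • D.E₂ := by
  rw [c₂_eq, c₁, E₁, E₂, GG3, cub_smul, cub_smul, cub_add]
  have hd := D.det_ne_zero
  apply cub_congr
  · ring
  · field_simp; ring
  · ring
  · have : D.B₂ * (1 / D.m₁) - D.B₁ * (1 / D.m₂) = D.det := by rw [det]; ring
    field_simp at this ⊢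
    rw [det]
    field_simp
    ring

/-! ### periods -/

lemma per₁ (c : D.curve.Arc →₀ ℤ) (hc : D.curve.boundary c = 0) :
    kappa * D.curve.integral D.E₁ c ∈ KK := by
  have h1 := lattice_mem (D.sec₁.period_mem c hc)
  have h2 := lattice_mem (D.sec₁.twist.period_mem c hc)
  have h3 : D.curve.integral D.E₁ c = D.curve.integral D.sec₁.jac c +
      (-Complex.I) * D.curve.integral D.sec₁.twist.jac c := by
    rw [E₁, D.sec₁.even_form D.jac₁, PlaneCurve.integral_add_form, PlaneCurve.integral_smul_form]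
  rw [h3]
  have : kappa * (D.curve.integral D.sec₁.jac c +
      (-Complex.I) * D.curve.integral D.sec₁.twist.jac c) =
      kappa * D.curve.integral D.sec₁.jac c -
        Complex.I * (kappa * D.curve.integral D.sec₁.twist.jac c) := by ring
  rw [this]
  exact KK.sub_mem h1 (KK.mul_mem I_mem h2)

lemma per₂ (c : D.curve.Arc →₀ ℤ) (hc : D.curve.boundary c = 0) :
    kappa * D.curve.integral D.E₂ c ∈ KK := by
  have h1 := lattice_mem (D.sec₂.period_mem c hc)
  have h2 := lattice_mem (D.sec₂.twist.period_mem c hc)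
  have h3 : D.curve.integral D.E₂ c = D.curve.integral D.sec₂.jac c +
      (-Complex.I) * D.curve.integral D.sec₂.twist.jac c := by
    rw [E₂, D.sec₂.even_form D.jac₂, PlaneCurve.integral_add_form, PlaneCurve.integral_smul_form]
  rw [h3]
  have : kappa * (D.curve.integral D.sec₂.jac c +
      (-Complex.I) * D.curve.integral D.sec₂.twist.jac c) =
      kappa * D.curve.integral D.sec₂.jac c -
        Complex.I * (kappa * D.curve.integral D.sec₂.twist.jac c) := by ring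
  rw [this]
  exact KK.sub_mem h1 (KK.mul_mem I_mem h2)

lemma integral_GG3 (c : D.curve.Arc →₀ ℤ) : kappa * D.curve.integral GG3 c =
    D.c₁ * (kappa * D.curve.integral D.E₁ c + D.rho * (kappa * D.curve.integral D.E₂ c)) := by
  rw [D.GG3_eq, PlaneCurve.integral_add_form, PlaneCurve.integral_smul_form,
    PlaneCurve.integral_smul_form]
  ring

/-- the ratio of two periods lies in `KK(ρ)` -/
lemma ratio_mem (c c' : D.curve.Arc →₀ ℤ) (hc : D.curve.boundary c = 0)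
    (hc' : D.curve.boundary c' = 0) :
    D.curve.integral GG3 c / D.curve.integral GG3 c' ∈ KK ⊔ IntermediateField.adjoin ℚ {D.rho} := by
  have hle : KK ≤ KK ⊔ IntermediateField.adjoin ℚ {D.rho} := le_sup_left
  have hρ : D.rho ∈ KK ⊔ IntermediateField.adjoin ℚ {D.rho} :=
    (le_sup_right : _ ≤ KK ⊔ IntermediateField.adjoin ℚ {D.rho})
      (IntermediateField.mem_adjoin_simple_self ℚ _)
  set F := KK ⊔ IntermediateField.adjoin ℚ {D.rho}
  have h1 : kappa * D.curve.integral D.E₁ c + D.rho * (kappa * D.curve.integral D.E₂ c) ∈ F :=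
    F.add_mem (hle (D.per₁ c hc)) (F.mul_mem hρ (hle (D.per₂ c hc)))
  have h2 : kappa * D.curve.integral D.E₁ c' + D.rho * (kappa * D.curve.integral D.E₂ c') ∈ F :=
    F.add_mem (hle (D.per₁ c' hc')) (F.mul_mem hρ (hle (D.per₂ c' hc')))
  have h3 : D.curve.integral GG3 c / D.curve.integral GG3 c' =
      (kappa * D.curve.integral GG3 c) / (kappa * D.curve.integral GG3 c') := by
    rw [mul_div_mul_left _ _ kappa_ne_zero]
  rw [h3, D.integral_GG3, D.integral_GG3, mul_div_mul_left _ _ D.c₁_ne_zero]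
  exact F.div_mem h1 h2

theorem main : ∃ J J' : ℂ, J' ≠ 0 ∧
    (∀ F : IntermediateField ℚ ℂ, KK ≤ F → ∀ r ∈ F, J = r * J' → D.rho ∈ F) ∧
    (∀ e : ℂ, e ^ 12 = 1 → ∃ c : D.curve.Arc →₀ ℤ,
      D.curve.boundary c = 0 ∧ D.curve.integral GG3 c = 2 * e * J) ∧
    (∀ e : ℂ, e ^ 12 = 1 → ∃ c : D.curve.Arc →₀ ℤ,
      D.curve.boundary c = 0 ∧ D.curve.integral GG3 c = 2 * e * J') := by
  obtain ⟨J, K, J', K', hJ, hJ', hKJ, hc, hc'⟩ := exists_four D.hp (sq_ne_four D.hp)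
  refine ⟨J, J', by exact_mod_cast hJ'.ne', ?_, ?_, ?_⟩
  · intro F hF r hr hJr
    obtain ⟨c, hc0, hci⟩ := hc 1 (one_pow _)
    obtain ⟨c', hc0', hci'⟩ := hc' 1 (one_pow _)
    have hu₁ := D.per₁ c hc0
    have hv₁ := D.per₂ c hc0
    have hu₂ := D.per₁ c' hc0'
    have hv₂ := D.per₂ c' hc0'
    have e₁ := D.integral_GG3 c
    have e₂ := D.integral_GG3 c'
    have i1 : D.curve.integral GG3 c = 2 * J := by
      refine (hci 0 1).trans ?_; ring
    have i2 : D.curve.integral GG3 c' = 2 * J' := by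
      refine (hci' 0 1).trans ?_; ring
    have i3 : D.curve.integral D.E₁ c = 2 * (2 * D.B₁ * K + -(2 * (1 / D.m₁)) * J) := by
      refine (hci _ _).trans ?_; ring
    have i4 : D.curve.integral D.E₁ c' = 2 * (2 * D.B₁ * K' + -(2 * (1 / D.m₁)) * J') := by
      refine (hci' _ _).trans ?_; ring
    have i5 : D.curve.integral D.E₂ c = 2 * (2 * D.B₂ * K + -(2 * (1 / D.m₂)) * J) := by
      refine (hci _ _).trans ?_; ring
    have i6 : D.curve.integral D.E₂ c' = 2 * (2 * D.B₂ * K' + -(2 * (1 / D.m₂)) * J') := by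
      refine (hci' _ _).trans ?_; ring
    refine rho_mem (hF hu₁) (hF hv₁) (hF hu₂) (hF hv₂) ?_ hr ?_
    · rw [i3, i4, i5, i6]
      have hd := D.det_ne_zero
      have hne : ((K' * J - K * J' : ℝ) : ℂ) ≠ 0 := by
        have : K' * J - K * J' ≠ 0 := by linarith
        exact_mod_cast this
      have : kappa * (2 * (2 * D.B₁ * K + -(2 * (1 / D.m₁)) * J)) *
            (kappa * (2 * (2 * D.B₂ * K' + -(2 * (1 / D.m₂)) * J'))) -
          kappa * (2 * (2 * D.B₁ * K' + -(2 * (1 / D.m₁)) * J')) *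
            (kappa * (2 * (2 * D.B₂ * K + -(2 * (1 / D.m₂)) * J))) =
          -16 * kappa ^ 2 * ((K' * J - K * J' : ℝ) : ℂ) * D.det := by
        rw [det]; push_cast; ring
      rw [this]
      exact mul_ne_zero (mul_ne_zero (mul_ne_zero (by norm_num) (pow_ne_zero _ kappa_ne_zero))
        hne) hd
    · apply mul_left_cancel₀ D.c₁_ne_zero
      rw [← e₁, i1]
      have : D.c₁ * (r * (kappa * D.curve.integral D.E₁ c' +
          D.rho * (kappa * D.curve.integral D.E₂ c'))) = r * (kappa * (2 * J')) := by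
        rw [← i2, e₂]; ring
      rw [this, hJr]
      ring
  · intro e he
    obtain ⟨c, hc0, hci⟩ := hc e he
    refine ⟨c, hc0, (hci 0 1).trans ?_⟩
    ring
  · intro e he
    obtain ⟨c, hc0, hci⟩ := hc' e he
    refine ⟨c, hc0, (hci 0 1).trans ?_⟩
    ring

/-- the periods of `E₁`, `E₂` come with a factor of dimension four -/
def factor : Fin 4 → MvPolynomial (Fin 3) ℂ :=
  ![D.sec₁.jac, D.sec₁.twist.jac, D.sec₂.jac, D.sec₂.twist.jac]

lemma four_mem : ∃ B : Fin 4 → MvPolynomial (Fin 3) ℂ, (∀ i, (B i).IsHomogeneous 3) ∧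
    LinearIndependent ℂ B ∧ GG3 ∈ Submodule.span ℂ (Set.range B) ∧
    DiscreteTopology (D.curve.periodVectors B) := by
  refine ⟨D.factor, ?_, ?_, ?_, ?_⟩
  · intro i
    fin_cases i
    · exact cub_hom _ _ _ _
    · exact cub_hom _ _ _ _
    · exact cub_hom _ _ _ _
    · exact cub_hom _ _ _ _
  · have h := linInd_jacs (A := 1 / D.m₁) (B := D.B₁) (A' := 1 / D.m₂) (B' := D.B₂)
      D.det_ne_zero
    rw [factor, D.sec₁.jac_twist D.jac₁, D.sec₂.jac_twist D.jac₂, D.jac₁, D.jac₂]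
    exact h
  · have hm : ∀ i, D.factor i ∈ Submodule.span ℂ (Set.range D.factor) := fun i =>
      Submodule.subset_span ⟨i, rfl⟩
    have h1 : D.E₁ ∈ Submodule.span ℂ (Set.range D.factor) := by
      rw [E₁, D.sec₁.even_form D.jac₁]
      exact Submodule.add_mem _ (hm 0) (Submodule.smul_mem _ _ (hm 1))
    have h2 : D.E₂ ∈ Submodule.span ℂ (Set.range D.factor) := by
      rw [E₂, D.sec₂.even_form D.jac₂]
      exact Submodule.add_mem _ (hm 2) (Submodule.smul_mem _ _ (hm 3))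
    rw [D.GG3_eq]
    exact Submodule.add_mem _ (Submodule.smul_mem _ _ h1) (Submodule.smul_mem _ _ h2)
  · apply PlaneCurve.discrete_of_lattice
    intro i c hc
    fin_cases i
    · exact D.sec₁.period_mem c hc
    · exact D.sec₁.twist.period_mem c hc
    · exact D.sec₂.period_mem c hc
    · exact D.sec₂.twist.period_mem c hc

theorem degree_eq (hρ : D.rho ∉ KK) : D.curve.degree GG3 = 4 := by
  apply le_antisymm
  · exact Nat.sInf_le D.four_mem
  · refine le_csInf ⟨4, D.four_mem⟩ ?_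
    rintro k ⟨B, -, -, hspan, hdisc⟩
    obtain ⟨J, J', hJ', hF, hc, hc'⟩ := D.main
    have hli := eight_linInd (J := 2 * J) (J' := 2 * J') (mul_ne_zero two_ne_zero hJ') (by
      intro r hr h
      refine hρ (hF KK le_rfl r hr ?_)
      linear_combination h / 2)
    have hex : ∀ x : Fin 4 × Fin 2, ∃ c : D.curve.Arc →₀ ℤ, D.curve.boundary c = 0 ∧
        D.curve.integral GG3 c = ((ee x.1 : KK) : ℂ) * ![2 * J, 2 * J'] x.2 := by
      rintro ⟨a, j⟩
      fin_cases j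
      · obtain ⟨c, h1, h2⟩ := hc _ (ee_pow a)
        refine ⟨c, h1, h2.trans ?_⟩
        simp; ring
      · obtain ⟨c, h1, h2⟩ := hc' _ (ee_pow a)
        refine ⟨c, h1, h2.trans ?_⟩
        simp; ring
    choose c hc0 hci using hex
    have h8 := PlaneCurve.le_two_mul_of_discrete D.curve c hc0 (by
      simp only [hci]
      exact hli) hspan hdisc
    simp at h8
    omega

end Datum

end Pool.Agent.Helper31
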