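import Mathlib
import Pool.Agent.Helper31.One

open MvPolynomial Set
open scoped LinearAlgebra.Projectivization Matrix Topology

noncomputable section

namespace Pool.Agent.Helper31

lemma GG3_eq_pow : Datum.GG3 = (X 2 ^ 3 : MvPolynomial (Fin 3) ℂ) := by
  simp [Datum.GG3, cub]

lemma coeff_algebraic {F : MvPolynomial (Fin 3) ℂ}
    (h : ∃ F₀ : MvPolynomial (Fin 3) (algebraicClosure ℚ ℂ),
      MvPolynomial.map (algebraMap (algebraicClosure ℚ ℂ) ℂ) F₀ = F) (m : Fin 3 →₀ ℕ) :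
    IsAlgebraic ℚ (coeff m F) := by
  obtain ⟨F₀, rfl⟩ := h
  rw [coeff_map]
  exact mem_algebraicClosure_iff.mp (coeff m F₀).2

lemma sextic_coeff {p : ℂ} (hp : IsAlgebraic ℚ p) (m : Fin 3 →₀ ℕ) :
    IsAlgebraic ℚ (coeff m (sexticPoly p)) := by
  apply coeff_algebraic
  let p' : algebraicClosure ℚ ℂ := ⟨p, mem_algebraicClosure_iff.mpr hp⟩
  refine ⟨X 1 ^ 6 - X 0 ^ 5 * X 2 - MvPolynomial.C p' * X 0 ^ 3 * X 2 ^ 3 - X 0 * X 2 ^ 5, ?_⟩
  simp only [map_sub, map_mul, map_pow, map_X, map_C, sexticPoly]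
  rfl

lemma Z3_coeff (m : Fin 3 →₀ ℕ) :
    IsAlgebraic ℚ (coeff m (X 2 ^ 3 : MvPolynomial (Fin 3) ℂ)) := by
  apply coeff_algebraic
  exact ⟨X 2 ^ 3, by simp⟩

/-- The point `[1 : 0 : 0]`. -/
def P₀ : ℙ ℂ (Fin 3 → ℂ) := Projectivization.mk ℂ ![1, 0, 0] (by
  intro h; simpa using congrFun h 0)

lemma zeros_eq (p : ℂ) (hp : p ^ 2 ≠ 4) :
    (sextic p hp).zeros (X 2 ^ 3) = {P₀} := by
  have hrep : ∃ a : ℂ, a ≠ 0 ∧ (![1, 0, 0] : Fin 3 → ℂ) = a • P₀.rep :=
    PlaneCurve.exists_rep_eq _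
  obtain ⟨a, ha, hrep⟩ := hrep
  have hr2 : P₀.rep 2 = 0 := by
    have := congrFun hrep 2
    simp at this
    exact this.resolve_left ha
  have hr1 : P₀.rep 1 = 0 := by
    have := congrFun hrep 1
    simp at this
    exact this.resolve_left ha
  ext P
  constructor
  · rintro ⟨hP, h0⟩
    have hP' := mem_cone_sextic.mp (show P.rep ∈ (sextic p hp).cone from hP)
    have h2 : P.rep 2 = 0 := by
      have : P.rep 2 ^ 3 = 0 := by simpa using h0
      exact pow_eq_zero_iff (by norm_num) |>.mp this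
    have h1 : P.rep 1 = 0 := by
      have h6 := hP'.2
      rw [h2] at h6
      have : P.rep 1 ^ 6 = 0 := by rw [h6]; ring
      exact pow_eq_zero_iff (by norm_num) |>.mp this
    have h0' : P.rep 0 ≠ 0 := by
      intro h
      apply hP'.1
      ext i; fin_cases i
      · exact h
      · exact h1
      · exact h2
    rw [mem_singleton_iff, P₀, ← P.mk_rep, Projectivization.mk_eq_mk_iff']
    refine ⟨P.rep 0, ?_⟩
    ext i; fin_cases i
    · simp
    · simp [h1]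
    · simp [h2]
  · rintro rfl
    refine ⟨?_, by simp [hr2]⟩
    show P₀.rep ∈ (sextic p hp).cone
    rw [mem_cone_sextic]
    refine ⟨P₀.rep_nonzero, ?_⟩
    rw [hr1, hr2]
    ring

/-- a 1-chain whose boundary is supported at one point is a cycle -/
lemma boundary_eq_zero {e : ℕ} {C : PlaneCurve e} {P : ℙ ℂ (Fin 3 → ℂ)} (c : C.Arc →₀ ℤ)
    (h : ∀ Q ∈ (C.boundary c).support, Q = P) : C.boundary c = 0 := by
  have h1 := C.degree_boundary c
  have h2 : (C.boundary c).support ⊆ {P} := by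
    intro Q hQ
    rw [Finset.mem_singleton]
    exact h Q hQ
  have h3 : (C.boundary c).sum (fun _ n => n) = (C.boundary c) P := by
    rw [Finsupp.sum_of_support_subset _ h2 _ (by simp)]
    simp
  rw [h3] at h1
  ext Q
  by_cases hQ : Q = P
  · rw [hQ, h1]; rfl
  · by_contra hne
    exact hQ (h Q (Finsupp.mem_support_iff.mpr hne))

lemma isAlgebraic_KK {x : ℂ} (hx : x ∈ KK) : IsAlgebraic ℚ x := by
  have h : IsAlgebraic ℚ (⟨x, hx⟩ : KK) := Algebra.IsAlgebraic.isAlgebraic _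
  exact h.algebraMap (A := ℂ)

namespace Datum

variable {β : ℝ} (D : Datum β)

lemma alg_Bcoef {m s : ℂ} (hm : IsAlgebraic ℚ m) (hs : IsAlgebraic ℚ s) :
    IsAlgebraic ℚ (Sec.Bcoef m s) := by
  rw [Sec.Bcoef, div_eq_mul_inv]
  exact ((((isAlgebraic_natCast 21).mul (hs.pow 2)).add ((isAlgebraic_natCast 14).mul hs)).add
    isAlgebraic_one).neg.mul ((isAlgebraic_natCast 16).mul (hm.pow 7)).inv

theorem isArithmetic (hβ : IsAlgebraic ℚ (β : ℂ)) : D.curve.IsArithmetic (X 2 ^ 3) := by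
  refine ⟨fun m => sextic_coeff D.ap m, Z3_coeff, kappa, kappa_ne_zero, ?_⟩
  intro c hc
  have hc0 : D.curve.boundary c = 0 := by
    apply boundary_eq_zero (P := P₀)
    intro Q hQ
    have := hc Q hQ
    rw [curve, zeros_eq] at this
    exact this
  rw [← GG3_eq_pow, D.integral_GG3]
  have a₁ : IsAlgebraic ℚ D.B₁ := alg_Bcoef D.am₁ D.as₁
  have a₂ : IsAlgebraic ℚ D.B₂ := alg_Bcoef D.am₂ D.as₂
  have ad : IsAlgebraic ℚ D.det := by
    rw [det, one_div, one_div]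
    exact (D.am₁.inv.mul a₂).sub (D.am₂.inv.mul a₁)
  have ac : IsAlgebraic ℚ D.c₁ := by
    rw [c₁, div_eq_mul_inv]
    exact a₂.neg.mul (((isAlgebraic_natCast 2).mul ad).inv)
  have aρ : IsAlgebraic ℚ D.rho := by
    rw [rho, div_eq_mul_inv]
    exact ((((isAlgebraic_natCast 2).mul isAlgebraic_zeta).add isAlgebraic_one).mul
      (isAlgebraic_natCast 81).inv).mul hβ
  exact ac.mul ((isAlgebraic_KK (D.per₁ c hc0)).add (aρ.mul (isAlgebraic_KK (D.per₂ c hc0))))

end Datum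

end Pool.Agent.Helper31
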