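import Mathlib
import Pool.Agent.Helper31.Arith

open MvPolynomial Set
open scoped LinearAlgebra.Projectivization Matrix Topology

noncomputable section

namespace Pool.Agent.Helper31

namespace PlaneCurve

variable {e e' : ℕ} {C : PlaneCurve e} {C' : PlaneCurve e'}

lemma mem_cone_of_mk {q : Fin 3 → ℂ} (hq : q ≠ 0)
    (h : Projectivization.mk ℂ q hq ∈ C.points) : q ∈ C.cone := by
  obtain ⟨a, ha, hqa⟩ := exists_rep_eq hq
  rw [hqa]
  exact smul_mem_cone h ha

lemma form_smul_right (G : MvPolynomial (Fin 3) ℂ) (q v : Fin 3 → ℂ) (t : ℝ) :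
    C.form G q (t • v) = t * C.form G q v := by
  simp only [form]
  have : crossProduct q (t • v) = (t : ℂ) • crossProduct q v := by
    rw [← map_smul]; rfl
  rw [this, smul_dotProduct, smul_eq_mul]
  ring

lemma contDiff_evalMap (H : Fin 3 → MvPolynomial (Fin 3) ℂ) : ContDiff ℝ 1 (evalMap H) := by
  rw [contDiff_pi]
  intro i
  exact contDiff_eval (H i)

section push

variable {G G' : MvPolynomial (Fin 3) ℂ} {f : ℙ ℂ (Fin 3 → ℂ) → ℙ ℂ (Fin 3 → ℂ)} {a : ℂ}

/-- the relation used in the subdivision argument -/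
def Rel (C' : PlaneCurve e') (G G' : MvPolynomial (Fin 3) ℂ)
    (f : ℙ ℂ (Fin 3 → ℂ) → ℙ ℂ (Fin 3 → ℂ)) (a : ℂ)
    (Γ : C.Arc) (x y : Icc (0:ℝ) 1) : Prop :=
  ∃ c' : C'.Arc →₀ ℤ,
    C'.boundary c' = Finsupp.single (f (Γ.pt y)) 1 - Finsupp.single (f (Γ.pt x)) 1 ∧
      C'.integral G' c' = a * ∫ t in (x:ℝ)..y,
        C.form G (Γ.toFun t) (derivWithin Γ.toFun (Icc 0 1) t)

lemma intInt (Γ : C.Arc) (G : MvPolynomial (Fin 3) ℂ) (x y : Icc (0:ℝ) 1) :
    IntervalIntegrable (fun t => C.form G (Γ.toFun t) (derivWithin Γ.toFun (Icc 0 1) t))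
      MeasureTheory.volume x y := by
  apply ContinuousOn.intervalIntegrable
  refine (Γ.continuousOn_form G).mono ?_
  exact (convex_Icc (0:ℝ) 1).ordConnected.uIcc_subset x.2 y.2

lemma rel_trans (Γ : C.Arc) {x y z : Icc (0:ℝ) 1} (h : Rel C' G G' f a Γ x y)
    (h' : Rel C' G G' f a Γ y z) : Rel C' G G' f a Γ x z := by
  obtain ⟨c, hc, hi⟩ := h
  obtain ⟨c', hc', hi'⟩ := h'
  refine ⟨c + c', ?_, ?_⟩
  · rw [boundary_add, hc, hc']
    abel
  · rw [integral_add, hi, hi', ← mul_add,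
      intervalIntegral.integral_add_adjacent_intervals (intInt Γ G x y) (intInt Γ G y z)]

lemma rel_symm (Γ : C.Arc) {x y : Icc (0:ℝ) 1} (h : Rel C' G G' f a Γ x y) :
    Rel C' G G' f a Γ y x := by
  obtain ⟨c, hc, hi⟩ := h
  refine ⟨-c, ?_, ?_⟩
  · rw [boundary_neg, hc]
    abel
  · rw [integral_neg, hi, intervalIntegral.integral_symm]
    ring

lemma rel_local (hf : MapsTo f C.points C'.points)
    (hloc : ∀ p ∈ C.cone, ∃ (d : ℕ) (H : Fin 3 → MvPolynomial (Fin 3) ℂ),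
      (∀ i, (H i).IsHomogeneous d) ∧ evalMap H p ≠ 0 ∧
        ∀ (q : Fin 3 → ℂ) (hq : q ∈ C.cone) (h : evalMap H q ≠ 0),
          f (Projectivization.mk ℂ q hq.1) = Projectivization.mk ℂ (evalMap H q) h ∧
            ∀ v, C.grad q ⬝ᵥ v = 0 →
              C'.form G' (evalMap H q) (evalDeriv H q v) = a * C.form G q v)
    (Γ : C.Arc) (x : Icc (0:ℝ) 1) : ∀ᶠ y in 𝓝 x, Rel C' G G' f a Γ x y := by
  obtain ⟨d, H, -, hH, hloc⟩ := hloc _ (Γ.mem_cone x x.2)
  have hcont : ContinuousOn (fun t => evalMap H (Γ.toFun t)) (Icc 0 1) :=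
    (contDiff_evalMap H).continuous.comp_continuousOn Γ.continuousOn
  have hev : ∀ᶠ t in 𝓝[Icc (0:ℝ) 1] (x : ℝ), evalMap H (Γ.toFun t) ≠ 0 :=
    (hcont x x.2).eventually_ne hH
  obtain ⟨ε, hε, hsub⟩ := Metric.mem_nhdsWithin_iff.mp hev
  filter_upwards [Metric.ball_mem_nhds x hε] with y hy
  have hseg : ∀ s ∈ Icc (0:ℝ) 1, (x:ℝ) + ((y:ℝ) - x) * s ∈ Icc (0:ℝ) 1 ∧
      evalMap H (Γ.toFun ((x:ℝ) + ((y:ℝ) - x) * s)) ≠ 0 := by
    intro s hs
    have h1 : (x:ℝ) + ((y:ℝ) - x) * s ∈ Icc (0:ℝ) 1 := by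
      have := (convex_Icc (0:ℝ) 1) x.2 y.2 (a := 1 - s) (b := s) (by linarith [hs.2]) hs.1
        (by ring)
      have e : (x:ℝ) + ((y:ℝ) - x) * s = (1 - s) • (x:ℝ) + s • (y:ℝ) := by
        simp only [smul_eq_mul]; ring
      rw [e]; exact this
    refine ⟨h1, hsub ⟨?_, h1⟩⟩
    rw [Metric.mem_ball, Real.dist_eq]
    have hy' : |(y:ℝ) - x| < ε := by
      have := Metric.mem_ball.mp hy
      rwa [Subtype.dist_eq, Real.dist_eq] at this
    have : |(x:ℝ) + ((y:ℝ) - x) * s - x| = |(y:ℝ) - x| * s := by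
      rw [show (x:ℝ) + ((y:ℝ) - x) * s - x = ((y:ℝ) - x) * s by ring, abs_mul,
        abs_of_nonneg hs.1]
    rw [this]
    have := abs_nonneg ((y:ℝ) - x)
    nlinarith [hs.1, hs.2]
  have hmaps : MapsTo (fun s : ℝ => (x:ℝ) + ((y:ℝ) - x) * s) (Icc 0 1) (Icc 0 1) :=
    fun s hs => (hseg s hs).1
  have haff : ContDiff ℝ 1 (fun s : ℝ => (x:ℝ) + ((y:ℝ) - x) * s) := by fun_prop
  let Δ : C'.Arc :=
    { toFun := fun s => evalMap H (Γ.toFun ((x:ℝ) + ((y:ℝ) - x) * s))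
      contDiffOn := (contDiff_evalMap H).comp_contDiffOn
        (Γ.contDiffOn.comp haff.contDiffOn hmaps)
      mem_cone := by
        intro s hs
        obtain ⟨h1, h2⟩ := hseg s hs
        apply mem_cone_of_mk h2
        rw [← (hloc _ (Γ.mem_cone _ h1) h2).1]
        exact hf (mk_mem_points (Γ.mem_cone _ h1)) }
  have hΔ : Δ.toFun = fun s => evalMap H (Γ.toFun ((x:ℝ) + ((y:ℝ) - x) * s)) := rfl
  refine ⟨Finsupp.single Δ 1, ?_, ?_⟩
  · rw [boundary_single]
    have p1 : Δ.pt 1 = f (Γ.pt y) := by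
      obtain ⟨h1, h2⟩ := hseg 1 ⟨zero_le_one, le_rfl⟩
      have := (hloc _ (Γ.mem_cone _ h1) h2).1
      rw [Arc.pt, Arc.pt]
      simp only [hΔ]
      have e : (x:ℝ) + ((y:ℝ) - x) * 1 = y := by ring
      simp only [e] at this
      rw [this]
      simp
    have p0 : Δ.pt 0 = f (Γ.pt x) := by
      obtain ⟨h1, h2⟩ := hseg 0 ⟨le_rfl, zero_le_one⟩
      have := (hloc _ (Γ.mem_cone _ h1) h2).1
      rw [Arc.pt, Arc.pt]
      simp only [hΔ]
      have e : (x:ℝ) + ((y:ℝ) - x) * 0 = x := by ring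
      simp only [e] at this
      rw [this]
      simp
    rw [p1, p0]
  · rw [integral_single]
    push_cast
    rw [one_mul, Arc.integral]
    set φ : ℝ → ℂ := fun t => C.form G (Γ.toFun t) (derivWithin Γ.toFun (Icc 0 1) t) with hφ
    have hpt : ∀ s ∈ Icc (0:ℝ) 1, C'.form G' (Δ.toFun s) (derivWithin Δ.toFun (Icc 0 1) s) =
        (a * (((y:ℝ) - x : ℝ) : ℂ)) * φ ((x:ℝ) + ((y:ℝ) - x) * s) := by
      intro s hs
      obtain ⟨h1, h2⟩ := hseg s hs
      set τ := (x:ℝ) + ((y:ℝ) - x) * s with hτ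
      have hd := Γ.hasDeriv h1
      set v₀ := derivWithin Γ.toFun (Icc 0 1) τ with hv₀
      have haff' : HasDerivWithinAt (fun s : ℝ => (x:ℝ) + ((y:ℝ) - x) * s) ((y:ℝ) - x)
          (Icc 0 1) s := by
        have := (((hasDerivAt_id s).const_mul ((y:ℝ) - x)).const_add (x:ℝ)).hasDerivWithinAt
          (s := Icc (0:ℝ) 1)
        simpa using this
      have hd2 : HasDerivWithinAt (fun s : ℝ => Γ.toFun ((x:ℝ) + ((y:ℝ) - x) * s))
          (((y:ℝ) - x) • v₀) (Icc 0 1) s :=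
        HasDerivWithinAt.scomp s hd haff' hmaps
      have hd3 : HasDerivWithinAt Δ.toFun (evalDeriv H (Γ.toFun τ) (((y:ℝ) - x) • v₀))
          (Icc 0 1) s := by
        rw [hasDerivWithinAt_pi]
        intro i
        exact hasDerivWithinAt_eval (H i) hd2
      rw [hd3.derivWithin ((uniqueDiffOn_Icc zero_lt_one) s hs)]
      have htan : C.grad (Γ.toFun τ) ⬝ᵥ (((y:ℝ) - x) • v₀) = 0 := by
        rw [dotProduct_smul, Γ.tangent h1, smul_zero]
      have := (hloc _ (Γ.mem_cone _ h1) h2).2 _ htan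
      rw [form_smul_right] at this
      refine this.trans ?_
      rw [hφ]
      push_cast
      ring
    have hcongr : (∫ s in (0:ℝ)..1, C'.form G' (Δ.toFun s) (derivWithin Δ.toFun (Icc 0 1) s)) =
        ∫ s in (0:ℝ)..1, (a * (((y:ℝ) - x : ℝ) : ℂ)) * φ ((x:ℝ) + ((y:ℝ) - x) * s) := by
      apply intervalIntegral.integral_congr
      intro s hs
      rw [uIcc_of_le zero_le_one] at hs
      exact hpt s hs
    rw [hcongr, intervalIntegral.integral_const_mul, mul_assoc]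
    congr 1
    have := intervalIntegral.smul_integral_comp_add_mul (a := 0) (b := 1) φ ((y:ℝ) - x) (x:ℝ)
    rw [Complex.real_smul] at this
    rw [this]
    congr 1
    · ring
    · ring

/-- Push-forward of an arc. -/
lemma push_arc (hf : MapsTo f C.points C'.points)
    (hloc : ∀ p ∈ C.cone, ∃ (d : ℕ) (H : Fin 3 → MvPolynomial (Fin 3) ℂ),
      (∀ i, (H i).IsHomogeneous d) ∧ evalMap H p ≠ 0 ∧
        ∀ (q : Fin 3 → ℂ) (hq : q ∈ C.cone) (h : evalMap H q ≠ 0),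
          f (Projectivization.mk ℂ q hq.1) = Projectivization.mk ℂ (evalMap H q) h ∧
            ∀ v, C.grad q ⬝ᵥ v = 0 →
              C'.form G' (evalMap H q) (evalDeriv H q v) = a * C.form G q v)
    (Γ : C.Arc) : ∃ c' : C'.Arc →₀ ℤ,
    C'.boundary c' = Finsupp.single (f (Γ.pt 1)) 1 - Finsupp.single (f (Γ.pt 0)) 1 ∧
      C'.integral G' c' = a * Γ.integral G := by
  have h : Rel C' G G' f a Γ 0 1 := by
    have hpre : IsPreconnected (univ : Set (Icc (0:ℝ) 1)) := isPreconnected_univ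
    refine hpre.induction₂ (Rel C' G G' f a Γ) (fun x _ => ?_)
      (fun x y z _ _ _ h h' => rel_trans Γ h h') (fun x y _ _ h => rel_symm Γ h)
      (mem_univ _) (mem_univ _)
    rw [nhdsWithin_univ]
    exact rel_local hf hloc Γ x
  exact h

/-- Push-forward of a cycle. -/
theorem push_cycle (hf : MapsTo f C.points C'.points)
    (hloc : ∀ p ∈ C.cone, ∃ (d : ℕ) (H : Fin 3 → MvPolynomial (Fin 3) ℂ),
      (∀ i, (H i).IsHomogeneous d) ∧ evalMap H p ≠ 0 ∧
        ∀ (q : Fin 3 → ℂ) (hq : q ∈ C.cone) (h : evalMap H q ≠ 0),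
          f (Projectivization.mk ℂ q hq.1) = Projectivization.mk ℂ (evalMap H q) h ∧
            ∀ v, C.grad q ⬝ᵥ v = 0 →
              C'.form G' (evalMap H q) (evalDeriv H q v) = a * C.form G q v)
    (c : C.Arc →₀ ℤ) : ∃ c' : C'.Arc →₀ ℤ,
    C'.boundary c' = (C.boundary c).mapDomain f ∧ C'.integral G' c' = a * C.integral G c := by
  induction c using Finsupp.induction_linear with
  | zero => exact ⟨0, by simp, by simp⟩
  | add c d hc hd =>
    obtain ⟨c', hc1, hc2⟩ := hc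
    obtain ⟨d', hd1, hd2⟩ := hd
    refine ⟨c' + d', ?_, ?_⟩
    · rw [boundary_add, boundary_add, hc1, hd1, Finsupp.mapDomain_add]
    · rw [integral_add, integral_add, hc2, hd2]; ring
  | single Γ n =>
    obtain ⟨c', hc1, hc2⟩ := push_arc hf hloc Γ
    refine ⟨n • c', ?_, ?_⟩
    · rw [boundary_eq, map_zsmul, ← boundary_eq, hc1, boundary_single, sub_eq_add_neg,
        sub_eq_add_neg, Finsupp.mapDomain_add, ← Finsupp.single_neg, ← Finsupp.single_neg,
        Finsupp.mapDomain_single, Finsupp.mapDomain_single]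
      simp
    · rw [integral_eq, map_zsmul, ← integral_eq, hc2, integral_single]
      simp
      ring

end push

end PlaneCurve

theorem Isomorphic.push {e e' : ℕ} {C : PlaneCurve e} {C' : PlaneCurve e'}
    {G G' : MvPolynomial (Fin 3) ℂ} (h : Isomorphic C G C' G') :
    ∃ a : ℂ, a ≠ 0 ∧ ∀ c : C.Arc →₀ ℤ, C.boundary c = 0 → ∃ c' : C'.Arc →₀ ℤ,
      C'.boundary c' = 0 ∧ C'.integral G' c' = a * C.integral G c := by
  obtain ⟨f, a, ha, hbij, hloc⟩ := h
  refine ⟨a, ha, fun c hc => ?_⟩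
  obtain ⟨c', h1, h2⟩ := PlaneCurve.push_cycle hbij.mapsTo hloc c
  refine ⟨c', ?_, h2⟩
  rw [h1, hc, Finsupp.mapDomain_zero]

/-- Sanity check: every pair is isomorphic to itself. -/
theorem Isomorphic.refl {e : ℕ} (C : PlaneCurve e) (G : MvPolynomial (Fin 3) ℂ) :
    Isomorphic C G C G := by
  have hmap : ∀ q : Fin 3 → ℂ, evalMap (fun i => X i) q = q := by
    intro q; ext i; simp [evalMap]
  have hder : ∀ q v : Fin 3 → ℂ, evalDeriv (fun i => X i) q v = v := by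
    intro q v; ext i
    simp [evalDeriv, pderiv_X, Pi.single_apply]
  refine ⟨id, 1, one_ne_zero, bijOn_id _, fun p hp => ⟨1, fun i => X i,
    fun i => isHomogeneous_X ℂ i, ?_, ?_⟩⟩
  · rw [hmap]; exact hp.1
  · intro q hq h
    refine ⟨?_, ?_⟩
    · simp only [hmap]; rfl
    · intro v _
      rw [hmap, hder, one_mul]

end Pool.Agent.Helper31
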