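import Mathlib
import Pool.Agent.Helper31.Iso

open MvPolynomial Set
open scoped LinearAlgebra.Projectivization Matrix Topology

noncomputable section

namespace Pool.Agent.Helper31

lemma theta_ne_zero : (2 * zeta + 1) ≠ 0 := by
  intro h
  have h1 := zeta_rel
  have : (4 : ℂ) * (zeta ^ 2 + zeta + 1) = (2 * zeta + 1) ^ 2 + 3 := by ring
  rw [h1, h] at this
  norm_num at this

lemma theta_mem : (2 * zeta + 1) ∈ KK := by
  have h2 : (2 : ℂ) ∈ KK := by exact_mod_cast natCast_mem KK 2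
  exact KK.add_mem (KK.mul_mem h2 zeta_mem) KK.one_mem

lemma beta_mem_of_rho {F : IntermediateField ℚ ℂ} (hF : KK ≤ F) {β : ℝ} (D : Datum β)
    (h : D.rho ∈ F) : (β : ℂ) ∈ F := by
  have h81 : (81 : ℂ) ∈ F := by exact_mod_cast natCast_mem F 81
  have hθ := hF theta_mem
  have : (β : ℂ) = D.rho * 81 / (2 * zeta + 1) := by
    rw [eq_div_iff theta_ne_zero, Datum.rho]
    ring
  rw [this]
  exact F.div_mem (F.mul_mem h h81) hθ

lemma rho_mem_of_beta {F : IntermediateField ℚ ℂ} (hF : KK ≤ F) {β : ℝ} (D : Datum β)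
    (h : (β : ℂ) ∈ F) : D.rho ∈ F := by
  have h81 : (81 : ℂ) ∈ F := by exact_mod_cast natCast_mem F 81
  exact F.mul_mem (F.div_mem (hF theta_mem) h81) h

theorem not_iso {β β' : ℝ} (D : Datum β) (D' : Datum β') {q q' : ℕ} (hq : q.Prime)
    (hq' : q'.Prime) (h5 : 5 ≤ q) (hne : q ≠ q') (hβ : (β : ℂ) ^ q = 2)
    (hβ' : (β' : ℂ) ^ q' = 2) : ¬ Isomorphic D.curve (X 2 ^ 3) D'.curve (X 2 ^ 3) := by
  intro h
  rw [← GG3_eq_pow] at h
  obtain ⟨a, ha, hpush⟩ := h.push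
  obtain ⟨J, J', hJ', hF, hc, hc'⟩ := D.main
  obtain ⟨c, hc0, hci⟩ := hc 1 (one_pow _)
  obtain ⟨c', hc0', hci'⟩ := hc' 1 (one_pow _)
  obtain ⟨d, hd0, hdi⟩ := hpush c hc0
  obtain ⟨d', hd0', hdi'⟩ := hpush c' hc0'
  have hr := D'.ratio_mem d d' hd0 hd0'
  rw [hdi, hdi', hci, hci'] at hr
  have hr' : a * (2 * 1 * J) / (a * (2 * 1 * J')) = J / J' := by
    field_simp
  rw [hr'] at hr
  have hle : KK ≤ KK ⊔ IntermediateField.adjoin ℚ {(β' : ℂ)} := le_sup_left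
  have hle2 : KK ⊔ IntermediateField.adjoin ℚ {D'.rho} ≤
      KK ⊔ IntermediateField.adjoin ℚ {(β' : ℂ)} := by
    apply sup_le hle
    rw [IntermediateField.adjoin_simple_le_iff]
    apply rho_mem_of_beta hle
    exact (le_sup_right : _ ≤ KK ⊔ IntermediateField.adjoin ℚ {(β' : ℂ)})
      (IntermediateField.mem_adjoin_simple_self ℚ _)
  have h1 := hF _ hle _ (hle2 hr) (by field_simp)
  exact beta_notMem hq hq' h5 hne hβ hβ' (beta_mem_of_rho hle D h1)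

/-- the primes `≥ 5` -/
def qn (n : ℕ) : ℕ := Nat.nth (fun p => p.Prime ∧ 5 ≤ p) n

lemma inf_primes : (Set.ofPred (fun p : ℕ => p.Prime ∧ 5 ≤ p)).Infinite := by
  apply Set.infinite_of_forall_exists_gt
  intro a
  obtain ⟨p, hp, hpr⟩ := Nat.exists_infinite_primes (max 5 (a + 1))
  refine ⟨p, ⟨hpr, le_trans (le_max_left _ _) hp⟩, ?_⟩
  have := le_trans (le_max_right _ _) hp
  omega

lemma qn_prime (n : ℕ) : (qn n).Prime := (Nat.nth_mem_of_infinite inf_primes n).1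
lemma qn_ge (n : ℕ) : 5 ≤ qn n := (Nat.nth_mem_of_infinite inf_primes n).2
lemma qn_inj : Function.Injective qn := Nat.nth_injective inf_primes

/-- `2^{1/q}` -/
def bn (n : ℕ) : ℝ := (2 : ℝ) ^ ((qn n : ℝ)⁻¹)

lemma bn_pow (n : ℕ) : bn n ^ qn n = 2 :=
  Real.rpow_inv_natCast_pow (by norm_num) (qn_prime n).ne_zero

lemma bn_pow' (n : ℕ) : (bn n : ℂ) ^ qn n = 2 := by
  exact_mod_cast bn_pow n

lemma one_le_bn (n : ℕ) : 1 ≤ bn n :=
  Real.one_le_rpow (by norm_num) (by positivity)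

lemma bn_le_two (n : ℕ) : bn n ≤ 2 := by
  have h : (2 : ℝ) ^ ((qn n : ℝ)⁻¹) ≤ (2 : ℝ) ^ (1 : ℝ) := by
    apply Real.rpow_le_rpow_of_exponent_le (by norm_num)
    apply inv_le_one_of_one_le₀
    exact_mod_cast (qn_prime n).one_le
  rwa [Real.rpow_one] at h

/-- the data of the `n`-th curve -/
def dn (n : ℕ) : Datum (bn n) :=
  (exists_datum (bn n) (one_le_bn n) (bn_le_two n) (qn_prime n).ne_zero (bn_pow n)).some

lemma bn_algebraic (n : ℕ) : IsAlgebraic ℚ (bn n : ℂ) :=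
  (finrank_beta (qn_prime n) (bn_pow' n)).2

theorem family : (∀ n, (∃ P, (dn n).curve.zeros (X 2 ^ 3) = {P}) ∧
      (dn n).curve.IsArithmetic (X 2 ^ 3) ∧ (dn n).curve.degree (X 2 ^ 3) = 4) ∧
    Pairwise fun m n => ¬ Isomorphic (dn m).curve (X 2 ^ 3) (dn n).curve (X 2 ^ 3) := by
  refine ⟨fun n => ⟨⟨P₀, zeros_eq _ _⟩, (dn n).isArithmetic (bn_algebraic n), ?_⟩, ?_⟩
  · rw [← GG3_eq_pow]
    apply (dn n).degree_eq
    intro h
    exact beta_notMem_KK (qn_prime n) (qn_ge n) (bn_pow' n) (beta_mem_of_rho le_rfl _ h)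
  · intro m n hmn
    exact not_iso (dn m) (dn n) (qn_prime m) (qn_prime n) (qn_ge m)
      (fun h => hmn (qn_inj h)) (bn_pow' m) (bn_pow' n)

end Pool.Agent.Helper31
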